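import Mathlib

set_option autoImplicit false

/-! Irreducible 2n conjecture for sign patterns: definitions for the counterexample of order 83.
The architecture follows the zero-nonzero counterexample of order 69 in `Helper993/TwoN`. -/

namespace Pool.Agent.N14.TwoN

open Polynomial

/-! ### The factor conditions -/

/-- Partial Horner values `h_l` of a polynomial of degree `D` at `b = - (coefficient of X^(D-1))`. -/
noncomputable def hs (F : ℝ[X]) (D : ℕ) : ℕ → ℝ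
  | 0 => 1
  | l + 1 => -F.coeff (D - 1) * hs F D l + F.coeff (D - (l + 1))

/-- The sign conditions for the first factor (degree 44). -/
def nice1 (F : ℝ[X]) : Prop :=
  hs F 44 4 = 0 ∧ F.coeff 43 < 0 ∧ 0 < F.coeff 0 ∧ ∀ l, 2 ≤ l → l ≤ 43 → l ≠ 4 → 0 < hs F 44 l

/-- The sign conditions for the second factor (degree 40). -/
def nice2 (F : ℝ[X]) : Prop :=
  0 < F.coeff 39 ∧ 0 < F.coeff 0 ∧ ∀ l, 2 ≤ l → l ≤ 39 → 0 < (-1) ^ l * hs F 40 l

/-! ### The 84-gons -/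

/-- `cos (π m / 84)` -/
noncomputable def cs (m : ℕ) : ℝ := Real.cos (Real.pi * m / 84)

/-- `exp (i π a / 84)` -/
noncomputable def w (a : ℕ) : ℂ := Complex.exp (((Real.pi * a / 84 : ℝ) : ℂ) * Complex.I)

/-- Exponents of the 84-gon `z ^ 84 = (-1) ^ e`. -/
def PAR (e : ℕ) : Finset ℕ := (Finset.range 168).filter (fun a => a % 2 = e)

/-- The exponents in the open upper half plane. -/
def UP (e : ℕ) : Finset ℕ := (Finset.Ioo 0 84).filter (fun a => a % 2 = e)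

/-- The conjugation closed set of exponents given by its upper half and by whether it contains
both real points `1, -1`. -/
def full (U : Finset ℕ) (pm : Bool) : Finset ℕ :=
  (U ∪ U.image (fun a => 168 - a)) ∪ (if pm then {0, 84} else ∅)

/-- Half sets of 44 points of the 84-gon. -/
structure Valid (e : ℕ) (U : Finset ℕ) (pm : Bool) : Prop where
  he : e < 2
  hU : U ⊆ UP e
  hc : U.card + (if pm then 1 else 0) = 22
  hp : pm = true → e = 0

/-- The upper half of the complement. -/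
def comp (e : ℕ) (U : Finset ℕ) : Finset ℕ := UP e \ U

/-- Whether the complement contains `1, -1`. -/
def cpm (e : ℕ) (pm : Bool) : Bool := decide (e = 0) && !pm

/-- The perturbation `∑ ρ_j z^(84-j)`. -/
noncomputable def r (ρ : ℕ → ℝ) (z : ℂ) : ℂ := ∑ j ∈ Finset.Icc 1 83, (ρ j : ℂ) * z ^ (84 - j)

/-- Its derivative. -/
noncomputable def r' (ρ : ℕ → ℝ) (z : ℂ) : ℂ :=
  ∑ j ∈ Finset.Icc 1 83, (ρ j : ℂ) * ((84 - j : ℕ) : ℂ) * z ^ (83 - j)

/-- Side lengths of the box, in units `10^(-7)`. -/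
def bdN (j : ℕ) : ℕ := if j = 3 then 420 else if j ≤ 2 then 70 else 280

/-- Side lengths of the box. -/
noncomputable def bd (j : ℕ) : ℝ := (bdN j : ℝ) / 10 ^ 7

/-- Side lengths of the larger box. -/
noncomputable def bdR (j : ℕ) : ℝ := ((bdN j + 2 : ℕ) : ℝ) / 10 ^ 7

/-- The box of displacements. -/
def Box (σ : ℕ → ℝ) : Prop := ∀ j ∈ Finset.Icc 1 83, |σ j| ≤ bd j

/-- The box of perturbations. -/
def BoxR (ρ : ℕ → ℝ) : Prop := ∀ j ∈ Finset.Icc 1 83, |ρ j| ≤ bdR j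

/-- The perturbed polynomial. -/
noncomputable def P (ρ : ℕ → ℝ) (e : ℕ) : ℝ[X] :=
  X ^ 84 + (∑ j ∈ Finset.Icc 1 83, C (ρ j) * X ^ (84 - j)) - C ((-1) ^ e)

/-- First order displacement of the root `ω`. -/
noncomputable def xi1 (e : ℕ) (ρ : ℕ → ℝ) (ω : ℂ) : ℂ := -(-1) ^ e * ω * r ρ ω / 84

/-- `z` is the root near `ω`. -/
def IsRoot' (e : ℕ) (ρ : ℕ → ℝ) (ω z : ℂ) : Prop :=
  ‖z - ω‖ ≤ 1 / 5000 ∧ z ^ 84 + r ρ z = (-1) ^ e

/-! ### Real quantities of a set -/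

/-- Power sums of the set. -/
noncomputable def sg (U : Finset ℕ) (pm : Bool) (m : ℕ) : ℝ :=
  2 * (∑ a ∈ U, cs (m * a)) + (if pm then 1 + (-1) ^ m else 0)

/-- `p_1^2 - p_2` of the set. -/
noncomputable def uu (U : Finset ℕ) (pm : Bool) : ℝ := sg U pm 1 ^ 2 - sg U pm 2

/-- The Horner value `h_4` of the set. -/
noncomputable def eta (U : Finset ℕ) (pm : Bool) : ℝ :=
  (sg U pm 1 ^ 4 - sg U pm 4) / 4 + uu U pm ^ 2 / 8

/-- First coefficient of the derivative. -/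
noncomputable def al (U : Finset ℕ) (pm : Bool) : ℝ := sg U pm 1 ^ 3 + uu U pm / 2 * sg U pm 1

/-- Second coefficient of the derivative. -/
noncomputable def be (U : Finset ℕ) (pm : Bool) : ℝ := uu U pm / 2

/-- `|j - k|` -/
def ad (j k : ℕ) : ℕ := (j - k) + (k - j)

/-- Coefficients of the first variation of `h_4`. -/
noncomputable def Lc (U : Finset ℕ) (pm : Bool) (j : ℕ) : ℝ :=
  -(1 / 84) * (al U pm * sg U pm (j - 1) - be U pm * sg U pm (ad j 2) - sg U pm (ad j 4))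

/-- The first variation of `h_4`. -/
noncomputable def L (U : Finset ℕ) (pm : Bool) (σ : ℕ → ℝ) : ℝ :=
  ∑ j ∈ Finset.Icc 1 83, σ j * Lc U pm j

/-- The admissible upper error. -/
noncomputable def epsP (b : ℝ) : ℝ := (43 * b ^ 2 + 37) / 10 ^ 9

/-- The real polynomial whose roots are the points of the set. -/
noncomputable def FU (U : Finset ℕ) (pm : Bool) : ℝ[X] :=
  (∏ a ∈ U, (X ^ 2 - C (2 * cs a) * X + 1)) * (if pm then X ^ 2 - 1 else 1)

/-- The `l1` norm of the coefficients. -/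
noncomputable def nrm (F : ℝ[X]) : ℝ := ∑ i ∈ Finset.range 85, |F.coeff i|

/-- The roots, as functions of the perturbation, and the displacement coordinates. -/
structure Disp (e : ℕ) (z : (ℕ → ℝ) → ℕ → ℂ) (σ : (ℕ → ℝ) → ℕ → ℝ) : Prop where
  root : ∀ ρ, BoxR ρ → ∀ a ∈ PAR e, IsRoot' e ρ (w a) (z ρ a)
  zero : ∀ a ∈ PAR e, z (fun _ => 0) a = w a
  sig : ∀ ρ, BoxR ρ → ∀ j ∈ Finset.Icc 1 83,
    ((σ ρ j : ℝ) : ℂ) = -∑ a ∈ PAR e, (z ρ a - w a) * (w a) ^ (j - 1)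
  close : ∀ ρ, BoxR ρ → ∀ j ∈ Finset.Icc 1 83, |σ ρ j - ρ j| ≤ 1 / 10 ^ 7
  contz : ∀ (γ : ℝ → ℕ → ℝ) (T : ℝ), (∀ j, Continuous (fun τ => γ τ j)) →
    (∀ τ ∈ Set.Icc 0 T, BoxR (γ τ)) → ∀ a ∈ PAR e, ContinuousOn (fun τ => z (γ τ) a) (Set.Icc 0 T)
  cont : ∀ (γ : ℝ → ℕ → ℝ) (T : ℝ), (∀ j, Continuous (fun τ => γ τ j)) →
    (∀ τ ∈ Set.Icc 0 T, BoxR (γ τ)) → ∀ j ∈ Finset.Icc 1 83,
    ContinuousOn (fun τ => σ (γ τ) j) (Set.Icc 0 T)

/-- The two factors of the perturbed polynomial, depending continuously on the perturbation. -/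
structure Family (e : ℕ) (U : Finset ℕ) (pm : Bool) (σ : (ℕ → ℝ) → ℕ → ℝ)
    (F1 F2 : (ℕ → ℝ) → ℝ[X]) : Prop where
  monic1 : ∀ ρ, BoxR ρ → (F1 ρ).Monic
  deg1 : ∀ ρ, BoxR ρ → (F1 ρ).natDegree = 44
  monic2 : ∀ ρ, BoxR ρ → (F2 ρ).Monic
  deg2 : ∀ ρ, BoxR ρ → (F2 ρ).natDegree = 40
  prod : ∀ ρ, BoxR ρ → F1 ρ * F2 ρ = P ρ e
  zero1 : F1 (fun _ => 0) = FU U pm
  zero2 : F2 (fun _ => 0) = FU (comp e U) (cpm e pm)
  close1 : ∀ ρ, BoxR ρ → ∀ i, |(F1 ρ).coeff i - (FU U pm).coeff i| ≤ 1 / 5000 * nrm (FU U pm)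
  close2 : ∀ ρ, BoxR ρ → ∀ i, |(F2 ρ).coeff i - (FU (comp e U) (cpm e pm)).coeff i| ≤
    1 / 5000 * nrm (FU (comp e U) (cpm e pm))
  top1 : ∀ ρ, BoxR ρ → |(F1 ρ).coeff 43 - (FU U pm).coeff 43| ≤ 1 / 5000
  top2 : ∀ ρ, BoxR ρ → |(F2 ρ).coeff 39 - (FU (comp e U) (cpm e pm)).coeff 39| ≤ 1 / 5000
  h4 : 1 ≤ sg U pm 1 → sg U pm 1 ≤ 21 / 10 → |uu U pm| ≤ 4 → |eta U pm| ≤ 1 / 1000 →
    ∀ ρ, BoxR ρ → Box (σ ρ) →
    -(2 / 10 ^ 9) ≤ hs (F1 ρ) 44 4 - (eta U pm + L U pm (σ ρ)) ∧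
    hs (F1 ρ) 44 4 - (eta U pm + L U pm (σ ρ)) ≤ epsP (sg U pm 1)
  cont : ∀ (γ : ℝ → ℕ → ℝ) (T : ℝ), (∀ j, Continuous (fun τ => γ τ j)) →
    (∀ τ ∈ Set.Icc 0 T, BoxR (γ τ)) → ∀ i, ContinuousOn (fun τ => (F1 (γ τ)).coeff i) (Set.Icc 0 T)

/-- The condition that makes a set of the certificate usable for every nearby pair of factors. -/
def NiceSet (e : ℕ) (U : Finset ℕ) (pm : Bool) : Prop :=
  ∀ F1 F2 : ℝ[X],
    (∀ i, |F1.coeff i - (FU U pm).coeff i| ≤ 1 / 5000 * nrm (FU U pm)) →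
    (∀ i, |F2.coeff i - (FU (comp e U) (cpm e pm)).coeff i| ≤
      1 / 5000 * nrm (FU (comp e U) (cpm e pm))) →
    |F1.coeff 43 - (FU U pm).coeff 43| ≤ 1 / 5000 →
    |F2.coeff 39 - (FU (comp e U) (cpm e pm)).coeff 39| ≤ 1 / 5000 →
    hs F1 44 4 = 0 → nice1 F1 ∧ nice2 F2

/-- Characteristic polynomials of the leading blocks of a lower Hessenberg matrix with
superdiagonal entries 1. -/
noncomputable def hess (M : ℕ → ℕ → ℝ) : ℕ → ℝ[X]
  | 0 => 1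
  | m + 1 => (X - C (M m m)) * hess M m - ∑ c : Fin m, C (M m c) * hess M c

/-- Every displacement on the boundary of the box is detected by a set of the certificate. -/
def Detect (Data : List (List ℕ)) : Prop :=
  ∀ σ, Box σ → ∀ j0 ∈ Finset.Icc 1 83, |σ j0| = bd j0 → ∃ t ∈ Data,
    (0 < eta t.toFinset false ∧
      eta t.toFinset false + L t.toFinset false σ < -epsP (sg t.toFinset false 1)) ∨
    (eta t.toFinset false < 0 ∧
      2 / 10 ^ 9 < eta t.toFinset false + L t.toFinset false σ)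

end Pool.Agent.N14.TwoN
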