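import Mathlib
import Pool.Agent.N14.TwoN.Defs


set_option autoImplicit false

namespace Pool.Agent.N14.TwoN.A1a

open Polynomial
open Pool.Agent.N14.TwoN

theorem hess_succ (M : ℕ → ℕ → ℝ) (m : ℕ) :
    hess M (m + 1) = (X - C (M m m)) * hess M m -
      ∑ c ∈ Finset.range m, C (M m c) * hess M c := by
  rw [hess, Fin.sum_univ_eq_sum_range (fun c => C (M m c) * hess M c) m]

theorem hess_row (n : ℕ) (M : ℕ → ℕ → ℝ) (h1 : ∀ i, M i (i + 1) = 1)
    (h2 : ∀ i j, i + 1 < j → M i j = 0) (i : ℕ) (hi : i ≤ n) :
    X * hess M i - ∑ j ∈ Finset.range (n + 1), C (M i j) * hess M j =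
      if i = n then hess M (n + 1) else 0 := by
  split_ifs with h
  · subst h
    rw [hess_succ, Finset.sum_range_succ]
    ring
  · have h3 : ∑ j ∈ Finset.range (n + 1), C (M i j) * hess M j =
        ∑ j ∈ Finset.range (i + 2), C (M i j) * hess M j := by
      symm
      refine Finset.sum_subset (Finset.range_subset_range.mpr (by omega)) ?_
      intro j _ hj
      rw [Finset.mem_range, not_lt] at hj
      rw [h2 i j (by omega), C_0, zero_mul]
    rw [h3, Finset.sum_range_succ, Finset.sum_range_succ, h1, hess_succ, C_1]
    ring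

theorem hess_charpoly (n : ℕ) (M : ℕ → ℕ → ℝ) (h1 : ∀ i, M i (i + 1) = 1)
    (h2 : ∀ i j, i + 1 < j → M i j = 0) :
    (Matrix.of (fun i j : Fin (n + 1) => M i j)).charpoly = hess M (n + 1) := by
  set A : Matrix (Fin (n + 1)) (Fin (n + 1)) ℝ := Matrix.of (fun i j : Fin (n + 1) => M i j) with hA
  set B := A.charmatrix with hB
  let u : Fin (n + 1) → ℝ[X] := fun j => hess M j
  have hBu : B.mulVec u = Pi.single (Fin.last n) (hess M (n + 1)) := by
    funext i
    have e1 : B.mulVec u i = X * hess M i - ∑ j ∈ Finset.range (n + 1), C (M i j) * hess M j := by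
      rw [← Fin.sum_univ_eq_sum_range (fun j => C (M i j) * hess M j) (n + 1)]
      simp only [Matrix.mulVec, dotProduct, hB, Matrix.charmatrix_apply, sub_mul,
        Finset.sum_sub_distrib]
      congr 1
      rw [Finset.sum_eq_single i]
      · simp [u]
      · intro j _ hj
        simp [Matrix.diagonal_apply_ne _ (Ne.symm hj)]
      · intro h
        exact absurd (Finset.mem_univ _) h
    rw [e1, hess_row n M h1 h2 i (by omega)]
    by_cases hi : i = Fin.last n
    · subst hi
      simp
    · have hi' : (i : ℕ) ≠ n := fun h => hi (Fin.ext h)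
      rw [if_neg hi', Pi.single_eq_of_ne hi]
  have hadj : B.adjugate 0 (Fin.last n) = 1 := by
    rw [Matrix.adjugate_fin_succ_eq_det_submatrix]
    have hlow : (B.submatrix (Fin.last n).succAbove (0 : Fin (n + 1)).succAbove).BlockTriangular
        OrderDual.toDual := by
      intro i j hij
      have hij' : i < j := hij
      have hij'' : (i : ℕ) < j := hij'
      have hne : i.castSucc ≠ j.succ := by
        intro h
        have := congrArg Fin.val h
        simp at this
        omega
      rw [Matrix.submatrix_apply, Fin.succAbove_last, Fin.succAbove_zero, hB,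
        Matrix.charmatrix_apply_ne _ _ _ hne]
      have : A i.castSucc j.succ = 0 := h2 _ _ (by simp; omega)
      rw [this]
      simp
    rw [Matrix.det_of_isLowerTriangular _ hlow]
    have hdiag : ∀ i : Fin n, (B.submatrix (Fin.last n).succAbove (0 : Fin (n + 1)).succAbove) i i
        = -1 := by
      intro i
      have hne : i.castSucc ≠ i.succ := by
        intro h
        have := congrArg Fin.val h
        simp at this
      rw [Matrix.submatrix_apply, Fin.succAbove_last, Fin.succAbove_zero, hB,
        Matrix.charmatrix_apply_ne _ _ _ hne]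
      have : A i.castSucc i.succ = 1 := h1 _
      rw [this]
      simp
    rw [Finset.prod_congr rfl (fun i _ => hdiag i), Finset.prod_const, Finset.card_univ,
      Fintype.card_fin]
    simp [← mul_pow]
  have hkey : B.adjugate.mulVec (B.mulVec u) = B.det • u := by
    rw [Matrix.mulVec_mulVec, Matrix.adjugate_mul, Matrix.smul_mulVec, Matrix.one_mulVec]
  have h0 := congrFun hkey 0
  rw [hBu] at h0
  have e2 : B.adjugate.mulVec (Pi.single (Fin.last n) (hess M (n + 1))) 0 = hess M (n + 1) := by
    simp only [Matrix.mulVec, dotProduct]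
    rw [Finset.sum_eq_single (Fin.last n)]
    · rw [hadj, Pi.single_eq_same, one_mul]
    · intro j _ hj
      rw [Pi.single_eq_of_ne hj, mul_zero]
    · intro h
      exact absurd (Finset.mem_univ _) h
  rw [e2] at h0
  have e3 : (B.det • u) 0 = B.det := by
    simp [u, hess]
  rw [e3] at h0
  rw [Matrix.charpoly, ← hB, ← h0]

end Pool.Agent.N14.TwoN.A1a
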