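import Mathlib

set_option autoImplicit false

/-! The sign pattern of order 83. -/

namespace Pool.Agent.N14.TwoN

/-- The signs of the entries: a vertex `43` with two petals
`0 → 1 → ⋯ → 42 → 43` and `43 → 44 → ⋯ → 82 → 43`. -/
def pat (i j : ℕ) : SignType :=
  if j = i + 1 then 1
  else if i = 0 ∧ j = 0 then 1
  else if i = 42 ∧ j ≤ 41 ∧ j ≠ 39 then -1
  else if i = 43 ∧ j = 0 then -1
  else if i = 44 ∧ j = 44 then -1
  else if i = 82 ∧ 44 ≤ j ∧ j ≤ 81 then (if (83 - j) % 2 = 0 then -1 else 1)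
  else if i = 82 ∧ j = 43 then -1
  else 0

/-- The sign pattern of order `83`. -/
def S : Matrix (Fin 83) (Fin 83) SignType := Matrix.of (fun i j => pat i.val j.val)

end Pool.Agent.N14.TwoN
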