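import Mathlib
import Pool.Agent.N14.TwoN.Pat

set_option autoImplicit false

namespace Pool.Agent.N14.TwoN.A2

open Pool.Agent.N14.TwoN

/-- The support of the pattern, as a Boolean function. -/
def patB (i j : ℕ) : Bool :=
  (j == i + 1) || (i == 0 && j == 0) || (i == 42 && decide (j ≤ 41) && !(j == 39)) ||
    (i == 43 && j == 0) || (i == 44 && j == 44) ||
    (i == 82 && decide (44 ≤ j) && decide (j ≤ 81)) || (i == 82 && j == 43)

theorem sneg : (-1 : SignType) ≠ 0 := by decide

theorem pat_ne_zero (i j : ℕ) : pat i j ≠ 0 ↔ patB i j = true := by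
  unfold pat patB
  split_ifs with h1 h2 h3 h4 h5 h6 h7 h8 <;>
    simp only [Bool.or_eq_true, Bool.and_eq_true, beq_iff_eq, decide_eq_true_eq,
      Bool.not_eq_true', beq_eq_false_iff_ne, ne_eq, one_ne_zero, not_false_eq_true, true_iff,
      not_true_eq_false, false_iff, sneg] <;> omega

theorem supp_card : (Finset.univ.filter
    (fun q : Fin 83 × Fin 83 => patB q.1.val q.2.val = true)).card = 165 := by
  have h0 : ∀ f : ℕ → ℕ, ∑ i ∈ Finset.range 83, f i = ((List.range 83).map f).sum :=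
    fun _ => rfl
  rw [Finset.card_filter, Fintype.sum_prod_type]
  have h1 : ∀ i : Fin 83, (∑ j : Fin 83, if patB i.val j.val = true then 1 else 0) =
      ((List.range 83).map (fun j => if patB i j then 1 else 0)).sum := by
    intro i
    rw [Fin.sum_univ_eq_sum_range (fun j => if patB i.val j = true then 1 else 0) 83]
    rfl
  simp only [h1]
  rw [Fin.sum_univ_eq_sum_range (fun i => ((List.range 83).map
    (fun j => if patB i j then 1 else 0)).sum) 83, h0]
  decide +kernel

theorem S_ncard : Set.ncard {p : Fin 83 × Fin 83 | S p.1 p.2 ≠ 0} = 165 := by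
  have h : {p : Fin 83 × Fin 83 | S p.1 p.2 ≠ 0} = ((Finset.univ.filter
      (fun q : Fin 83 × Fin 83 => patB q.1.val q.2.val = true) :
        Finset (Fin 83 × Fin 83)) : Set (Fin 83 × Fin 83)) := by
    ext q
    simp only [Set.mem_ofPred_eq, Finset.coe_filter, Finset.mem_univ, true_and]
    exact pat_ne_zero _ _
  rw [h, Set.ncard_coe_finset, supp_card]

theorem S_step (i : ℕ) (h : i + 1 < 83) :
    Relation.ReflTransGen (fun a b : Fin 83 => S a b ≠ 0) ⟨i, by omega⟩ ⟨i + 1, h⟩ := by
  refine Relation.ReflTransGen.single ?_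
  show pat i (i + 1) ≠ 0
  rw [pat_ne_zero]
  simp [patB]

theorem S_up (i : ℕ) (k : ℕ) (h : i + k < 83) :
    Relation.ReflTransGen (fun a b : Fin 83 => S a b ≠ 0) ⟨i, by omega⟩ ⟨i + k, h⟩ := by
  induction k with
  | zero => exact Relation.ReflTransGen.refl
  | succ k ih => exact (ih (by omega)).trans (S_step (i + k) h)

theorem S_up' (i j : ℕ) (hij : i ≤ j) (h : j < 83) :
    Relation.ReflTransGen (fun a b : Fin 83 => S a b ≠ 0) ⟨i, by omega⟩ ⟨j, h⟩ := by
  obtain ⟨k, rfl⟩ := Nat.exists_eq_add_of_le hij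
  exact S_up i k h

theorem S_wrap : Relation.ReflTransGen (fun a b : Fin 83 => S a b ≠ 0)
    ⟨82, by omega⟩ ⟨0, by omega⟩ := by
  refine Relation.ReflTransGen.trans (b := ⟨43, by omega⟩) (Relation.ReflTransGen.single ?_)
    (Relation.ReflTransGen.single ?_)
  · show pat 82 43 ≠ 0
    rw [pat_ne_zero]; simp [patB]
  · show pat 43 0 ≠ 0
    rw [pat_ne_zero]; simp [patB]

theorem S_conn (i j : Fin 83) : Relation.ReflTransGen (fun a b : Fin 83 => S a b ≠ 0) i j := by
  obtain ⟨i, hi⟩ := i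
  obtain ⟨j, hj⟩ := j
  exact ((S_up' i 82 (by omega) (by omega)).trans S_wrap).trans (S_up' 0 j (by omega) hj)

theorem comp_ncard : Set.ncard (Set.range (fun i : Fin 83 =>
    {j : Fin 83 | Relation.ReflTransGen (fun a b : Fin 83 => S a b ≠ 0) i j ∧
      Relation.ReflTransGen (fun a b : Fin 83 => S a b ≠ 0) j i})) = 1 := by
  rw [Set.ncard_eq_one]
  refine ⟨Set.univ, ?_⟩
  ext s
  simp only [Set.mem_range, Set.mem_singleton_iff]
  constructor
  · rintro ⟨i, rfl⟩
    ext j
    simp only [Set.mem_ofPred_eq, Set.mem_univ, iff_true]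
    exact ⟨S_conn i j, S_conn j i⟩
  · rintro rfl
    refine ⟨0, ?_⟩
    ext j
    simp only [Set.mem_ofPred_eq, Set.mem_univ, iff_true]
    exact ⟨S_conn 0 j, S_conn j 0⟩

end Pool.Agent.N14.TwoN.A2
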