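import Mathlib
import Pool.Agent.N14.TwoN.Defs

set_option autoImplicit false
/-! Irreducible 2n conjecture for sign patterns: counterexample of order 83. -/

namespace Pool.Agent.N14.TwoN.B1

open Polynomial
open Pool.Agent.N14.TwoN

theorem rE_pow (ω z : ℂ) (hω : ‖ω‖ = 1) (hz : ‖z - ω‖ ≤ 1 / 5000) (n : ℕ) :
    ‖z ^ n - ω ^ n‖ ≤ (1 + 1 / 5000 : ℝ) ^ n - 1 := by
  induction n with
  | zero => simp
  | succ n ih =>
    have hzn : ‖z‖ ≤ 1 + 1 / 5000 := by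
      have := norm_add_le (z - ω) ω
      rw [sub_add_cancel] at this
      linarith
    have e : z ^ (n + 1) - ω ^ (n + 1) = (z ^ n - ω ^ n) * z + ω ^ n * (z - ω) := by ring
    rw [e]
    refine (norm_add_le _ _).trans ?_
    rw [norm_mul, norm_mul, norm_pow, hω, one_pow, one_mul]
    have h1 := mul_le_mul ih hzn (norm_nonneg z) ((norm_nonneg _).trans ih)
    have h2 : (1 + 1 / 5000 : ℝ) ^ (n + 1) - 1 =
        ((1 + 1 / 5000 : ℝ) ^ n - 1) * (1 + 1 / 5000) + 1 / 5000 := by ring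
    rw [h2]
    linarith

theorem rE_norm (ω z : ℂ) (hω : ‖ω‖ = 1) (hz : ‖z - ω‖ ≤ 1 / 5000) : ‖z‖ ≤ 1 + 1 / 5000 := by
  have := norm_add_le (z - ω) ω
  rw [sub_add_cancel] at this
  linarith

theorem rE_mul (ω z z' : ℂ) (hω : ‖ω‖ = 1) (hz : ‖z - ω‖ ≤ 1 / 5000) (hz' : ‖z' - ω‖ ≤ 1 / 5000)
    (i k : ℕ) : ‖z ^ i * z' ^ k - ω ^ (i + k)‖ ≤ (1 + 1 / 5000 : ℝ) ^ (i + k) - 1 := by
  have hzn := rE_norm ω z' hω hz'
  have e : z ^ i * z' ^ k - ω ^ (i + k) = (z ^ i - ω ^ i) * z' ^ k + ω ^ i * (z' ^ k - ω ^ k) := by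
    ring
  rw [e]
  refine (norm_add_le _ _).trans ?_
  rw [norm_mul, norm_mul, norm_pow, norm_pow, hω, one_pow, one_mul]
  have h1 := rE_pow ω z hω hz i
  have h2 := rE_pow ω z' hω hz' k
  have h3 : ‖z'‖ ^ k ≤ (1 + 1 / 5000 : ℝ) ^ k := pow_le_pow_left₀ (norm_nonneg _) hzn k
  have h4 := mul_le_mul h1 h3 (by positivity) ((norm_nonneg _).trans h1)
  have h5 : (1 + 1 / 5000 : ℝ) ^ (i + k) - 1 =
      ((1 + 1 / 5000 : ℝ) ^ i - 1) * (1 + 1 / 5000) ^ k + ((1 + 1 / 5000 : ℝ) ^ k - 1) := by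
    rw [pow_add]; ring
  rw [h5]
  linarith

theorem rE_bd : ∑ j ∈ Finset.Icc 1 83, bdR j = 23126 / 10000000 := by
  unfold bdR
  rw [← Finset.sum_div, ← Nat.cast_sum]
  have : ∑ j ∈ Finset.Icc 1 83, (bdN j + 2) = 23126 := by decide +kernel
  rw [this]
  norm_num

theorem rE_rho (ρ : ℕ → ℝ) (hρ : BoxR ρ) : ∑ j ∈ Finset.Icc 1 83, |ρ j| ≤ 23126 / 10000000 := by
  rw [← rE_bd]
  exact Finset.sum_le_sum hρ

theorem rE_r_diff (ρ : ℕ → ℝ) (hρ : BoxR ρ) (ω z z' : ℂ) (hω : ‖ω‖ = 1) (hz : ‖z - ω‖ ≤ 1 / 5000)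
    (hz' : ‖z' - ω‖ ≤ 1 / 5000) : ‖r ρ z - r ρ z'‖ ≤ 197 / 1000 * ‖z - z'‖ := by
  unfold r
  rw [← Finset.sum_sub_distrib]
  have hzn := rE_norm ω z hω hz
  have hzn' := rE_norm ω z' hω hz'
  have h1 : ∀ j ∈ Finset.Icc 1 83, ‖(ρ j : ℂ) * z ^ (84 - j) - (ρ j : ℂ) * z' ^ (84 - j)‖ ≤
      |ρ j| * (85 * ‖z - z'‖) := by
    intro j hj
    rw [Finset.mem_Icc] at hj
    rw [← mul_sub, norm_mul, Complex.norm_real, Real.norm_eq_abs]
    apply mul_le_mul_of_nonneg_left _ (abs_nonneg _)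
    have h2 := (Commute.all z z').geom_sum₂_mul (84 - j)
    rw [← h2, norm_mul]
    apply mul_le_mul_of_nonneg_right _ (norm_nonneg _)
    refine (norm_sum_le _ _).trans ?_
    have h3 : ∀ i ∈ Finset.range (84 - j), ‖z ^ i * z' ^ (84 - j - 1 - i)‖ ≤
        (1 + 1 / 5000 : ℝ) ^ (82 : ℕ) := by
      intro i hi
      rw [Finset.mem_range] at hi
      rw [norm_mul, norm_pow, norm_pow]
      have e1 : ‖z‖ ^ i ≤ (1 + 1 / 5000 : ℝ) ^ i := pow_le_pow_left₀ (norm_nonneg _) hzn i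
      have e2 : ‖z'‖ ^ (84 - j - 1 - i) ≤ (1 + 1 / 5000 : ℝ) ^ (84 - j - 1 - i) :=
        pow_le_pow_left₀ (norm_nonneg _) hzn' _
      refine (mul_le_mul e1 e2 (by positivity) (by positivity)).trans ?_
      rw [← pow_add]
      apply pow_le_pow_right₀ (by norm_num)
      omega
    refine (Finset.sum_le_sum h3).trans ?_
    rw [Finset.sum_const, Finset.card_range, nsmul_eq_mul]
    have h4 : ((84 - j : ℕ) : ℝ) ≤ 83 := by
      have : 84 - j ≤ 83 := by omega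
      exact_mod_cast this
    have h5 : (1 + 1 / 5000 : ℝ) ^ (82 : ℕ) ≤ 85 / 83 := by norm_num
    calc ((84 - j : ℕ) : ℝ) * (1 + 1 / 5000 : ℝ) ^ (82 : ℕ) ≤ 83 * (85 / 83) :=
          mul_le_mul h4 h5 (by positivity) (by norm_num)
      _ = 85 := by norm_num
  refine (norm_sum_le _ _).trans ((Finset.sum_le_sum h1).trans ?_)
  rw [← Finset.sum_mul]
  have h6 := rE_rho ρ hρ
  have h7 := mul_le_mul_of_nonneg_right h6 (by positivity : 0 ≤ 85 * ‖z - z'‖)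
  have h8 := norm_nonneg (z - z')
  linarith

theorem rE_r_norm (ρ : ℕ → ℝ) (hρ : BoxR ρ) (ω : ℂ) (hω : ‖ω‖ = 1) : ‖r ρ ω‖ ≤ 23126 / 10000000 := by
  unfold r
  refine (norm_sum_le _ _).trans (le_trans (le_of_eq ?_) (rE_rho ρ hρ))
  apply Finset.sum_congr rfl
  intro j _
  rw [norm_mul, norm_pow, hω, one_pow, mul_one, Complex.norm_real, Real.norm_eq_abs]

/-- the Newton map -/
noncomputable def rE_T (e : ℕ) (ρ : ℕ → ℝ) (ω z : ℂ) : ℂ :=
  z - (z ^ 84 + r ρ z - (-1) ^ e) / (84 * ω ^ 83)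

theorem rE_T_lip (e : ℕ) (ρ : ℕ → ℝ) (hρ : BoxR ρ) (ω z z' : ℂ) (hω : ‖ω‖ = 1)
    (hz : ‖z - ω‖ ≤ 1 / 5000) (hz' : ‖z' - ω‖ ≤ 1 / 5000) :
    ‖rE_T e ρ ω z - rE_T e ρ ω z'‖ ≤ 1 / 50 * ‖z - z'‖ := by
  have hω0 : ω ≠ 0 := by rintro rfl; simp at hω
  have hden : (84 * ω ^ 83 : ℂ) ≠ 0 := mul_ne_zero (by norm_num) (pow_ne_zero _ hω0)
  have hG := (Commute.all z z').geom_sum₂_mul 84
  set G := ∑ i ∈ Finset.range 84, z ^ i * z' ^ (84 - 1 - i) with hGdef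
  have e1 : rE_T e ρ ω z - rE_T e ρ ω z' =
      ((84 * ω ^ 83 - G) * (z - z') - (r ρ z - r ρ z')) / (84 * ω ^ 83) := by
    unfold rE_T
    have : (84 * ω ^ 83 - G) * (z - z') = 84 * ω ^ 83 * (z - z') - (z ^ 84 - z' ^ 84) := by
      rw [← hG]; ring
    rw [this]
    field_simp
    ring
  have hGn : ‖84 * ω ^ 83 - G‖ ≤ 84 * (17 / 1000) := by
    have e2 : 84 * ω ^ 83 - G = ∑ i ∈ Finset.range 84, (ω ^ 83 - z ^ i * z' ^ (84 - 1 - i)) := by
      rw [Finset.sum_sub_distrib, Finset.sum_const, Finset.card_range, nsmul_eq_mul]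
      push_cast
      rfl
    rw [e2]
    refine (norm_sum_le _ _).trans ?_
    have h3 : ∀ i ∈ Finset.range 84, ‖ω ^ 83 - z ^ i * z' ^ (84 - 1 - i)‖ ≤ 17 / 1000 := by
      intro i hi
      rw [Finset.mem_range] at hi
      have h4 := rE_mul ω z z' hω hz hz' i (84 - 1 - i)
      have h5 : i + (84 - 1 - i) = 83 := by omega
      rw [h5, norm_sub_rev] at h4
      refine h4.trans ?_
      norm_num
    refine (Finset.sum_le_sum h3).trans ?_
    rw [Finset.sum_const, Finset.card_range, nsmul_eq_mul]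
    norm_num
  rw [e1, norm_div, norm_mul, norm_pow, hω, one_pow, mul_one]
  have h70 : ‖(84 : ℂ)‖ = 84 := by simp
  rw [h70, div_le_iff₀ (by norm_num)]
  refine (norm_sub_le _ _).trans ?_
  rw [norm_mul]
  have h6 := mul_le_mul_of_nonneg_right hGn (norm_nonneg (z - z'))
  have h7 := rE_r_diff ρ hρ ω z z' hω hz hz'
  have h8 := norm_nonneg (z - z')
  linarith

theorem root_existsUnique (e : ℕ) (he : e < 2) (ρ : ℕ → ℝ) (hρ : BoxR ρ) (ω : ℂ)
    (hω : ω ^ 84 = (-1) ^ e) : ∃! z : ℂ, IsRoot' e ρ ω z := by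
  have hωn : ‖ω‖ = 1 := by
    have h1 : ‖ω‖ ^ 84 = 1 := by
      rw [← norm_pow, hω, norm_pow, norm_neg, norm_one, one_pow]
    exact (pow_eq_one_iff_of_nonneg (norm_nonneg _) (by norm_num)).1 h1
  have hω0 : ω ≠ 0 := by rintro rfl; simp at hωn
  have hden : (84 * ω ^ 83 : ℂ) ≠ 0 := mul_ne_zero (by norm_num) (pow_ne_zero _ hω0)
  have hfix : ∀ z, rE_T e ρ ω z = z ↔ z ^ 84 + r ρ z = (-1) ^ e := by
    intro z
    unfold rE_T
    rw [sub_eq_self, div_eq_zero_iff]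
    constructor
    · rintro (h | h)
      · exact sub_eq_zero.1 h
      · exact absurd h hden
    · intro h
      exact Or.inl (sub_eq_zero.2 h)
  have hω' : ‖ω - ω‖ ≤ 1 / 5000 := by simp
  have hTω : ‖rE_T e ρ ω ω - ω‖ ≤ 1 / 36000 := by
    unfold rE_T
    have h1 : ω - (ω ^ 84 + r ρ ω - (-1) ^ e) / (84 * ω ^ 83) - ω = -(r ρ ω / (84 * ω ^ 83)) := by
      rw [hω]; ring
    rw [h1, norm_neg, norm_div, norm_mul, norm_pow, hωn, one_pow, mul_one]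
    have h70 : ‖(84 : ℂ)‖ = 84 := by simp
    rw [h70, div_le_iff₀ (by norm_num)]
    have := rE_r_norm ρ hρ ω hωn
    linarith
  have hmaps : Set.MapsTo (rE_T e ρ ω) (Metric.closedBall ω (1 / 5000)) (Metric.closedBall ω (1 / 5000)) := by
    intro z hz
    rw [Metric.mem_closedBall, dist_eq_norm] at hz ⊢
    have h1 := rE_T_lip e ρ hρ ω z ω hωn hz hω'
    have h2 : rE_T e ρ ω z - ω = (rE_T e ρ ω z - rE_T e ρ ω ω) + (rE_T e ρ ω ω - ω) := by ring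
    rw [h2]
    refine (norm_add_le _ _).trans ?_
    linarith
  have hcon : ContractingWith (1 / 50 : NNReal) (hmaps.restrict (rE_T e ρ ω) _ _) := by
    refine ⟨?_, ?_⟩
    · rw [← NNReal.coe_lt_coe]; norm_num
    · apply LipschitzWith.of_dist_le_mul
      rintro ⟨x, hx⟩ ⟨y, hy⟩
      rw [Metric.mem_closedBall, dist_eq_norm] at hx hy
      have := rE_T_lip e ρ hρ ω x y hωn hx hy
      rw [Subtype.dist_eq, Subtype.dist_eq, dist_eq_norm, dist_eq_norm]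
      simpa using this
  obtain ⟨z, hz, hzf, -⟩ := hcon.exists_fixedPoint' (Metric.isClosed_closedBall.isComplete) hmaps
    (Metric.mem_closedBall_self (by norm_num)) (edist_ne_top _ _)
  refine ⟨z, ⟨?_, (hfix z).1 hzf⟩, ?_⟩
  · rwa [Metric.mem_closedBall, dist_eq_norm] at hz
  · rintro z' ⟨h1, h2⟩
    rw [Metric.mem_closedBall, dist_eq_norm] at hz
    have h3 := rE_T_lip e ρ hρ ω z' z hωn h1 hz
    have h4 : rE_T e ρ ω z = z := hzf
    rw [(hfix z').2 h2, h4] at h3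
    have h5 : ‖z' - z‖ = 0 := by
      have := norm_nonneg (z' - z)
      linarith
    exact sub_eq_zero.1 (norm_eq_zero.1 h5)

end Pool.Agent.N14.TwoN.B1
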