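import Mathlib
import Pool.Agent.N14.TwoN.Defs

set_option autoImplicit false
/-! Irreducible 2n conjecture for sign patterns: counterexample of order 83. -/

namespace Pool.Agent.N14.TwoN.B1b

open Polynomial
open Pool.Agent.N14.TwoN

theorem re_taylor (ω z : ℂ) (hω : ‖ω‖ = 1) (n : ℕ) :
    ‖z ^ n - ω ^ n - n * ω ^ (n - 1) * (z - ω)‖ ≤
      ((n : ℝ) * ((n : ℝ) - 1) / 2) * (1 + ‖z - ω‖) ^ n * ‖z - ω‖ ^ 2 := by
  induction n with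
  | zero => simp
  | succ n ih =>
    have hx : 0 ≤ ‖z - ω‖ := norm_nonneg _
    have hz : ‖z‖ ≤ 1 + ‖z - ω‖ := by
      have : ‖z‖ ≤ ‖ω‖ + ‖z - ω‖ := by
        have := norm_add_le ω (z - ω)
        rwa [add_sub_cancel] at this
      rwa [hω] at this
    have e1 : z ^ (n + 1) - ω ^ (n + 1) - ((n + 1 : ℕ) : ℂ) * ω ^ (n + 1 - 1) * (z - ω) =
        z * (z ^ n - ω ^ n - n * ω ^ (n - 1) * (z - ω)) + n * ω ^ (n - 1) * (z - ω) ^ 2 := by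
      cases n with
      | zero => simp
      | succ k =>
        simp only [Nat.add_sub_cancel]
        push_cast
        ring
    rw [e1]
    have h1 : ‖z * (z ^ n - ω ^ n - n * ω ^ (n - 1) * (z - ω))‖ ≤
        (1 + ‖z - ω‖) * (((n : ℝ) * ((n : ℝ) - 1) / 2) * (1 + ‖z - ω‖) ^ n * ‖z - ω‖ ^ 2) := by
      rw [norm_mul]
      exact mul_le_mul hz ih (norm_nonneg _) (by positivity)
    have h2 : ‖(n : ℂ) * ω ^ (n - 1) * (z - ω) ^ 2‖ = (n : ℝ) * ‖z - ω‖ ^ 2 := by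
      rw [norm_mul, norm_mul, norm_pow, norm_pow, hω, one_pow, mul_one, Complex.norm_natCast]
    have h3 : (1 : ℝ) ≤ (1 + ‖z - ω‖) ^ (n + 1) := one_le_pow₀ (by linarith)
    have h4 : (n : ℝ) * ‖z - ω‖ ^ 2 ≤ (n : ℝ) * ‖z - ω‖ ^ 2 * (1 + ‖z - ω‖) ^ (n + 1) :=
      le_mul_of_one_le_right (by positivity) h3
    refine (norm_add_le _ _).trans ?_
    rw [h2]
    refine (add_le_add h1 h4).trans (le_of_eq ?_)
    push_cast
    ring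

theorem re_sum_bd : ∑ j ∈ Finset.Icc 1 83, bdR j = 23126 / 10000000 := by
  unfold bdR
  rw [← Finset.sum_div, ← Nat.cast_sum]
  have : ∑ j ∈ Finset.Icc 1 83, (bdN j + 2) = 23126 := by decide +kernel
  rw [this]
  norm_num

theorem re_bd_nonneg (j : ℕ) : 0 ≤ bdR j := by
  unfold bdR
  positivity

theorem re_pow (x : ℝ) (h0 : 0 ≤ x) (hx : x ≤ 1 / 5000) (n : ℕ) (hn : n ≤ 84) :
    (1 + x) ^ n ≤ 10170 / 10000 := by
  calc (1 + x) ^ n ≤ (1 + x) ^ 84 := pow_le_pow_right₀ (by linarith) hn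
    _ ≤ (1 + 1 / 5000) ^ 84 := pow_le_pow_left₀ (by linarith) (by linarith) 84
    _ ≤ 10170 / 10000 := by norm_num

theorem re_E2 (ρ : ℕ → ℝ) (hρ : BoxR ρ) (ω z : ℂ) (hω : ‖ω‖ = 1) (hz : ‖z - ω‖ ≤ 1 / 5000) :
    ‖r ρ z - r ρ ω - r' ρ ω * (z - ω)‖ ≤ 9 * ‖z - ω‖ ^ 2 := by
  have e : r ρ z - r ρ ω - r' ρ ω * (z - ω) = ∑ j ∈ Finset.Icc 1 83, (ρ j : ℂ) *
      (z ^ (84 - j) - ω ^ (84 - j) - ((84 - j : ℕ) : ℂ) * ω ^ (84 - j - 1) * (z - ω)) := by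
    unfold r r'
    rw [← Finset.sum_sub_distrib, Finset.sum_mul, ← Finset.sum_sub_distrib]
    refine Finset.sum_congr rfl fun j _ => ?_
    have : 84 - j - 1 = 83 - j := by omega
    rw [this]
    ring
  rw [e]
  have hx := norm_nonneg (z - ω)
  calc ‖∑ j ∈ Finset.Icc 1 83, (ρ j : ℂ) *
      (z ^ (84 - j) - ω ^ (84 - j) - ((84 - j : ℕ) : ℂ) * ω ^ (84 - j - 1) * (z - ω))‖
      ≤ ∑ j ∈ Finset.Icc 1 83, bdR j * (3403 * (10170 / 10000) * ‖z - ω‖ ^ 2) := by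
        refine (norm_sum_le _ _).trans (Finset.sum_le_sum fun j hj => ?_)
        rw [norm_mul, Complex.norm_real, Real.norm_eq_abs]
        refine mul_le_mul (hρ j hj) ?_ (norm_nonneg _) ?_
        · refine (re_taylor ω z hω (84 - j)).trans ?_
          obtain ⟨h1, h2⟩ := Finset.mem_Icc.1 hj
          have h3 : ((84 - j : ℕ) : ℝ) ≤ 83 := by
            have : 84 - j ≤ 83 := by omega
            exact_mod_cast this
          have h4 : (1 : ℝ) ≤ ((84 - j : ℕ) : ℝ) := by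
            have : 1 ≤ 84 - j := by omega
            exact_mod_cast this
          have h5 : ((84 - j : ℕ) : ℝ) * (((84 - j : ℕ) : ℝ) - 1) / 2 ≤ 3403 := by nlinarith
          have h6 := re_pow _ hx hz (84 - j) (by omega)
          refine mul_le_mul_of_nonneg_right ?_ (by positivity)
          exact mul_le_mul h5 h6 (by positivity) (by norm_num)
        · exact re_bd_nonneg j
    _ = 23126 / 10000000 * (3403 * (10170 / 10000) * ‖z - ω‖ ^ 2) := by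
        rw [← Finset.sum_mul, re_sum_bd]
    _ ≤ 9 * ‖z - ω‖ ^ 2 := by nlinarith [sq_nonneg ‖z - ω‖]

theorem re_r' (ρ : ℕ → ℝ) (hρ : BoxR ρ) (ω : ℂ) (hω : ‖ω‖ = 1) : ‖r' ρ ω‖ ≤ 2 / 10 := by
  unfold r'
  calc ‖∑ j ∈ Finset.Icc 1 83, (ρ j : ℂ) * ((84 - j : ℕ) : ℂ) * ω ^ (83 - j)‖
      ≤ ∑ j ∈ Finset.Icc 1 83, bdR j * 83 := by
        refine (norm_sum_le _ _).trans (Finset.sum_le_sum fun j hj => ?_)
        rw [norm_mul, norm_mul, norm_pow, hω, one_pow, mul_one, Complex.norm_real,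
          Real.norm_eq_abs, Complex.norm_natCast]
        have h3 : ((84 - j : ℕ) : ℝ) ≤ 83 := by
          obtain ⟨h1, h2⟩ := Finset.mem_Icc.1 hj
          have : 84 - j ≤ 83 := by omega
          exact_mod_cast this
        exact mul_le_mul (hρ j hj) h3 (Nat.cast_nonneg _) ((abs_nonneg _).trans (hρ j hj))
    _ = 23126 / 10000000 * 83 := by rw [← Finset.sum_mul, re_sum_bd]
    _ ≤ 2 / 10 := by norm_num

theorem root_est (e : ℕ) (he : e < 2) (ρ : ℕ → ℝ) (hρ : BoxR ρ) (ω z : ℂ)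
    (hω : ω ^ 84 = (-1) ^ e) (hz : IsRoot' e ρ ω z) :
    ‖z - ω‖ ≤ 51 / 50 * ‖xi1 e ρ ω‖ ∧
    ‖z - ω - xi1 e ρ ω‖ ≤ 1 / 84 * ‖r' ρ ω‖ * ‖z - ω‖ + 43 * ‖z - ω‖ ^ 2 := by
  obtain ⟨hz1, hz2⟩ := hz
  have hω1 : ‖ω‖ = 1 := by
    have h1 : ‖ω‖ ^ 84 = 1 := by
      rw [← norm_pow, hω, norm_pow, norm_neg, norm_one, one_pow]
    exact (pow_eq_one_iff_of_nonneg (norm_nonneg _) (by norm_num)).1 h1
  have hx := norm_nonneg (z - ω)
  have hE1 := re_taylor ω z hω1 84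
  have hE2 := re_E2 ρ hρ ω z hω1 hz1
  have hr' := re_r' ρ hρ ω hω1
  have hE1' : ‖z ^ 84 - ω ^ 84 - 84 * ω ^ 83 * (z - ω)‖ ≤ 3546 * ‖z - ω‖ ^ 2 := by
    have h1 := re_pow _ hx hz1 84 le_rfl
    have h2 : ((84 : ℕ) : ℝ) * (((84 : ℕ) : ℝ) - 1) / 2 * (1 + ‖z - ω‖) ^ 84 ≤ 3546 := by
      norm_num
      linarith
    have h3 := mul_le_mul_of_nonneg_right h2 (sq_nonneg ‖z - ω‖)
    have h4 := hE1.trans h3
    simpa using h4
  have hsq : ((-1 : ℂ) ^ e) * (-1) ^ e = 1 := by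
    rw [← mul_pow]; norm_num
  have key : 84 * ω ^ 83 * (z - ω - xi1 e ρ ω) =
      -(r' ρ ω * (z - ω) + (z ^ 84 - ω ^ 84 - 84 * ω ^ 83 * (z - ω)) +
        (r ρ z - r ρ ω - r' ρ ω * (z - ω))) := by
    have h1 : 84 * ω ^ 83 * xi1 e ρ ω = -(((-1 : ℂ) ^ e) * ω ^ 84 * r ρ ω) := by
      unfold xi1
      ring
    rw [mul_sub, h1, hω, hsq, one_mul]
    linear_combination hz2
  have hnorm : 84 * ‖z - ω - xi1 e ρ ω‖ ≤ ‖r' ρ ω‖ * ‖z - ω‖ + 3555 * ‖z - ω‖ ^ 2 := by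
    have h1 : ‖84 * ω ^ 83 * (z - ω - xi1 e ρ ω)‖ = 84 * ‖z - ω - xi1 e ρ ω‖ := by
      rw [norm_mul, norm_mul, norm_pow, hω1]
      norm_num
    rw [← h1, key, norm_neg]
    refine (norm_add_le _ _).trans ?_
    refine (add_le_add (norm_add_le _ _) le_rfl).trans ?_
    rw [norm_mul]
    linarith
  have h2nd : ‖z - ω - xi1 e ρ ω‖ ≤ 1 / 84 * ‖r' ρ ω‖ * ‖z - ω‖ + 43 * ‖z - ω‖ ^ 2 := by
    nlinarith [sq_nonneg ‖z - ω‖]
  refine ⟨?_, h2nd⟩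
  have h3 : ‖z - ω‖ ≤ ‖xi1 e ρ ω‖ + ‖z - ω - xi1 e ρ ω‖ := by
    have := norm_add_le (xi1 e ρ ω) (z - ω - xi1 e ρ ω)
    rwa [add_sub_cancel] at this
  have h4 : ‖r' ρ ω‖ * ‖z - ω‖ ≤ 2 / 10 * ‖z - ω‖ := mul_le_mul_of_nonneg_right hr' hx
  have h5 : ‖z - ω‖ ^ 2 ≤ 1 / 5000 * ‖z - ω‖ := by
    rw [sq]
    exact mul_le_mul_of_nonneg_right hz1 hx
  nlinarith [norm_nonneg (xi1 e ρ ω)]

end Pool.Agent.N14.TwoN.B1b
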