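import Mathlib
import Pool.Agent.N14.TwoN.Defs

set_option autoImplicit false
/-! Irreducible 2n conjecture for sign patterns: counterexample of order 83. -/

namespace Pool.Agent.N14.TwoN.B2

open Polynomial
open Pool.Agent.N14.TwoN

/-- the basic root of unity -/
noncomputable def z10310 : ℂ := Complex.exp (2 * Real.pi * Complex.I / (168 : ℕ))

theorem prim10310 : IsPrimitiveRoot z10310 168 := Complex.isPrimitiveRoot_exp 168 (by norm_num)

theorem w_eq10310 (a : ℕ) : w a = z10310 ^ a := by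
  unfold w z10310
  rw [← Complex.exp_nat_mul]
  congr 1
  push_cast
  ring

theorem conj_w10310 (a n : ℕ) : (starRingEnd ℂ) ((w a) ^ n) = ((w a) ^ n)⁻¹ := by
  rw [Complex.inv_eq_conj]
  rw [norm_pow]
  unfold w
  rw [Complex.norm_exp_ofReal_mul_I, one_pow]

theorem PAR_eq10310 (e : ℕ) (he : e < 2) :
    PAR e = (Finset.range 84).image (fun b => 2 * b + e) := by
  unfold PAR
  ext a
  simp only [Finset.mem_filter, Finset.mem_range, Finset.mem_image]
  constructor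
  · rintro ⟨h1, h2⟩
    exact ⟨a / 2, by omega, by omega⟩
  · rintro ⟨b, h1, h2⟩
    omega

theorem orth10310 (e : ℕ) (he : e < 2) (j k : ℕ) (hj : j ∈ Finset.Icc 1 83)
    (hk : k ∈ Finset.Icc 1 83) :
    ∑ a ∈ PAR e, (w a) ^ (84 - j) * (starRingEnd ℂ) ((w a) ^ (84 - k)) =
      if j = k then 84 else 0 := by
  rw [Finset.mem_Icc] at hj hk
  have hz : z10310 ≠ 0 := Complex.exp_ne_zero _
  have hterm : ∀ b : ℕ, (w (2 * b + e)) ^ (84 - j) *
      (starRingEnd ℂ) ((w (2 * b + e)) ^ (84 - k)) =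
      z10310 ^ ((e : ℤ) * ((k : ℤ) - j)) * (z10310 ^ (2 * ((k : ℤ) - j))) ^ b := by
    intro b
    rw [conj_w10310, w_eq10310]
    rw [← zpow_natCast, ← zpow_natCast, ← zpow_natCast, ← zpow_natCast, ← zpow_mul, ← zpow_mul,
      ← zpow_mul, ← zpow_neg, ← zpow_add₀ hz, ← zpow_add₀ hz]
    congr 1
    push_cast [Nat.cast_sub (show j ≤ 84 by omega), Nat.cast_sub (show k ≤ 84 by omega)]
    ring
  rw [PAR_eq10310 e he, Finset.sum_image (by intro a _ b _ h; simpa using h)]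
  simp only [hterm]
  rw [← Finset.mul_sum]
  by_cases h : j = k
  · subst h
    simp
  · rw [if_neg h]
    have hne : z10310 ^ (2 * ((k : ℤ) - j)) ≠ 1 := by
      intro h1
      rw [prim10310.zpow_eq_one_iff_dvd] at h1
      omega
    have h70 : (z10310 ^ (2 * ((k : ℤ) - j))) ^ 84 = 1 := by
      rw [← zpow_natCast, ← zpow_mul, prim10310.zpow_eq_one_iff_dvd]
      exact ⟨(k : ℤ) - j, by push_cast; ring⟩
    rw [geom_sum_eq hne, h70, sub_self, zero_div, mul_zero]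

theorem parseval (e : ℕ) (he : e < 2) (α : ℕ → ℝ) :
    ∑ a ∈ PAR e, ‖∑ j ∈ Finset.Icc 1 83, (α j : ℂ) * (w a) ^ (84 - j)‖ ^ 2
      = 84 * ∑ j ∈ Finset.Icc 1 83, (α j) ^ 2 := by
  apply Complex.ofReal_injective
  push_cast
  have h1 : ∀ a, ((‖∑ j ∈ Finset.Icc 1 83, (α j : ℂ) * (w a) ^ (84 - j)‖ : ℂ)) ^ 2 =
      ∑ j ∈ Finset.Icc 1 83, ∑ k ∈ Finset.Icc 1 83, ((α j : ℂ) * (α k : ℂ)) *
        ((w a) ^ (84 - j) * (starRingEnd ℂ) ((w a) ^ (84 - k))) := by
    intro a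
    rw [← Complex.mul_conj', map_sum, Finset.sum_mul_sum]
    refine Finset.sum_congr rfl fun j _ => Finset.sum_congr rfl fun k _ => ?_
    rw [map_mul, Complex.conj_ofReal]
    ring
  simp only [h1]
  rw [Finset.sum_comm, Finset.mul_sum]
  refine Finset.sum_congr rfl fun j hj => ?_
  rw [Finset.sum_comm]
  have h2 : ∀ k ∈ Finset.Icc 1 83, ∑ a ∈ PAR e, ((α j : ℂ) * (α k : ℂ)) *
        ((w a) ^ (84 - j) * (starRingEnd ℂ) ((w a) ^ (84 - k))) =
      if j = k then ((α j : ℂ) * (α k : ℂ)) * 84 else 0 := by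
    intro k hk
    rw [← Finset.mul_sum, orth10310 e he j k hj hk]
    split_ifs <;> simp
  rw [Finset.sum_congr rfl h2, Finset.sum_ite_eq, if_pos hj]
  ring

end Pool.Agent.N14.TwoN.B2
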