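import Mathlib
import Pool.Agent.N14.TwoN.Defs

set_option autoImplicit false
/-! Irreducible 2n conjecture for sign patterns: counterexample of order 83. -/

namespace Pool.Agent.N14.TwoN.B2b

open Polynomial
open Pool.Agent.N14.TwoN

/-- the basic root of unity -/
noncomputable def zr : ℂ := Complex.exp (2 * Real.pi * Complex.I / (168 : ℕ))

theorem prim_zr : IsPrimitiveRoot zr 168 := Complex.isPrimitiveRoot_exp 168 (by norm_num)

theorem zr_ne : zr ≠ 0 := Complex.exp_ne_zero _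

theorem w_eq (a : ℕ) : w a = zr ^ a := by
  unfold w zr
  rw [← Complex.exp_nat_mul]
  congr 1
  push_cast
  ring

theorem norm_w (a : ℕ) : ‖w a‖ = 1 := by
  unfold w
  exact Complex.norm_exp_ofReal_mul_I _

theorem conj_w (a : ℕ) : (starRingEnd ℂ) (w a) = (w a)⁻¹ := by
  rw [Complex.inv_eq_conj (norm_w a)]

theorem PAR_eq (e : ℕ) (he : e < 2) :
    PAR e = (Finset.range 84).image (fun b => 2 * b + e) := by
  unfold PAR
  ext a
  simp only [Finset.mem_filter, Finset.mem_range, Finset.mem_image]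
  constructor
  · rintro ⟨h1, h2⟩
    exact ⟨a / 2, by omega, by omega⟩
  · rintro ⟨b, h1, h2⟩
    omega

/-- orthogonality of the characters, sum over the points -/
theorem orthD (e : ℕ) (he : e < 2) (k l : ℕ) (hk : k < 84) (hl : l < 84) :
    ∑ a ∈ PAR e, (w a) ^ k * ((starRingEnd ℂ) (w a)) ^ l = if k = l then 84 else 0 := by
  have hz := zr_ne
  have hterm : ∀ b : ℕ, (w (2 * b + e)) ^ k * ((starRingEnd ℂ) (w (2 * b + e))) ^ l =
      zr ^ ((e : ℤ) * ((k : ℤ) - l)) * (zr ^ (2 * ((k : ℤ) - l))) ^ b := by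
    intro b
    rw [conj_w, w_eq, ← zpow_natCast, ← zpow_natCast, ← zpow_natCast, ← zpow_natCast, ← zpow_neg,
      ← zpow_mul, ← zpow_mul, ← zpow_mul, ← zpow_add₀ hz, ← zpow_add₀ hz]
    congr 1
    push_cast
    ring
  rw [PAR_eq e he, Finset.sum_image (by intro a _ b _ h; simpa using h)]
  simp only [hterm]
  rw [← Finset.mul_sum]
  by_cases h : k = l
  · subst h
    simp
  · rw [if_neg h]
    have hne : zr ^ (2 * ((k : ℤ) - l)) ≠ 1 := by
      intro h1
      rw [prim_zr.zpow_eq_one_iff_dvd] at h1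
      omega
    have h84 : (zr ^ (2 * ((k : ℤ) - l))) ^ 84 = 1 := by
      rw [← zpow_natCast, ← zpow_mul, prim_zr.zpow_eq_one_iff_dvd]
      exact ⟨(k : ℤ) - l, by push_cast; ring⟩
    rw [geom_sum_eq hne, h84, sub_self, zero_div, mul_zero]

/-- orthogonality of the characters, sum over the exponents -/
theorem orthF (e : ℕ) (he : e < 2) (a b : ℕ) (ha : a ∈ PAR e) (hb : b ∈ PAR e) :
    ∑ j ∈ Finset.range 84, (w a) ^ j * ((starRingEnd ℂ) (w b)) ^ j = if a = b then 84 else 0 := by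
  have hz := zr_ne
  have ha' : a < 168 ∧ a % 2 = e := by simpa [PAR] using ha
  have hb' : b < 168 ∧ b % 2 = e := by simpa [PAR] using hb
  have hterm : ∀ j : ℕ, (w a) ^ j * ((starRingEnd ℂ) (w b)) ^ j = (zr ^ ((a : ℤ) - b)) ^ j := by
    intro j
    rw [conj_w, w_eq, w_eq, ← mul_pow]
    congr 1
    rw [zpow_sub₀ hz, zpow_natCast, zpow_natCast, div_eq_mul_inv]
  simp only [hterm]
  by_cases h : a = b
  · subst h
    simp
  · rw [if_neg h]
    have hne : zr ^ ((a : ℤ) - b) ≠ 1 := by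
      intro h1
      rw [prim_zr.zpow_eq_one_iff_dvd] at h1
      omega
    have h84 : (zr ^ ((a : ℤ) - b)) ^ 84 = 1 := by
      rw [← zpow_natCast, ← zpow_mul, prim_zr.zpow_eq_one_iff_dvd]
      have : ((a : ℤ) - b) % 2 = 0 := by omega
      obtain ⟨c, hc⟩ := Int.dvd_of_emod_eq_zero this
      exact ⟨c, by rw [hc]; push_cast; ring⟩
    rw [geom_sum_eq hne, h84, sub_self, zero_div]

/-- inversion formula -/
theorem inversion (e : ℕ) (he : e < 2) (f : ℕ → ℂ) (b : ℕ) (hb : b ∈ PAR e) :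
    84 * f b = ∑ j ∈ Finset.range 84, (∑ a ∈ PAR e, f a * (w a) ^ j) *
      ((starRingEnd ℂ) (w b)) ^ j := by
  have h1 : ∀ j ∈ Finset.range 84, (∑ a ∈ PAR e, f a * (w a) ^ j) * ((starRingEnd ℂ) (w b)) ^ j =
      ∑ a ∈ PAR e, f a * ((w a) ^ j * ((starRingEnd ℂ) (w b)) ^ j) := by
    intro j _
    rw [Finset.sum_mul]
    exact Finset.sum_congr rfl fun a _ => by ring
  rw [Finset.sum_congr rfl h1, Finset.sum_comm]
  have h2 : ∀ a ∈ PAR e, ∑ j ∈ Finset.range 84, f a * ((w a) ^ j * ((starRingEnd ℂ) (w b)) ^ j) =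
      if a = b then f a * 84 else 0 := by
    intro a ha
    rw [← Finset.mul_sum, orthF e he a b ha hb]
    split_ifs <;> simp
  rw [Finset.sum_congr rfl h2, Finset.sum_ite_eq', if_pos hb]
  ring

/-- Plancherel -/
theorem plancherel (e : ℕ) (he : e < 2) (f : ℕ → ℂ) :
    ∑ j ∈ Finset.range 84, ‖∑ a ∈ PAR e, f a * (w a) ^ j‖ ^ 2 = 84 * ∑ a ∈ PAR e, ‖f a‖ ^ 2 := by
  apply Complex.ofReal_injective
  push_cast
  have h1 : ∀ j, ((‖∑ a ∈ PAR e, f a * (w a) ^ j‖ : ℂ)) ^ 2 =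
      ∑ a ∈ PAR e, ∑ b ∈ PAR e, (f a * (starRingEnd ℂ) (f b)) *
        ((w a) ^ j * ((starRingEnd ℂ) (w b)) ^ j) := by
    intro j
    rw [← Complex.mul_conj', map_sum, Finset.sum_mul_sum]
    refine Finset.sum_congr rfl fun a _ => Finset.sum_congr rfl fun b _ => ?_
    rw [map_mul, map_pow]
    ring
  simp only [h1]
  rw [Finset.sum_comm, Finset.mul_sum]
  refine Finset.sum_congr rfl fun a ha => ?_
  rw [Finset.sum_comm]
  have h2 : ∀ b ∈ PAR e, ∑ j ∈ Finset.range 84, (f a * (starRingEnd ℂ) (f b)) *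
        ((w a) ^ j * ((starRingEnd ℂ) (w b)) ^ j) =
      if a = b then (f a * (starRingEnd ℂ) (f b)) * 84 else 0 := by
    intro b hb
    rw [← Finset.mul_sum, orthF e he a b ha hb]
    split_ifs <;> simp
  rw [Finset.sum_congr rfl h2, Finset.sum_ite_eq, if_pos ha, Complex.mul_conj']
  ring

theorem sgn_sq (e : ℕ) : ((-1 : ℂ)) ^ e * (-1) ^ e = 1 := by
  rw [← mul_pow]; simp

theorem w_conj_mul (a : ℕ) : (starRingEnd ℂ) (w a) * w a = 1 := by
  rw [conj_w]
  exact inv_mul_cancel₀ (by rw [w_eq]; exact pow_ne_zero _ zr_ne)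

theorem conj_pow_eq (e a : ℕ) (h84 : (w a) ^ 84 = (-1) ^ e) (k l : ℕ) (hkl : k + l = 84) :
    (-1 : ℂ) ^ e * (w a) ^ k = ((starRingEnd ℂ) (w a)) ^ l := by
  have h1 : ((starRingEnd ℂ) (w a)) ^ l * (w a) ^ l = 1 := by
    rw [← mul_pow, w_conj_mul, one_pow]
  have h2 : (w a) ^ k * (w a) ^ l = (-1) ^ e := by
    rw [← pow_add, hkl, h84]
  calc (-1 : ℂ) ^ e * (w a) ^ k = (-1 : ℂ) ^ e * (w a) ^ k * (((starRingEnd ℂ) (w a)) ^ l * (w a) ^ l) := by
        rw [h1, mul_one]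
    _ = (-1 : ℂ) ^ e * ((w a) ^ k * (w a) ^ l) * ((starRingEnd ℂ) (w a)) ^ l := by ring
    _ = ((starRingEnd ℂ) (w a)) ^ l := by rw [h2, sgn_sq, one_mul]

/-- the first order displacements -/
theorem xi1_eq (e a : ℕ) (h84 : (w a) ^ 84 = (-1) ^ e) (ρ : ℕ → ℝ) :
    xi1 e ρ (w a) = ∑ j ∈ Finset.Icc 1 83, (-(1 / 84) * (ρ j : ℂ)) *
      ((starRingEnd ℂ) (w a)) ^ (j - 1) := by
  unfold xi1 r
  rw [Finset.mul_sum, Finset.sum_div]
  refine Finset.sum_congr rfl fun j hj => ?_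
  have hj' := Finset.mem_Icc.1 hj
  rw [← conj_pow_eq e a h84 (85 - j) (j - 1) (by omega)]
  have : (w a) ^ (85 - j) = w a * (w a) ^ (84 - j) := by
    rw [← pow_succ']; congr 1; omega
  rw [this]; ring

/-- the displacement coordinates of the first order displacements -/
theorem xi1_sum (w_pow : ∀ (e a : ℕ), a ∈ PAR e → (w a) ^ 84 = (-1) ^ e)
    (e : ℕ) (he : e < 2) (ρ : ℕ → ℝ) (k : ℕ) (hk : k < 84) :
    ∑ a ∈ PAR e, xi1 e ρ (w a) * (w a) ^ k = if k < 83 then -(ρ (k + 1) : ℂ) else 0 := by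
  have h1 : ∀ a ∈ PAR e, xi1 e ρ (w a) * (w a) ^ k = ∑ j ∈ Finset.Icc 1 83,
      (-(1 / 84) * (ρ j : ℂ)) * ((w a) ^ k * ((starRingEnd ℂ) (w a)) ^ (j - 1)) := by
    intro a ha
    rw [xi1_eq e a (w_pow e a ha), Finset.sum_mul]
    exact Finset.sum_congr rfl fun j _ => by ring
  rw [Finset.sum_congr rfl h1, Finset.sum_comm]
  have h2 : ∀ j ∈ Finset.Icc 1 83, ∑ a ∈ PAR e, (-(1 / 84) * (ρ j : ℂ)) *
      ((w a) ^ k * ((starRingEnd ℂ) (w a)) ^ (j - 1)) =
      if k + 1 = j then -(ρ j : ℂ) else 0 := by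
    intro j hj
    have hj' := Finset.mem_Icc.1 hj
    rw [← Finset.mul_sum, orthD e he k (j - 1) hk (by omega)]
    by_cases h : k + 1 = j
    · rw [if_pos h, if_pos (by omega)]
      ring
    · rw [if_neg h, if_neg (by omega), mul_zero]
  rw [Finset.sum_congr rfl h2, Finset.sum_ite_eq]
  by_cases h : k < 83
  · rw [if_pos (Finset.mem_Icc.2 (by omega)), if_pos h]
  · rw [if_neg (by rw [Finset.mem_Icc]; omega), if_neg h]

end Pool.Agent.N14.TwoN.B2b
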