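import Mathlib
import Pool.Agent.N14.TwoN.Defs
import Pool.Agent.N14.TwoN.B2b

set_option autoImplicit false

/-! The first variation of `h_4` in the displacement coordinates. -/

namespace Pool.Agent.N14.TwoN.B4

open Polynomial
open Pool.Agent.N14.TwoN

theorem pow_conj (a j k : ℕ) : (w a) ^ k * ((starRingEnd ℂ) (w a)) ^ j =
    if k ≤ j then ((starRingEnd ℂ) (w a)) ^ (ad j k) else (w a) ^ (ad j k) := by
  have h := B2b.w_conj_mul a
  unfold ad
  split_ifs with hk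
  · have e1 : j = k + (j - k) := by omega
    have e2 : k - j = 0 := by omega
    rw [e2, add_zero]
    conv_lhs => rw [e1]
    rw [pow_add, ← mul_assoc, ← mul_pow, mul_comm (w a), h, one_pow, one_mul]
  · have e1 : k = j + (k - j) := by omega
    have e2 : j - k = 0 := by omega
    rw [e2, zero_add]
    conv_lhs => rw [e1]
    rw [pow_add, mul_right_comm, ← mul_pow, mul_comm (w a), h, one_pow, one_mul]

theorem sum_pow_conj (A : Finset ℕ) (s : ℕ → ℝ)
    (hps : ∀ m : ℕ, ∑ a ∈ A, (w a) ^ m = ((s m : ℝ) : ℂ)) (j k : ℕ) :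
    ∑ a ∈ A, (w a) ^ k * ((starRingEnd ℂ) (w a)) ^ j = ((s (ad j k) : ℝ) : ℂ) := by
  have hcs : ∀ m, ∑ a ∈ A, ((starRingEnd ℂ) (w a)) ^ m = ((s m : ℝ) : ℂ) := by
    intro m
    have h := congrArg (starRingEnd ℂ) (hps m)
    rw [map_sum, Complex.conj_ofReal] at h
    simpa only [map_pow] using h
  rw [Finset.sum_congr rfl (fun a _ => pow_conj a j k)]
  by_cases hk : k ≤ j
  · simp only [if_pos hk]
    exact hcs _
  · simp only [if_neg hk]
    exact hps _

/-- The weighted sum of displacements. -/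
theorem bracket
    (power_sum : ∀ (e : ℕ) (U : Finset ℕ) (pm : Bool), U ⊆ UP e → (pm = true → e = 0) →
      ∀ (m : ℕ), ∑ a ∈ full U pm, (w a) ^ m = ((sg U pm m : ℝ) : ℂ))
    (w_pow : ∀ (e a : ℕ), a ∈ PAR e → (w a) ^ 84 = (-1) ^ e)
    (e : ℕ) (U : Finset ℕ) (pm : Bool) (hV : Valid e U pm) (hsub : full U pm ⊆ PAR e)
    (σ : ℕ → ℝ) (ζ : ℕ → ℂ)
    (hz : ∀ j ∈ Finset.Icc 1 83, ((σ j : ℝ) : ℂ) = -∑ a ∈ PAR e, ζ a * (w a) ^ (j - 1)) :
    ∑ a ∈ full U pm, ((al U pm : ℂ) - (be U pm : ℂ) * w a - (w a) ^ 3) * ζ a =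
      ((L U pm σ : ℝ) : ℂ) + 1 / 84 * ((-1) ^ e * (4 * ((eta U pm : ℝ) : ℂ))) *
        ∑ a ∈ PAR e, ζ a * (w a) ^ 83 := by
  have hps := power_sum e U pm hV.hU hV.hp
  set A := full U pm with hA
  set c : ℕ → ℂ := fun j => ∑ a ∈ PAR e, ζ a * (w a) ^ j with hc
  have hG : ∀ j, ∑ a ∈ A, ((al U pm : ℂ) - (be U pm : ℂ) * w a - (w a) ^ 3) *
      ((starRingEnd ℂ) (w a)) ^ j = ((al U pm * sg U pm j - be U pm * sg U pm (ad j 1) -
        sg U pm (ad j 3) : ℝ) : ℂ) := by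
    intro j
    have h0 := sum_pow_conj A (sg U pm) hps j 0
    have h1 := sum_pow_conj A (sg U pm) hps j 1
    have h3 := sum_pow_conj A (sg U pm) hps j 3
    have hj0 : ad j 0 = j := by unfold ad; omega
    rw [hj0] at h0
    push_cast
    rw [← h0, ← h1, ← h3, Finset.mul_sum, Finset.mul_sum, ← Finset.sum_sub_distrib,
      ← Finset.sum_sub_distrib]
    exact Finset.sum_congr rfl fun a _ => by ring
  have hG83 : ∑ a ∈ A, ((al U pm : ℂ) - (be U pm : ℂ) * w a - (w a) ^ 3) *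
      ((starRingEnd ℂ) (w a)) ^ 83 = (-1) ^ e * (4 * ((eta U pm : ℝ) : ℂ)) := by
    have h1 : ∀ a ∈ A, ((al U pm : ℂ) - (be U pm : ℂ) * w a - (w a) ^ 3) *
        ((starRingEnd ℂ) (w a)) ^ 83 = (-1) ^ e * ((al U pm : ℂ) * (w a) ^ 1 -
          (be U pm : ℂ) * (w a) ^ 2 - (w a) ^ 4) := by
      intro a ha
      rw [← B2b.conj_pow_eq e a (w_pow e a (hsub ha)) 1 83 (by norm_num)]
      ring
    rw [Finset.sum_congr rfl h1, ← Finset.mul_sum, Finset.sum_sub_distrib, Finset.sum_sub_distrib,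
      ← Finset.mul_sum, ← Finset.mul_sum, hps, hps, hps]
    congr 1
    unfold al be eta uu
    push_cast
    ring
  have h84 : (84 : ℂ) * ∑ a ∈ A, ((al U pm : ℂ) - (be U pm : ℂ) * w a - (w a) ^ 3) * ζ a =
      ∑ j ∈ Finset.range 84, c j * ∑ a ∈ A, ((al U pm : ℂ) - (be U pm : ℂ) * w a - (w a) ^ 3) *
        ((starRingEnd ℂ) (w a)) ^ j := by
    rw [Finset.mul_sum]
    have h1 : ∀ a ∈ A, (84 : ℂ) * (((al U pm : ℂ) - (be U pm : ℂ) * w a - (w a) ^ 3) * ζ a) =
        ∑ j ∈ Finset.range 84, c j * (((al U pm : ℂ) - (be U pm : ℂ) * w a - (w a) ^ 3) *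
          ((starRingEnd ℂ) (w a)) ^ j) := by
      intro a ha
      have h2 := B2b.inversion e hV.he ζ a (hsub ha)
      calc (84 : ℂ) * (((al U pm : ℂ) - (be U pm : ℂ) * w a - (w a) ^ 3) * ζ a) =
          ((al U pm : ℂ) - (be U pm : ℂ) * w a - (w a) ^ 3) * (84 * ζ a) := by ring
        _ = _ := by
          rw [h2, Finset.mul_sum]
          exact Finset.sum_congr rfl fun j _ => by ring
    rw [Finset.sum_congr rfl h1, Finset.sum_comm]
    exact Finset.sum_congr rfl fun j _ => by rw [Finset.mul_sum]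
  have hcc : ∑ j ∈ Finset.range 83, c j * ∑ a ∈ A,
      ((al U pm : ℂ) - (be U pm : ℂ) * w a - (w a) ^ 3) * ((starRingEnd ℂ) (w a)) ^ j =
      ∑ j ∈ Finset.range 83, c j * ((al U pm * sg U pm j - be U pm * sg U pm (ad j 1) -
        sg U pm (ad j 3) : ℝ) : ℂ) := Finset.sum_congr rfl fun j _ => by rw [hG j]
  rw [Finset.sum_range_succ, hG83, hcc] at h84
  have hL : (84 : ℂ) * ((L U pm σ : ℝ) : ℂ) = ∑ j ∈ Finset.range 83, c j *
      ((al U pm * sg U pm j - be U pm * sg U pm (ad j 1) - sg U pm (ad j 3) : ℝ) : ℂ) := by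
    unfold L
    rw [Complex.ofReal_sum, Finset.mul_sum]
    refine Finset.sum_nbij' (fun j => j - 1) (fun j => j + 1) ?_ ?_ ?_ ?_ ?_
    · intro j hj
      have := Finset.mem_Icc.1 hj
      exact Finset.mem_range.2 (by omega)
    · intro j hj
      have := Finset.mem_range.1 hj
      exact Finset.mem_Icc.2 (by omega)
    · intro j hj
      have := Finset.mem_Icc.1 hj
      show j - 1 + 1 = j
      omega
    · intro j _
      show j + 1 - 1 = j
      omega
    · intro j hj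
      have hj' := Finset.mem_Icc.1 hj
      have e1 : ad j 2 = ad (j - 1) 1 := by unfold ad; omega
      have e2 : ad j 4 = ad (j - 1) 3 := by unfold ad; omega
      have e3 : c (j - 1) = -((σ j : ℝ) : ℂ) := by
        rw [hz j hj, neg_neg]
      rw [e3]
      unfold Lc
      rw [e1, e2]
      push_cast
      ring
  rw [← hL] at h84
  have h85 : (84 : ℂ) * ∑ a ∈ A, ((al U pm : ℂ) - (be U pm : ℂ) * w a - (w a) ^ 3) * ζ a =
      84 * (((L U pm σ : ℝ) : ℂ) + 1 / 84 * ((-1) ^ e * (4 * ((eta U pm : ℝ) : ℂ))) * c 83) := by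
    rw [h84]; ring
  exact mul_left_cancel₀ (by norm_num) h85

end Pool.Agent.N14.TwoN.B4
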