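import Mathlib
import Pool.Agent.N14.TwoN.Defs
import Pool.Agent.N14.TwoN.B2b
import Pool.Agent.N14.TwoN.B4

set_option autoImplicit false

/-! The estimate of `h_4`. -/

namespace Pool.Agent.N14.TwoN.B4b

open Polynomial
open Pool.Agent.N14.TwoN

theorem card_sum (A : Finset ℕ) (f : ℕ → ℂ) :
    ‖∑ a ∈ A, f a‖ ^ 2 ≤ (A.card : ℝ) * ∑ a ∈ A, ‖f a‖ ^ 2 := by
  have h1 : ‖∑ a ∈ A, f a‖ ≤ ∑ a ∈ A, ‖f a‖ := norm_sum_le _ _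
  have h2 : (∑ a ∈ A, ‖f a‖) ^ 2 ≤ (A.card : ℝ) * ∑ a ∈ A, ‖f a‖ ^ 2 := sq_sum_le_card_mul_sum_sq
  exact (pow_le_pow_left₀ (norm_nonneg _) h1 2).trans h2

theorem halfsum (P A : Finset ℕ) (hA : A ⊆ P) (cA : A.card = 44) (cB : (P \ A).card = 40)
    (f : ℕ → ℂ) (hq : ∑ a ∈ P, ‖f a‖ ^ 2 ≤ 77 / 10 ^ 11) (hc : ‖∑ a ∈ P, f a‖ ≤ 7 / 10 ^ 6) :
    ‖∑ a ∈ A, f a‖ ≤ 131 / 10 ^ 6 := by
  have h1 := card_sum A f
  have h2 := card_sum (P \ A) f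
  rw [cA] at h1
  rw [cB] at h2
  have h3 : ∑ a ∈ P \ A, ‖f a‖ ^ 2 + ∑ a ∈ A, ‖f a‖ ^ 2 = ∑ a ∈ P, ‖f a‖ ^ 2 :=
    Finset.sum_sdiff hA
  have h4 : ∑ a ∈ P \ A, f a + ∑ a ∈ A, f a = ∑ a ∈ P, f a := Finset.sum_sdiff hA
  have h5 : ‖∑ a ∈ A, f a‖ ≤ ‖∑ a ∈ P, f a‖ + ‖∑ a ∈ P \ A, f a‖ := by
    have : ∑ a ∈ A, f a = ∑ a ∈ P, f a - ∑ a ∈ P \ A, f a := by rw [← h4]; ring
    rw [this]
    exact norm_sub_le _ _
  push_cast at h1 h2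
  by_contra hcon
  rw [not_le] at hcon
  have h6 : 124 / 10 ^ 6 < ‖∑ a ∈ P \ A, f a‖ := by
    have : (131 : ℝ) / 10 ^ 6 < 7 / 10 ^ 6 + ‖∑ a ∈ P \ A, f a‖ :=
      hcon.trans_le (h5.trans (add_le_add_left hc _))
    have e : (131 : ℝ) / 10 ^ 6 = 7 / 10 ^ 6 + 124 / 10 ^ 6 := by norm_num
    rw [e] at this
    exact lt_of_add_lt_add_left this
  have h7 : (131 / 10 ^ 6 : ℝ) ^ 2 ≤ ‖∑ a ∈ A, f a‖ ^ 2 :=
    pow_le_pow_left₀ (by norm_num) hcon.le 2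
  have h8 : (124 / 10 ^ 6 : ℝ) ^ 2 ≤ ‖∑ a ∈ P \ A, f a‖ ^ 2 :=
    pow_le_pow_left₀ (by norm_num) h6.le 2
  norm_num at h7 h8 hq
  linarith

theorem real_est (b u S d t r2 r4 : ℝ) (hb1 : 1 ≤ b) (hb2 : b ≤ 21 / 10) (hu : |u| ≤ 4)
    (hS : |S| ≤ 131 / 10 ^ 6)
    (hd : |d| ≤ 2 * b * (131 / 10 ^ 6) + (131 / 10 ^ 6) ^ 2 + 2 * (131 / 10 ^ 6) + 77 / 10 ^ 11)
    (ht : |t| ≤ 1 / 10 ^ 11) (hr2 : |r2| ≤ 77 / 10 ^ 11) (hr4 : |r4| ≤ 601 / 100 * (77 / 10 ^ 11)) :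
    -(2 / 10 ^ 9) ≤ t + 3 / 2 * b ^ 2 * S ^ 2 + b * S ^ 3 + S ^ 4 / 4 + u / 4 * S ^ 2 + d ^ 2 / 8
      - r4 / 4 - u / 4 * r2 ∧
    t + 3 / 2 * b ^ 2 * S ^ 2 + b * S ^ 3 + S ^ 4 / 4 + u / 4 * S ^ 2 + d ^ 2 / 8
      - r4 / 4 - u / 4 * r2 ≤ epsP b := by
  have hS2 : S ^ 2 ≤ (131 / 10 ^ 6) ^ 2 := sq_le_sq' (by linarith [(abs_le.1 hS).1]) (abs_le.1 hS).2
  have hS0 : 0 ≤ S ^ 2 := sq_nonneg _
  have hbS : |b * S| ≤ 1 / 1000 := by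
    rw [abs_mul, abs_of_nonneg (by linarith : (0:ℝ) ≤ b)]
    calc b * |S| ≤ 21 / 10 * (131 / 10 ^ 6) :=
          mul_le_mul hb2 hS (abs_nonneg _) (by norm_num)
      _ ≤ 1 / 1000 := by norm_num
  have hbS3 : |b * S ^ 3| ≤ 1 / 1000 * S ^ 2 := by
    have e : b * S ^ 3 = b * S * S ^ 2 := by ring
    rw [e, abs_mul, abs_of_nonneg hS0]
    exact mul_le_mul_of_nonneg_right hbS hS0
  have huS : |u / 4 * S ^ 2| ≤ S ^ 2 := by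
    rw [abs_mul, abs_of_nonneg hS0]
    have : |u / 4| ≤ 1 := by
      rw [abs_div, abs_of_pos (by norm_num : (0:ℝ) < 4)]
      linarith
    calc |u / 4| * S ^ 2 ≤ 1 * S ^ 2 := mul_le_mul_of_nonneg_right this hS0
      _ = S ^ 2 := one_mul _
  have hur : |u / 4 * r2| ≤ 77 / 10 ^ 11 := by
    rw [abs_mul]
    have : |u / 4| ≤ 1 := by
      rw [abs_div, abs_of_pos (by norm_num : (0:ℝ) < 4)]
      linarith
    calc |u / 4| * |r2| ≤ 1 * (77 / 10 ^ 11) := mul_le_mul this hr2 (abs_nonneg _) (by norm_num)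
      _ = _ := one_mul _
  have hbsq : 1 ≤ b ^ 2 := by nlinarith
  have hS4 : S ^ 4 ≤ 1 / 1000 * S ^ 2 := by
    have e : S ^ 4 = S ^ 2 * S ^ 2 := by ring
    rw [e]
    exact mul_le_mul_of_nonneg_right (hS2.trans (by norm_num)) hS0
  have hS4' : 0 ≤ S ^ 4 := by positivity
  have hbb : b ^ 2 * S ^ 2 ≤ b ^ 2 * (131 / 10 ^ 6) ^ 2 :=
    mul_le_mul_of_nonneg_left hS2 (sq_nonneg _)
  have hbb' : S ^ 2 ≤ b ^ 2 * S ^ 2 := by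
    calc S ^ 2 = 1 * S ^ 2 := (one_mul _).symm
      _ ≤ b ^ 2 * S ^ 2 := mul_le_mul_of_nonneg_right hbsq hS0
  have hd1 : |d| ≤ 26201 / 10 ^ 8 * (1 + b) := by
    refine hd.trans ?_
    norm_num
    linarith
  have hd2 : d ^ 2 ≤ (26201 / 10 ^ 8 * (1 + b)) ^ 2 :=
    sq_le_sq' (by linarith [(abs_le.1 hd1).1]) (abs_le.1 hd1).2
  have hd3 : (26201 / 10 ^ 8 * (1 + b)) ^ 2 ≤ (26201 / 10 ^ 8) ^ 2 * (2 * (1 + b ^ 2)) := by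
    rw [mul_pow]
    refine mul_le_mul_of_nonneg_left ?_ (by norm_num)
    nlinarith [sq_nonneg (b - 1)]
  have hd0 : 0 ≤ d ^ 2 := sq_nonneg _
  have a1 := abs_le.1 hbS3
  have a2 := abs_le.1 huS
  have a3 := abs_le.1 hur
  have a4 := abs_le.1 ht
  have a5 := abs_le.1 hr4
  have k1 : d ^ 2 ≤ (26201 / 10 ^ 8) ^ 2 * (2 * (1 + b ^ 2)) := hd2.trans hd3
  unfold epsP
  norm_num at a1 a2 a3 a4 a5 hS2 hbb k1 ⊢
  constructor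
  · linarith [a1.1, a2.1, a3.2, a4.1, a5.2]
  · linarith [a1.2, a2.2, a3.1, a4.2, a5.1]

theorem sum_bd_sq : ∑ j ∈ Finset.Icc 1 83, bd j ^ 2 = 6458200 / 10 ^ 14 := by
  have h1 : ∀ j : ℕ, bd j ^ 2 = (((bdN j) ^ 2 : ℕ) : ℝ) / 10 ^ 14 := by
    intro j
    unfold bd
    push_cast
    ring
  simp only [h1]
  rw [← Finset.sum_div, ← Nat.cast_sum]
  have h2 : ∑ j ∈ Finset.Icc 1 83, (bdN j) ^ 2 = 6458200 := by decide +kernel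
  rw [h2]
  norm_num

/-- The square sum of the displacements. -/
theorem Q_est (e : ℕ) (he : e < 2) (σ : ℕ → ℝ) (hσ : Box σ) (ζ : ℕ → ℂ)
    (hz : ∀ j ∈ Finset.Icc 1 83, ((σ j : ℝ) : ℂ) = -∑ a ∈ PAR e, ζ a * (w a) ^ (j - 1))
    (h83 : ‖∑ a ∈ PAR e, ζ a * (w a) ^ 83‖ ≤ 8 / 10 ^ 8) :
    ∑ a ∈ PAR e, ‖ζ a‖ ^ 2 ≤ 77 / 10 ^ 11 := by
  have h1 := B2b.plancherel e he ζ
  rw [Finset.sum_range_succ] at h1
  have h2 : ∑ j ∈ Finset.range 83, ‖∑ a ∈ PAR e, ζ a * (w a) ^ j‖ ^ 2 ≤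
      ∑ j ∈ Finset.Icc 1 83, bd j ^ 2 := by
    have h3 : ∑ j ∈ Finset.range 83, ‖∑ a ∈ PAR e, ζ a * (w a) ^ j‖ ^ 2 =
        ∑ j ∈ Finset.Icc 1 83, |σ j| ^ 2 := by
      refine Finset.sum_nbij' (fun j => j + 1) (fun j => j - 1) ?_ ?_ ?_ ?_ ?_
      · intro j hj
        have := Finset.mem_range.1 hj
        exact Finset.mem_Icc.2 (by omega)
      · intro j hj
        have := Finset.mem_Icc.1 hj
        exact Finset.mem_range.2 (by omega)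
      · intro j _
        show j + 1 - 1 = j
        omega
      · intro j hj
        have := Finset.mem_Icc.1 hj
        show j - 1 + 1 = j
        omega
      · intro j hj
        have hj' := Finset.mem_range.1 hj
        have h4 := hz (j + 1) (Finset.mem_Icc.2 (by omega))
        rw [show j + 1 - 1 = j by omega] at h4
        have h5 : ‖((σ (j + 1) : ℝ) : ℂ)‖ = ‖∑ a ∈ PAR e, ζ a * (w a) ^ j‖ := by
          rw [h4, norm_neg]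
        rw [← h5, Complex.norm_real, Real.norm_eq_abs]
    rw [h3]
    exact Finset.sum_le_sum fun j hj => pow_le_pow_left₀ (abs_nonneg _) (hσ j hj) 2
  rw [sum_bd_sq] at h2
  have h4 : ‖∑ a ∈ PAR e, ζ a * (w a) ^ 83‖ ^ 2 ≤ (8 / 10 ^ 8) ^ 2 :=
    pow_le_pow_left₀ (norm_nonneg _) h83 2
  norm_num at h2 h4 ⊢
  linarith

theorem h4_est
    (power_sum : ∀ (e : ℕ) (U : Finset ℕ) (pm : Bool), U ⊆ UP e → (pm = true → e = 0) →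
      ∀ (m : ℕ), ∑ a ∈ full U pm, (w a) ^ m = ((sg U pm m : ℝ) : ℂ))
    (w_pow : ∀ (e a : ℕ), a ∈ PAR e → (w a) ^ 84 = (-1) ^ e)
    (full_union : ∀ (e : ℕ) (U : Finset ℕ) (pm : Bool), Valid e U pm →
      full U pm ⊆ PAR e ∧ full (comp e U) (cpm e pm) = PAR e \ full U pm ∧
      (full U pm).card = 44 ∧ (full (comp e U) (cpm e pm)).card = 40)
    (e : ℕ) (U : Finset ℕ) (pm : Bool) (hV : Valid e U pm)
    (hb1 : 1 ≤ sg U pm 1) (hb2 : sg U pm 1 ≤ 21 / 10) (hu : |uu U pm| ≤ 4)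
    (het : |eta U pm| ≤ 1 / 1000) (σ : ℕ → ℝ) (hσ : Box σ) (z : ℕ → ℂ)
    (hz : ∀ j ∈ Finset.Icc 1 83, ((σ j : ℝ) : ℂ) = -∑ a ∈ PAR e, (z a - w a) * (w a) ^ (j - 1))
    (h83 : ‖∑ a ∈ PAR e, (z a - w a) * (w a) ^ 83‖ ≤ 8 / 10 ^ 8)
    (x1 x2 : ℝ) (hx1 : (x1 : ℂ) = ∑ a ∈ full U pm, z a)
    (hx2 : (x2 : ℂ) = ∑ a ∈ full U pm, (z a) ^ 2)
    (h : ℝ) (hh : ((h : ℝ) : ℂ) = ((∑ a ∈ full U pm, z a) ^ 4 - ∑ a ∈ full U pm, (z a) ^ 4) / 4 +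
      ((∑ a ∈ full U pm, z a) ^ 2 - ∑ a ∈ full U pm, (z a) ^ 2) ^ 2 / 8) :
    -(2 / 10 ^ 9) ≤ h - (eta U pm + L U pm σ) ∧
      h - (eta U pm + L U pm σ) ≤ epsP (sg U pm 1) := by
  obtain ⟨hsub, hcomp, hcard, hcard2⟩ := full_union e U pm hV
  rw [hcomp] at hcard2
  have hps := power_sum e U pm hV.hU hV.hp
  have hbr := B4.bracket power_sum w_pow e U pm hV hsub σ (fun a => z a - w a) hz
  have hQ := Q_est e hV.he σ hσ (fun a => z a - w a) hz h83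
  set A := full U pm with hA
  set ζ : ℕ → ℂ := fun a => z a - w a with hζ
  have hwn : ∀ a, ‖w a‖ = 1 := B2b.norm_w
  -- the sums
  have e1 : ∑ a ∈ A, z a = ((sg U pm 1 : ℝ) : ℂ) + ∑ a ∈ A, ζ a := by
    rw [← hps 1, ← Finset.sum_add_distrib]
    exact Finset.sum_congr rfl fun a _ => by simp only [hζ]; ring
  have e2 : ∑ a ∈ A, (z a) ^ 2 = ((sg U pm 2 : ℝ) : ℂ) + 2 * ∑ a ∈ A, w a * ζ a +
      ∑ a ∈ A, (ζ a) ^ 2 := by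
    rw [← hps 2, Finset.mul_sum, ← Finset.sum_add_distrib, ← Finset.sum_add_distrib]
    exact Finset.sum_congr rfl fun a _ => by simp only [hζ]; ring
  have e4 : ∑ a ∈ A, (z a) ^ 4 = ((sg U pm 4 : ℝ) : ℂ) + 4 * ∑ a ∈ A, (w a) ^ 3 * ζ a +
      ∑ a ∈ A, (6 * (w a) ^ 2 * (ζ a) ^ 2 + 4 * w a * (ζ a) ^ 3 + (ζ a) ^ 4) := by
    rw [← hps 4, Finset.mul_sum, ← Finset.sum_add_distrib, ← Finset.sum_add_distrib]
    exact Finset.sum_congr rfl fun a _ => by simp only [hζ]; ring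
  have e5 : ∑ a ∈ A, ((al U pm : ℂ) - (be U pm : ℂ) * w a - (w a) ^ 3) * ζ a =
      (al U pm : ℂ) * ∑ a ∈ A, ζ a - (be U pm : ℂ) * ∑ a ∈ A, w a * ζ a -
        ∑ a ∈ A, (w a) ^ 3 * ζ a := by
    rw [Finset.mul_sum, Finset.mul_sum, ← Finset.sum_sub_distrib, ← Finset.sum_sub_distrib]
    exact Finset.sum_congr rfl fun a _ => by ring
  rw [e5] at hbr
  -- bounds of the sums
  have q1 : ‖∑ a ∈ A, ζ a‖ ≤ 131 / 10 ^ 6 := by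
    refine halfsum (PAR e) A hsub hcard hcard2 ζ hQ ?_
    have h1 := hz 1 (Finset.mem_Icc.2 (by omega))
    have h2 : ‖∑ a ∈ PAR e, ζ a‖ = |σ 1| := by
      rw [← Real.norm_eq_abs, ← Complex.norm_real, h1, norm_neg]
      congr 1
      exact Finset.sum_congr rfl fun a _ => by simp [hζ]
    rw [h2]
    refine (hσ 1 (Finset.mem_Icc.2 (by omega))).trans ?_
    unfold bd bdN
    norm_num
  have q2 : ‖∑ a ∈ A, w a * ζ a‖ ≤ 131 / 10 ^ 6 := by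
    refine halfsum (PAR e) A hsub hcard hcard2 (fun a => w a * ζ a) ?_ ?_
    · simpa [norm_mul, hwn] using hQ
    have h1 := hz 2 (Finset.mem_Icc.2 (by omega))
    have h2 : ‖∑ a ∈ PAR e, w a * ζ a‖ = |σ 2| := by
      rw [← Real.norm_eq_abs, ← Complex.norm_real, h1, norm_neg]
      congr 1
      exact Finset.sum_congr rfl fun a _ => by simp [hζ, mul_comm]
    rw [h2]
    refine (hσ 2 (Finset.mem_Icc.2 (by omega))).trans ?_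
    unfold bd bdN
    norm_num
  have hQA : ∑ a ∈ A, ‖ζ a‖ ^ 2 ≤ 77 / 10 ^ 11 :=
    (Finset.sum_le_sum_of_subset_of_nonneg hsub (fun _ _ _ => by positivity)).trans hQ
  have q3 : ‖∑ a ∈ A, (ζ a) ^ 2‖ ≤ 77 / 10 ^ 11 := by
    refine (norm_sum_le _ _).trans (le_trans (le_of_eq ?_) hQA)
    exact Finset.sum_congr rfl fun a _ => norm_pow _ _
  have hζle : ∀ a ∈ A, ‖ζ a‖ ≤ 1 / 1000 := by
    intro a ha
    have h1 : ‖ζ a‖ ^ 2 ≤ ∑ a ∈ A, ‖ζ a‖ ^ 2 :=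
      Finset.single_le_sum (f := fun a => ‖ζ a‖ ^ 2) (fun _ _ => by positivity) ha
    have h2 : ‖ζ a‖ ^ 2 ≤ (1 / 1000) ^ 2 := h1.trans (hQA.trans (by norm_num))
    exact (abs_le_of_sq_le_sq' h2 (by norm_num)).2
  have q4 : ‖∑ a ∈ A, (6 * (w a) ^ 2 * (ζ a) ^ 2 + 4 * w a * (ζ a) ^ 3 + (ζ a) ^ 4)‖ ≤
      601 / 100 * (77 / 10 ^ 11) := by
    refine (norm_sum_le _ _).trans ?_
    have h1 : ∀ a ∈ A, ‖6 * (w a) ^ 2 * (ζ a) ^ 2 + 4 * w a * (ζ a) ^ 3 + (ζ a) ^ 4‖ ≤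
        601 / 100 * ‖ζ a‖ ^ 2 := by
      intro a ha
      have h2 := hζle a ha
      have h3 : ‖6 * (w a) ^ 2 * (ζ a) ^ 2 + 4 * w a * (ζ a) ^ 3 + (ζ a) ^ 4‖ ≤
          6 * ‖ζ a‖ ^ 2 + 4 * ‖ζ a‖ ^ 3 + ‖ζ a‖ ^ 4 := by
        refine (norm_add_le _ _).trans (add_le_add ((norm_add_le _ _).trans
          (add_le_add ?_ ?_)) ?_)
        · rw [norm_mul, norm_mul, norm_pow, norm_pow, hwn]; norm_num
        · rw [norm_mul, norm_mul, norm_pow, hwn]; norm_num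
        · rw [norm_pow]
      have h4 : 0 ≤ ‖ζ a‖ := norm_nonneg _
      have h5 : ‖ζ a‖ ^ 3 ≤ 1 / 1000 * ‖ζ a‖ ^ 2 := by
        calc ‖ζ a‖ ^ 3 = ‖ζ a‖ * ‖ζ a‖ ^ 2 := by ring
          _ ≤ 1 / 1000 * ‖ζ a‖ ^ 2 := mul_le_mul_of_nonneg_right h2 (sq_nonneg _)
      have h6 : ‖ζ a‖ ^ 4 ≤ 1 / 1000 * ‖ζ a‖ ^ 2 := by
        calc ‖ζ a‖ ^ 4 = ‖ζ a‖ ^ 2 * ‖ζ a‖ ^ 2 := by ring
          _ ≤ 1 / 1000 * ‖ζ a‖ ^ 2 := by
            refine mul_le_mul_of_nonneg_right ?_ (sq_nonneg _)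
            calc ‖ζ a‖ ^ 2 ≤ (1 / 1000) ^ 2 := pow_le_pow_left₀ h4 h2 2
              _ ≤ 1 / 1000 := by norm_num
      have h7 : 0 ≤ ‖ζ a‖ ^ 2 := sq_nonneg _
      linarith
    refine (Finset.sum_le_sum h1).trans ?_
    rw [← Finset.mul_sum]
    exact mul_le_mul_of_nonneg_left hQA (by norm_num)
  -- reality
  set S : ℝ := x1 - sg U pm 1 with hS
  set d : ℝ := x1 ^ 2 - x2 - uu U pm with hd
  have rS : ((S : ℝ) : ℂ) = ∑ a ∈ A, ζ a := by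
    rw [hS, Complex.ofReal_sub, hx1, e1]; ring
  have rd : ((d : ℝ) : ℂ) = 2 * ((sg U pm 1 : ℝ) : ℂ) * (S : ℂ) + (S : ℂ) ^ 2 -
      2 * ∑ a ∈ A, w a * ζ a - ∑ a ∈ A, (ζ a) ^ 2 := by
    rw [hd]
    push_cast
    rw [hx1, hx2, e1, e2, rS]
    unfold uu
    push_cast
    ring
  set T : ℂ := 1 / 84 * ((-1) ^ e * (4 * ((eta U pm : ℝ) : ℂ))) * ∑ a ∈ PAR e, ζ a * (w a) ^ 83
    with hT
  set R2 : ℂ := ∑ a ∈ A, (ζ a) ^ 2 with hR2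
  set R4 : ℂ := ∑ a ∈ A, (6 * (w a) ^ 2 * (ζ a) ^ 2 + 4 * w a * (ζ a) ^ 3 + (ζ a) ^ 4) with hR4
  have key : ((h : ℝ) : ℂ) - ((eta U pm + L U pm σ : ℝ) : ℂ) =
      T + 3 / 2 * ((sg U pm 1 : ℝ) : ℂ) ^ 2 * (S : ℂ) ^ 2 + ((sg U pm 1 : ℝ) : ℂ) * (S : ℂ) ^ 3 +
      (S : ℂ) ^ 4 / 4 + ((uu U pm : ℝ) : ℂ) / 4 * (S : ℂ) ^ 2 + (d : ℂ) ^ 2 / 8 - R4 / 4 -
      ((uu U pm : ℝ) : ℂ) / 4 * R2 := by
    rw [← rS] at hbr
    have hP : (∑ a ∈ A, z a) ^ 2 - ∑ a ∈ A, (z a) ^ 2 = ((uu U pm : ℝ) : ℂ) + (d : ℂ) := by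
      rw [← hx1, ← hx2, hd]
      push_cast
      ring
    rw [hP, e1, e4, ← rS] at hh
    have hal : ((al U pm : ℝ) : ℂ) = ((sg U pm 1 : ℝ) : ℂ) ^ 3 +
        ((uu U pm : ℝ) : ℂ) / 2 * ((sg U pm 1 : ℝ) : ℂ) := by
      unfold al; push_cast; ring
    have hbe : ((be U pm : ℝ) : ℂ) = ((uu U pm : ℝ) : ℂ) / 2 := by
      unfold be; push_cast; ring
    have het' : ((eta U pm : ℝ) : ℂ) = (((sg U pm 1 : ℝ) : ℂ) ^ 4 - ((sg U pm 4 : ℝ) : ℂ)) / 4 +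
        ((uu U pm : ℝ) : ℂ) ^ 2 / 8 := by
      unfold eta; push_cast; ring
    rw [hal, hbe] at hbr
    rw [hh, Complex.ofReal_add, het']
    linear_combination hbr + ((uu U pm : ℝ) : ℂ) / 4 * rd
  have key2 : h - (eta U pm + L U pm σ) = T.re + 3 / 2 * (sg U pm 1) ^ 2 * S ^ 2 +
      sg U pm 1 * S ^ 3 + S ^ 4 / 4 + uu U pm / 4 * S ^ 2 + d ^ 2 / 8 - R4.re / 4 -
      uu U pm / 4 * R2.re := by
    have k1 : ((h - (eta U pm + L U pm σ) : ℝ) : ℂ) = T + ((3 / 2 * (sg U pm 1) ^ 2 * S ^ 2 +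
      sg U pm 1 * S ^ 3 + S ^ 4 / 4 + uu U pm / 4 * S ^ 2 + d ^ 2 / 8 : ℝ) : ℂ) -
      ((1 / 4 : ℝ) : ℂ) * R4 - ((uu U pm / 4 : ℝ) : ℂ) * R2 := by
      rw [Complex.ofReal_sub, key]
      push_cast
      ring
    have k2 := congrArg Complex.re k1
    simp only [Complex.sub_re, Complex.add_re, Complex.ofReal_re, Complex.re_ofReal_mul] at k2
    rw [k2]
    ring
  rw [key2]
  have nS : |S| ≤ 131 / 10 ^ 6 := by
    rw [← Real.norm_eq_abs, ← Complex.norm_real, rS]; exact q1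
  apply real_est (sg U pm 1) (uu U pm) S d T.re R2.re R4.re hb1 hb2 hu nS
  · have h1 : |d| = ‖((d : ℝ) : ℂ)‖ := by rw [Complex.norm_real, Real.norm_eq_abs]
    rw [h1, rd]
    have n1 : ‖2 * ((sg U pm 1 : ℝ) : ℂ) * (S : ℂ)‖ ≤ 2 * sg U pm 1 * (131 / 10 ^ 6) := by
      rw [norm_mul, norm_mul, Complex.norm_real, Complex.norm_real, Real.norm_eq_abs,
        Real.norm_eq_abs, abs_of_nonneg (by linarith : (0:ℝ) ≤ sg U pm 1)]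
      have : ‖(2 : ℂ)‖ = 2 := by norm_num
      rw [this]
      exact mul_le_mul_of_nonneg_left nS (by linarith)
    have n2 : ‖(S : ℂ) ^ 2‖ ≤ (131 / 10 ^ 6) ^ 2 := by
      rw [norm_pow, Complex.norm_real, Real.norm_eq_abs]
      exact pow_le_pow_left₀ (abs_nonneg _) nS 2
    have n3 : ‖2 * ∑ a ∈ A, w a * ζ a‖ ≤ 2 * (131 / 10 ^ 6) := by
      rw [norm_mul]
      have : ‖(2 : ℂ)‖ = 2 := by norm_num
      rw [this]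
      exact mul_le_mul_of_nonneg_left q2 (by norm_num)
    refine (norm_sub_le _ _).trans (add_le_add ((norm_sub_le _ _).trans (add_le_add
      ((norm_add_le _ _).trans (add_le_add n1 n2)) n3)) q3)
  · refine (Complex.abs_re_le_norm _).trans ?_
    rw [hT, norm_mul, norm_mul, norm_mul, norm_mul, norm_pow, norm_neg, norm_one, one_pow,
      one_mul, Complex.norm_real, Real.norm_eq_abs]
    have h1 : ‖(1 / 84 : ℂ)‖ = 1 / 84 := by norm_num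
    have h2 : ‖(4 : ℂ)‖ = 4 := by norm_num
    rw [h1, h2]
    calc 1 / 84 * (4 * |eta U pm|) * ‖∑ a ∈ PAR e, ζ a * (w a) ^ 83‖ ≤
        1 / 84 * (4 * (1 / 1000)) * (8 / 10 ^ 8) := by
          refine mul_le_mul ?_ h83 (norm_nonneg _) (by norm_num)
          exact mul_le_mul_of_nonneg_left (mul_le_mul_of_nonneg_left het (by norm_num)) (by norm_num)
      _ ≤ 1 / 10 ^ 11 := by norm_num
  · exact (Complex.abs_re_le_norm _).trans q3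
  · exact (Complex.abs_re_le_norm _).trans q4

end Pool.Agent.N14.TwoN.B4b
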