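import Mathlib
import Pool.Agent.N14.TwoN.Defs

set_option autoImplicit false

namespace Pool.Agent.N14.TwoN.B5

open Polynomial
open Pool.Agent.N14.TwoN

/-- sum of the absolute values of the coefficients -/
noncomputable def cpN (G : ℂ[X]) : ℝ := ∑ i ∈ Finset.range 85, ‖G.coeff i‖

theorem cp_aux0 (v : ℂ) (hv : ‖v‖ = 1) (H : ℂ[X]) (hH : H.natDegree ≤ 43) (j : ℕ) (hj : j ≤ 84) :
    ‖H.coeff (84 - j)‖ ≤ ∑ k ∈ Finset.Ico (85 - j) 85, ‖((X - C v) * H).coeff k‖ := by
  induction j with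
  | zero =>
    rw [Nat.sub_zero, coeff_eq_zero_of_natDegree_lt (by omega)]
    simp
  | succ j ih =>
    have ih' := ih (by omega)
    have e1 : 85 - (j + 1) = 84 - j := by omega
    have e2 : 84 - j = (84 - (j + 1)) + 1 := by omega
    have e3 : 84 - j + 1 = 85 - j := by omega
    rw [e1, Finset.sum_eq_sum_Ico_succ_bot (by omega : 84 - j < 85), e3]
    have h1 : ((X - C v) * H).coeff (84 - j) =
        H.coeff (84 - (j + 1)) - v * H.coeff (84 - j) := by
      rw [e2, sub_mul, coeff_sub, coeff_X_mul, coeff_C_mul]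
    have h2 : H.coeff (84 - (j + 1)) = ((X - C v) * H).coeff (84 - j) + v * H.coeff (84 - j) := by
      rw [h1]; ring
    calc ‖H.coeff (84 - (j + 1))‖ ≤ ‖((X - C v) * H).coeff (84 - j)‖ +
          ‖v * H.coeff (84 - j)‖ := by rw [h2]; exact norm_add_le _ _
      _ = ‖((X - C v) * H).coeff (84 - j)‖ + ‖H.coeff (84 - j)‖ := by rw [norm_mul, hv, one_mul]
      _ ≤ _ := by linarith

theorem cp_aux1 (v : ℂ) (hv : ‖v‖ = 1) (H : ℂ[X]) (hH : H.natDegree ≤ 43) (i : ℕ) :
    ‖H.coeff i‖ ≤ cpN ((X - C v) * H) := by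
  by_cases hi : i ≤ 84
  · have h1 := cp_aux0 v hv H hH (84 - i) (by omega)
    have e : 84 - (84 - i) = i := by omega
    rw [e] at h1
    refine h1.trans ?_
    unfold cpN
    rw [Finset.range_eq_Ico]
    exact Finset.sum_le_sum_of_subset_of_nonneg (Finset.Ico_subset_Ico (Nat.zero_le _) le_rfl)
      fun k _ _ => norm_nonneg _
  · rw [coeff_eq_zero_of_natDegree_lt (by omega), norm_zero]
    exact Finset.sum_nonneg fun k _ => norm_nonneg _

theorem cp_aux2 (v : ℂ) (hv : ‖v‖ = 1) (H : ℂ[X]) (hH : H.natDegree ≤ 43) :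
    cpN H ≤ 44 * cpN ((X - C v) * H) := by
  have h1 : cpN H = ∑ i ∈ Finset.range 44, ‖H.coeff i‖ := by
    unfold cpN
    symm
    refine Finset.sum_subset (Finset.range_mono (by norm_num)) fun k _ hk => ?_
    rw [Finset.mem_range, not_lt] at hk
    rw [coeff_eq_zero_of_natDegree_lt (by omega), norm_zero]
  rw [h1]
  refine (Finset.sum_le_sum fun i _ => cp_aux1 v hv H hH i).trans ?_
  simp

/-- mixed product -/
noncomputable def cpP (A : Finset ℕ) (w : ℕ → ℂ) : ℂ[X] := ∏ a ∈ A, (X - C (w a))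

theorem cp_ind (A : Finset ℕ) (hA : A.card ≤ 44) (v z : ℕ → ℂ) (hv : ∀ a ∈ A, ‖v a‖ = 1)
    (B : Finset ℕ) : B ⊆ A →
    cpN (cpP A (fun a => if a ∈ B then z a else v a)) ≤
      cpN (cpP A v) * Real.exp (44 * ∑ a ∈ B, ‖z a - v a‖) ∧
    ∀ i, ‖(cpP A (fun a => if a ∈ B then z a else v a)).coeff i - (cpP A v).coeff i‖ ≤
      (∑ a ∈ B, ‖z a - v a‖) * Real.exp (44 * ∑ a ∈ B, ‖z a - v a‖) * cpN (cpP A v) := by
  classical
  induction B using Finset.induction_on with
  | empty =>
    intro _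
    have : (fun a => if a ∈ (∅ : Finset ℕ) then z a else v a) = v := by
      funext a
      simp
    rw [this]
    simp
  | insert b B hb ih =>
    intro hBA
    have hbA : b ∈ A := hBA (Finset.mem_insert_self _ _)
    obtain ⟨ih1, ih2⟩ := ih fun x hx => hBA (Finset.mem_insert_of_mem hx)
    set w : ℕ → ℂ := fun a => if a ∈ B then z a else v a with hw
    set w' : ℕ → ℂ := fun a => if a ∈ insert b B then z a else v a with hw'
    set H : ℂ[X] := ∏ a ∈ A.erase b, (X - C (w a)) with hH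
    have e1 : cpP A w = (X - C (v b)) * H := by
      unfold cpP
      rw [← Finset.mul_prod_erase A _ hbA]
      have : w b = v b := by simp [hw, hb]
      rw [this]
    have e2 : cpP A w' = (X - C (z b)) * H := by
      unfold cpP
      rw [← Finset.mul_prod_erase A _ hbA]
      have : w' b = z b := by simp [hw']
      rw [this]
      congr 1
      refine Finset.prod_congr rfl fun a ha => ?_
      have hab : a ≠ b := Finset.ne_of_mem_erase ha
      have : w' a = w a := by simp [hw', hw, hab]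
      rw [this]
    have hdeg : H.natDegree ≤ 43 := by
      refine (natDegree_prod_le _ _).trans ?_
      simp only [natDegree_X_sub_C, Finset.sum_const, smul_eq_mul, mul_one]
      rw [Finset.card_erase_of_mem hbA]
      omega
    have hvb := hv b hbA
    have e3 : ∀ i, (cpP A w').coeff i = (cpP A w).coeff i + (v b - z b) * H.coeff i := by
      intro i
      have : cpP A w' = cpP A w + C (v b - z b) * H := by
        rw [e1, e2, map_sub]
        ring
      rw [this, coeff_add, coeff_C_mul]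
    have hHi : ∀ i, ‖H.coeff i‖ ≤ cpN (cpP A w) := by
      intro i
      rw [e1]
      exact cp_aux1 _ hvb H hdeg i
    have hHN : cpN H ≤ 44 * cpN (cpP A w) := by
      rw [e1]
      exact cp_aux2 _ hvb H hdeg
    set ε : ℝ := ‖z b - v b‖ with hε
    have hε0 : 0 ≤ ε := norm_nonneg _
    have hnorm : ‖v b - z b‖ = ε := norm_sub_rev _ _
    set S : ℝ := ∑ a ∈ B, ‖z a - v a‖ with hS
    have hS0 : 0 ≤ S := Finset.sum_nonneg fun _ _ => norm_nonneg _
    have hN0 : 0 ≤ cpN (cpP A v) := Finset.sum_nonneg fun _ _ => norm_nonneg _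
    have hsum : ∑ a ∈ insert b B, ‖z a - v a‖ = ε + S := Finset.sum_insert hb
    rw [hsum]
    have hexp : Real.exp (44 * (ε + S)) = Real.exp (44 * ε) * Real.exp (44 * S) := by
      rw [← Real.exp_add]
      congr 1
      ring
    have h36 : 1 + 44 * ε ≤ Real.exp (44 * ε) := by
      have := Real.add_one_le_exp (44 * ε)
      linarith
    have hNw0 : 0 ≤ cpN (cpP A w) := Finset.sum_nonneg fun _ _ => norm_nonneg _
    refine ⟨?_, fun i => ?_⟩
    · have h1 : cpN (cpP A w') ≤ cpN (cpP A w) + ε * cpN H := by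
        unfold cpN
        rw [Finset.mul_sum, ← Finset.sum_add_distrib]
        refine Finset.sum_le_sum fun i _ => ?_
        rw [e3, ← hnorm, ← norm_mul]
        exact norm_add_le _ _
      have h2 : cpN (cpP A w') ≤ (1 + 44 * ε) * cpN (cpP A w) := by
        have := mul_le_mul_of_nonneg_left hHN hε0
        linarith
      refine h2.trans ?_
      rw [hexp]
      calc (1 + 44 * ε) * cpN (cpP A w) ≤ Real.exp (44 * ε) *
            (cpN (cpP A v) * Real.exp (44 * S)) :=
            mul_le_mul h36 ih1 hNw0 (Real.exp_pos _).le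
        _ = _ := by ring
    · have h1 : ‖(cpP A w').coeff i - (cpP A v).coeff i‖ ≤
          ε * cpN (cpP A w) + S * Real.exp (44 * S) * cpN (cpP A v) := by
        have h2 : (cpP A w').coeff i - (cpP A v).coeff i =
            (v b - z b) * H.coeff i + ((cpP A w).coeff i - (cpP A v).coeff i) := by
          rw [e3]; ring
        rw [h2]
        refine (norm_add_le _ _).trans (add_le_add ?_ (ih2 i))
        rw [norm_mul, hnorm]
        exact mul_le_mul_of_nonneg_left (hHi i) hε0
      refine h1.trans ?_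
      have h3 : ε * cpN (cpP A w) ≤ ε * (cpN (cpP A v) * Real.exp (44 * S)) :=
        mul_le_mul_of_nonneg_left ih1 hε0
      have h4 : Real.exp (44 * S) ≤ Real.exp (44 * (ε + S)) :=
        Real.exp_le_exp.2 (by linarith)
      have h5 : (ε + S) * Real.exp (44 * S) * cpN (cpP A v) ≤
          (ε + S) * Real.exp (44 * (ε + S)) * cpN (cpP A v) :=
        mul_le_mul_of_nonneg_right (mul_le_mul_of_nonneg_left h4 (by linarith)) hN0
      linarith

theorem coeff_pert (A : Finset ℕ) (hA : A.card ≤ 44) (v z : ℕ → ℂ) (hv : ∀ a ∈ A, ‖v a‖ = 1)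
    (hz : ∑ a ∈ A, ‖z a - v a‖ ≤ 19 / 100000) (i : ℕ) :
    ‖(∏ a ∈ A, (X - C (z a))).coeff i - (∏ a ∈ A, (X - C (v a))).coeff i‖
      ≤ 1 / 5000 * ∑ i ∈ Finset.range 85, ‖(∏ a ∈ A, (X - C (v a))).coeff i‖ := by
  obtain ⟨-, h2⟩ := cp_ind A hA v z hv A Finset.Subset.rfl
  have h3 := h2 i
  have e : cpP A (fun a => if a ∈ A then z a else v a) = ∏ a ∈ A, (X - C (z a)) := by
    unfold cpP
    refine Finset.prod_congr rfl fun a ha => ?_
    simp only [if_pos ha]
  rw [e] at h3
  refine h3.trans ?_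
  have hN0 : 0 ≤ cpN (cpP A v) := Finset.sum_nonneg fun _ _ => norm_nonneg _
  have hS0 : 0 ≤ ∑ a ∈ A, ‖z a - v a‖ := Finset.sum_nonneg fun _ _ => norm_nonneg _
  have hexp : Real.exp (44 * ∑ a ∈ A, ‖z a - v a‖) ≤ 105 / 100 := by
    have h1 : Real.exp (44 * ∑ a ∈ A, ‖z a - v a‖) ≤ Real.exp (44 * (19 / 100000)) :=
      Real.exp_le_exp.2 (by linarith)
    refine h1.trans ?_
    have h4 := Real.add_one_le_exp (-(44 * (19 / 100000) : ℝ))
    have h5 := Real.exp_pos (44 * (19 / 100000) : ℝ)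
    have h6 : Real.exp (44 * (19 / 100000) : ℝ) * Real.exp (-(44 * (19 / 100000) : ℝ)) = 1 := by
      rw [← Real.exp_add, add_neg_cancel, Real.exp_zero]
    nlinarith
  have h7 : (∑ a ∈ A, ‖z a - v a‖) * Real.exp (44 * ∑ a ∈ A, ‖z a - v a‖) ≤ 1 / 5000 := by
    calc _ ≤ (19 / 100000 : ℝ) * (105 / 100) :=
          mul_le_mul hz hexp (Real.exp_pos _).le (by norm_num)
      _ ≤ 1 / 5000 := by norm_num
  exact mul_le_mul_of_nonneg_right h7 hN0

end Pool.Agent.N14.TwoN.B5
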