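import Mathlib
import Pool.Agent.N14.TwoN.Defs

set_option autoImplicit false
/-! Irreducible 2n conjecture for sign patterns: counterexample of order 83. -/

namespace Pool.Agent.N14.TwoN.B7a

open Polynomial
open Pool.Agent.N14.TwoN

theorem w_norm (a : ℕ) : ‖w a‖ = 1 := by
  unfold w
  exact Complex.norm_exp_ofReal_mul_I _

theorem w_pow (e a : ℕ) (ha : a ∈ PAR e) : (w a) ^ 84 = (-1) ^ e := by
  unfold PAR at ha
  rw [Finset.mem_filter] at ha
  have h1 : (w a) ^ 84 = (-1) ^ a := by
    unfold w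
    rw [← Complex.exp_nat_mul]
    have h2 : ((84 : ℕ) : ℂ) * (((Real.pi * a / 84 : ℝ) : ℂ) * Complex.I) =
        (a : ℂ) * ((Real.pi : ℂ) * Complex.I) := by
      push_cast
      ring
    rw [h2, Complex.exp_nat_mul, Complex.exp_pi_mul_I]
  rw [h1, neg_one_pow_eq_pow_mod_two, ha.2]

theorem w_inj (a b : ℕ) (ha : a < 168) (hb : b < 168) (h : w a = w b) : a = b := by
  unfold w at h
  rw [Complex.exp_eq_exp_iff_exists_int] at h
  obtain ⟨n, hn⟩ := h
  have hpi : (Real.pi : ℂ) ≠ 0 := by exact_mod_cast Real.pi_ne_zero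
  have h1 : ((Real.pi : ℂ) * Complex.I) * ((a : ℂ) - (b + 168 * n)) = 0 := by
    push_cast at hn
    linear_combination 84 * hn
  rcases mul_eq_zero.1 h1 with h2 | h2
  · exact absurd h2 (mul_ne_zero hpi Complex.I_ne_zero)
  · have h3 : (a : ℂ) = ((b + 168 * n : ℤ) : ℂ) := by
      push_cast
      linear_combination h2
    have h4 : (a : ℤ) = b + 168 * n := by exact_mod_cast h3
    omega

theorem w_dist (e a b : ℕ) (ha : a ∈ PAR e) (hb : b ∈ PAR e) (h : a ≠ b) :
    1 / 100 ≤ ‖w a - w b‖ := by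
  by_contra hcon
  rw [not_le] at hcon
  have ha' : a < 168 := by
    unfold PAR at ha
    rw [Finset.mem_filter, Finset.mem_range] at ha
    exact ha.1
  have hb' : b < 168 := by
    unfold PAR at hb
    rw [Finset.mem_filter, Finset.mem_range] at hb
    exact hb.1
  have hb0 : w b ≠ 0 := by
    intro h0
    have := w_norm b
    rw [h0, norm_zero] at this
    exact zero_ne_one this
  set u : ℂ := w a / w b with hu
  have hu1 : ‖u‖ = 1 := by rw [hu, norm_div, w_norm, w_norm, div_one]
  have hune : u ≠ 1 := by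
    intro h1
    rw [hu, div_eq_one_iff_eq hb0] at h1
    exact h (w_inj a b ha' hb' h1)
  have hu70 : u ^ 84 = 1 := by
    rw [hu, div_pow, w_pow e a ha, w_pow e b hb, div_self]
    exact pow_ne_zero _ (by norm_num)
  have hud : ‖u - 1‖ < 1 / 100 := by
    have h1 : u - 1 = (w a - w b) / w b := by
      rw [hu, sub_div, div_self hb0]
    rw [h1, norm_div, w_norm, div_one]
    exact hcon
  have hpow : ∀ i : ℕ, ‖u ^ i - 1‖ ≤ i * ‖u - 1‖ := by
    intro i
    induction i with
    | zero => simp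
    | succ i ih =>
      have h1 : u ^ (i + 1) - 1 = u * (u ^ i - 1) + (u - 1) := by ring
      rw [h1]
      refine (norm_add_le _ _).trans ?_
      rw [norm_mul, hu1, one_mul]
      push_cast
      linarith
  have hsum : ∑ i ∈ Finset.range 84, u ^ i = 0 := by
    have h1 := geom_sum_mul u 84
    rw [hu70, sub_self] at h1
    rcases mul_eq_zero.1 h1 with h2 | h2
    · exact h2
    · exact absurd (sub_eq_zero.1 h2) hune
  have h70 : ∑ i ∈ Finset.range 84, (u ^ i - 1) = -84 := by
    rw [Finset.sum_sub_distrib, hsum]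
    simp
  have h71 : (84 : ℝ) = ‖∑ i ∈ Finset.range 84, (u ^ i - 1)‖ := by
    rw [h70]
    simp
  have h72 : ‖∑ i ∈ Finset.range 84, (u ^ i - 1)‖ ≤ ∑ i ∈ Finset.range 84, (i : ℝ) * (1 / 100) := by
    refine (norm_sum_le _ _).trans (Finset.sum_le_sum fun i _ => (hpow i).trans ?_)
    exact mul_le_mul_of_nonneg_left hud.le (Nat.cast_nonneg i)
  have h73 : ∑ i ∈ Finset.range 84, (i : ℝ) * (1 / 100) = 3486 / 100 := by
    rw [← Finset.sum_mul]
    have h74 : ∑ i ∈ Finset.range 84, (i : ℝ) = ((∑ i ∈ Finset.range 84, i : ℕ) : ℝ) := by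
      push_cast
      rfl
    have h75 : ∑ i ∈ Finset.range 84, i = 3486 := by decide +kernel
    rw [h74, h75]
    norm_num
  rw [← h71, h73] at h72
  norm_num at h72

theorem w_conj (a : ℕ) (ha : a ≤ 168) : (starRingEnd ℂ) (w a) = w (168 - a) := by
  unfold w
  rw [← Complex.exp_conj, Complex.exp_eq_exp_iff_exists_int]
  refine ⟨-1, ?_⟩
  rw [map_mul, Complex.conj_I, Complex.conj_ofReal, Nat.cast_sub ha]
  push_cast
  ring

end Pool.Agent.N14.TwoN.B7a
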