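import Mathlib
import Pool.Agent.N14.TwoN.Defs

set_option autoImplicit false

namespace Pool.Agent.N14.TwoN.B7d

open Polynomial
open Pool.Agent.N14.TwoN

/-- The elementary symmetric functions of degree at most 4 in terms of the power sums. -/
noncomputable def ef (A : Finset ℕ) (z : ℕ → ℂ) : ℕ → ℂ
  | 0 => 1
  | 1 => ∑ a ∈ A, z a
  | 2 => ((∑ a ∈ A, z a) ^ 2 - ∑ a ∈ A, (z a) ^ 2) / 2
  | 3 => ((∑ a ∈ A, z a) ^ 3 - 3 * (∑ a ∈ A, z a) * (∑ a ∈ A, (z a) ^ 2)
      + 2 * ∑ a ∈ A, (z a) ^ 3) / 6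
  | 4 => ((∑ a ∈ A, z a) ^ 4 - 6 * (∑ a ∈ A, z a) ^ 2 * (∑ a ∈ A, (z a) ^ 2)
      + 3 * (∑ a ∈ A, (z a) ^ 2) ^ 2 + 8 * (∑ a ∈ A, z a) * (∑ a ∈ A, (z a) ^ 3)
      - 6 * ∑ a ∈ A, (z a) ^ 4) / 24
  | _ => 0

theorem ef_insert (A : Finset ℕ) (z : ℕ → ℂ) (b : ℕ) (hb : b ∉ A) (k : ℕ) (hk : k < 4) :
    ef (insert b A) z (k + 1) = ef A z (k + 1) + z b * ef A z k := by
  interval_cases k <;> simp only [ef, Finset.sum_insert hb] <;> ring

theorem ef_zero (A : Finset ℕ) (z : ℕ → ℂ) : ∀ k, k ≤ 4 → A.card < k → ef A z k = 0 := by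
  classical
  induction A using Finset.induction_on with
  | empty =>
    intro k hk h
    rw [Finset.card_empty] at h
    interval_cases k <;> simp [ef]
  | insert b A hb ih =>
    intro k hk h
    rw [Finset.card_insert_of_notMem hb] at h
    obtain ⟨m, rfl⟩ : ∃ m, k = m + 1 := ⟨k - 1, by omega⟩
    rw [ef_insert A z b hb m (by omega), ih (m + 1) hk (by omega), ih m (by omega) (by omega)]
    ring

theorem coeff_ef (A : Finset ℕ) (z : ℕ → ℂ) : ∀ k n, k ≤ 4 → A.card = n + k →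
    (∏ a ∈ A, (X - C (z a))).coeff n = (-1) ^ k * ef A z k := by
  classical
  induction A using Finset.induction_on with
  | empty =>
    intro k n hk h
    rw [Finset.card_empty] at h
    have h1 : n = 0 := by omega
    have h2 : k = 0 := by omega
    subst h1
    subst h2
    simp [ef]
  | insert b A hb ih =>
    intro k n hk h
    rw [Finset.card_insert_of_notMem hb] at h
    rw [Finset.prod_insert hb]
    have hmul : ∀ m, ((X - C (z b)) * ∏ a ∈ A, (X - C (z a))).coeff (m + 1) =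
        (∏ a ∈ A, (X - C (z a))).coeff m - z b * (∏ a ∈ A, (X - C (z a))).coeff (m + 1) := by
      intro m
      rw [sub_mul, coeff_sub, coeff_X_mul, coeff_C_mul]
    have hmul0 : ((X - C (z b)) * ∏ a ∈ A, (X - C (z a))).coeff 0 =
        - (z b * (∏ a ∈ A, (X - C (z a))).coeff 0) := by
      rw [sub_mul, coeff_sub, coeff_C_mul]
      simp
    have hdeg : (∏ a ∈ A, (X - C (z a))).natDegree = A.card := by
      rw [natDegree_prod_of_monic _ _ (fun a _ => monic_X_sub_C _)]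
      simp
    rcases k with _ | k
    · obtain ⟨m, rfl⟩ : ∃ m, n = m + 1 := ⟨n - 1, by omega⟩
      rw [hmul, ih 0 m (by omega) (by omega), coeff_eq_zero_of_natDegree_lt (by rw [hdeg]; omega)]
      simp [ef]
    · rw [ef_insert A z b hb k (by omega)]
      rcases n with _ | m
      · rw [hmul0, ih k 0 (by omega) (by omega), ef_zero A z (k + 1) hk (by omega)]
        ring
      · rw [hmul, ih (k + 1) m hk (by omega), ih k (m + 1) (by omega) (by omega)]
        ring

theorem coeff_top1 (A : Finset ℕ) (n : ℕ) (hA : A.card = n + 1) (z : ℕ → ℂ) :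
    (∏ a ∈ A, (X - C (z a))).coeff n = -∑ a ∈ A, z a := by
  rw [coeff_ef A z 1 n (by norm_num) hA]
  simp [ef]

/-- The Horner value `h_4` in terms of the power sums. -/
theorem horner4 (A : Finset ℕ) (n : ℕ) (hA : A.card = n + 4) (z : ℕ → ℂ) (F : ℝ[X])
    (hF : F.map (algebraMap ℝ ℂ) = ∏ a ∈ A, (X - C (z a))) :
    ((hs F (n + 4) 4 : ℝ) : ℂ) = ((∑ a ∈ A, z a) ^ 4 - ∑ a ∈ A, (z a) ^ 4) / 4 +
      ((∑ a ∈ A, z a) ^ 2 - ∑ a ∈ A, (z a) ^ 2) ^ 2 / 8 := by
  have hc : ∀ i, ((F.coeff i : ℝ) : ℂ) = (∏ a ∈ A, (X - C (z a))).coeff i := by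
    intro i
    rw [← hF, Polynomial.coeff_map]
    rfl
  have h1 := coeff_ef A z 1 (n + 3) (by norm_num) (by omega)
  have h2 := coeff_ef A z 2 (n + 2) (by norm_num) (by omega)
  have h3 := coeff_ef A z 3 (n + 1) (by norm_num) (by omega)
  have h4 := coeff_ef A z 4 n (by norm_num) (by omega)
  rw [← hc] at h1 h2 h3 h4
  have e : hs F (n + 4) 4 = F.coeff (n + 3) ^ 2 * F.coeff (n + 2) - F.coeff (n + 3) * F.coeff (n + 1)
      + F.coeff n := by
    have i1 : n + 4 - 1 = n + 3 := rfl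
    have i2 : n + 4 - (0 + 1) = n + 3 := rfl
    have i3 : n + 4 - (1 + 1) = n + 2 := rfl
    have i4 : n + 4 - (2 + 1) = n + 1 := rfl
    have i5 : n + 4 - (3 + 1) = n := rfl
    simp only [hs, i1, i2, i3, i4, i5]
    ring
  rw [e]
  push_cast
  rw [h1, h2, h3, h4]
  simp only [ef]
  ring

/-- The two first power sums in terms of the coefficients. -/
theorem psum12 (A : Finset ℕ) (n : ℕ) (hA : A.card = n + 4) (z : ℕ → ℂ) (F : ℝ[X])
    (hF : F.map (algebraMap ℝ ℂ) = ∏ a ∈ A, (X - C (z a))) :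
    ∃ x1 x2 : ℝ, ((x1 : ℝ) : ℂ) = ∑ a ∈ A, z a ∧ ((x2 : ℝ) : ℂ) = ∑ a ∈ A, (z a) ^ 2 := by
  have hc : ∀ i, ((F.coeff i : ℝ) : ℂ) = (∏ a ∈ A, (X - C (z a))).coeff i := by
    intro i
    rw [← hF, Polynomial.coeff_map]
    rfl
  have h1 := coeff_ef A z 1 (n + 3) (by norm_num) (by omega)
  have h2 := coeff_ef A z 2 (n + 2) (by norm_num) (by omega)
  rw [← hc] at h1 h2
  simp only [ef] at h1 h2
  refine ⟨-F.coeff (n + 3), F.coeff (n + 3) ^ 2 - 2 * F.coeff (n + 2), ?_, ?_⟩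
  · push_cast
    rw [h1]
    ring
  · push_cast
    rw [h1, h2]
    ring

theorem coeff_cont (A : Finset ℕ) (z : ℝ → ℕ → ℂ) (s : Set ℝ)
    (hz : ∀ a ∈ A, ContinuousOn (fun τ => z τ a) s) (i : ℕ) :
    ContinuousOn (fun τ => (∏ a ∈ A, (X - C (z τ a))).coeff i) s := by
  classical
  induction A using Finset.induction_on generalizing i with
  | empty => simpa using continuousOn_const
  | insert b A hb ih =>
    have ih' := fun i => ih (fun a ha => hz a (Finset.mem_insert_of_mem ha)) i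
    have hzb := hz b (Finset.mem_insert_self _ _)
    rcases i with _ | i
    · have : (fun τ => (∏ a ∈ insert b A, (X - C (z τ a))).coeff 0) =
          fun τ => - (z τ b * (∏ a ∈ A, (X - C (z τ a))).coeff 0) := by
        funext τ
        rw [Finset.prod_insert hb, sub_mul, coeff_sub, coeff_C_mul]
        simp
      rw [this]
      exact (hzb.mul (ih' 0)).neg
    · have : (fun τ => (∏ a ∈ insert b A, (X - C (z τ a))).coeff (i + 1)) =
          fun τ => (∏ a ∈ A, (X - C (z τ a))).coeff i -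
            z τ b * (∏ a ∈ A, (X - C (z τ a))).coeff (i + 1) := by
        funext τ
        rw [Finset.prod_insert hb, sub_mul, coeff_sub, coeff_X_mul, coeff_C_mul]
      rw [this]
      exact (ih' i).sub (hzb.mul (ih' (i + 1)))

end Pool.Agent.N14.TwoN.B7d
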