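import Mathlib
import Pool.Agent.N14.TwoN.Defs
import Pool.Agent.N14.TwoN.B1
import Pool.Agent.N14.TwoN.B1b
import Pool.Agent.N14.TwoN.B2
import Pool.Agent.N14.TwoN.B2b
import Pool.Agent.N14.TwoN.B3
import Pool.Agent.N14.TwoN.B4b
import Pool.Agent.N14.TwoN.B5
import Pool.Agent.N14.TwoN.B6
import Pool.Agent.N14.TwoN.B7a
import Pool.Agent.N14.TwoN.B7b
import Pool.Agent.N14.TwoN.B7c
import Pool.Agent.N14.TwoN.B7d
import Pool.Agent.N14.TwoN.B7e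
import Pool.Agent.N14.TwoN.B7f

set_option autoImplicit false

/-! The roots and the two factors as functions of the perturbation. -/

namespace Pool.Agent.N14.TwoN.B7

open Polynomial
open Pool.Agent.N14.TwoN

theorem F_FU_map (e : ℕ) (U : Finset ℕ) (pm : Bool) (hU : U ⊆ UP e) (hp : pm = true → e = 0) :
    (FU U pm).map (algebraMap ℝ ℂ) = ∏ a ∈ full U pm, (X - C (w a)) :=
  B7c.FU_map B7a.w_conj B7a.w_norm e U pm hU hp

theorem F_power_sum (e : ℕ) (U : Finset ℕ) (pm : Bool) (hU : U ⊆ UP e) (hp : pm = true → e = 0)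
    (m : ℕ) : ∑ a ∈ full U pm, (w a) ^ m = ((sg U pm m : ℝ) : ℂ) :=
  B7c.power_sum B7a.w_conj B7a.w_norm e U pm hU hp m

theorem F_sum_est (e : ℕ) (he : e < 2) (ρ : ℕ → ℝ) (hρ : BoxR ρ) (z : ℕ → ℂ)
    (hz : ∀ a ∈ PAR e, IsRoot' e ρ (w a) (z a)) :
    ∑ a ∈ PAR e, ‖z a - w a‖ ^ 2 ≤ 812 / 10 ^ 12 ∧
    ∑ a ∈ PAR e, ‖z a - w a - xi1 e ρ (w a)‖ ≤ 8 / 10 ^ 8 :=
  B3.sum_est B2.parseval B1b.root_est B7a.w_pow e he ρ hρ z hz

theorem F_z_conj (e : ℕ) (he : e < 2) (ρ : ℕ → ℝ) (hρ : BoxR ρ) (z : ℕ → ℂ)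
    (hz : ∀ a ∈ PAR e, IsRoot' e ρ (w a) (z a)) (a b : ℕ) (ha : a ∈ PAR e) (hb : b ∈ PAR e)
    (hab : (starRingEnd ℂ) (w a) = w b) : (starRingEnd ℂ) (z a) = z b :=
  B7f.z_conj B1.root_existsUnique B7a.w_pow e he ρ hρ z hz a b ha hb hab

theorem lt_of_PAR (e a : ℕ) (ha : a ∈ PAR e) : a < 168 :=
  Finset.mem_range.1 (Finset.mem_filter.1 ha).1

/-- The conjugation on the exponents. -/
def cj (a : ℕ) : ℕ := if a = 0 then 0 else 168 - a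

theorem cj_PAR (e a : ℕ) (ha : a ∈ PAR e) : cj a ∈ PAR e := by
  rw [B7b.mem_PAR] at ha ⊢
  unfold cj
  split_ifs <;> omega

theorem cj_cj (e a : ℕ) (ha : a ∈ PAR e) : cj (cj a) = a := by
  rw [B7b.mem_PAR] at ha
  unfold cj
  split_ifs <;> omega

theorem w_cj (a : ℕ) (ha : a < 168) : (starRingEnd ℂ) (w a) = w (cj a) := by
  unfold cj
  split_ifs with h
  · subst h
    simp [w]
  · exact B7a.w_conj a ha.le

theorem xi1_err (e : ℕ) (he : e < 2) (ρ : ℕ → ℝ) (hρ : BoxR ρ) (z : ℕ → ℂ)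
    (hz : ∀ a ∈ PAR e, IsRoot' e ρ (w a) (z a)) (k : ℕ) (hk : k < 84) :
    ‖(∑ a ∈ PAR e, (z a - w a) * (w a) ^ k) - (if k < 83 then -(ρ (k + 1) : ℂ) else 0)‖ ≤
      8 / 10 ^ 8 := by
  rw [← B2b.xi1_sum B7a.w_pow e he ρ k hk, ← Finset.sum_sub_distrib]
  refine (norm_sum_le _ _).trans (le_trans (le_of_eq ?_) (F_sum_est e he ρ hρ z hz).2)
  refine Finset.sum_congr rfl fun a _ => ?_
  rw [← sub_mul, norm_mul, norm_pow, B7a.w_norm, one_pow, mul_one]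

theorem h83 (e : ℕ) (he : e < 2) (ρ : ℕ → ℝ) (hρ : BoxR ρ) (z : ℕ → ℂ)
    (hz : ∀ a ∈ PAR e, IsRoot' e ρ (w a) (z a)) :
    ‖∑ a ∈ PAR e, (z a - w a) * (w a) ^ 83‖ ≤ 8 / 10 ^ 8 := by
  have h := xi1_err e he ρ hρ z hz 83 (by norm_num)
  rw [if_neg (by norm_num), sub_zero] at h
  exact h

theorem BoxR_zero : BoxR (fun _ => 0) := by
  intro j _
  simp only [abs_zero, bdR]
  positivity

theorem disp_exists (e : ℕ) (he : e < 2) :
    ∃ (z : (ℕ → ℝ) → ℕ → ℂ) (σ : (ℕ → ℝ) → ℕ → ℝ), Disp e z σ := by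
  classical
  let ζ : (ℕ → ℝ) → ℕ → ℂ := fun ρ a => if h : BoxR ρ ∧ a ∈ PAR e then
    (B1.root_existsUnique e he ρ h.1 (w a) (B7a.w_pow e a h.2)).choose else 0
  have hz : ∀ ρ, BoxR ρ → ∀ a ∈ PAR e, IsRoot' e ρ (w a) (ζ ρ a) := by
    intro ρ hB a ha
    have h : BoxR ρ ∧ a ∈ PAR e := ⟨hB, ha⟩
    have h1 : ζ ρ a = (B1.root_existsUnique e he ρ h.1 (w a) (B7a.w_pow e a h.2)).choose :=
      dif_pos h
    rw [h1]
    exact (B1.root_existsUnique e he ρ h.1 (w a) (B7a.w_pow e a h.2)).choose_spec.1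
  have hcz : ∀ (γ : ℝ → ℕ → ℝ) (T : ℝ), (∀ j, Continuous (fun τ => γ τ j)) →
      (∀ τ ∈ Set.Icc 0 T, BoxR (γ τ)) → ∀ a ∈ PAR e,
      ContinuousOn (fun τ => ζ (γ τ) a) (Set.Icc 0 T) := by
    intro γ T hγ hB a ha' τ₀ hτ₀
    unfold ContinuousWithinAt
    rw [tendsto_iff_norm_sub_tendsto_zero]
    have hb : ∀ τ ∈ Set.Icc 0 T, ‖ζ (γ τ) a - ζ (γ τ₀) a‖ ≤
        1 / 50 * ∑ j ∈ Finset.Icc 1 83, |γ τ j - γ τ₀ j| := fun τ hτ =>
      B6.root_lip e he (γ τ) (γ τ₀) (hB τ hτ) (hB τ₀ hτ₀) (w a) _ _ (B7a.w_pow e a ha')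
        (hz _ (hB τ hτ) a ha') (hz _ (hB τ₀ hτ₀) a ha')
    have hg : Continuous (fun τ => 1 / 50 * ∑ j ∈ Finset.Icc 1 83, |γ τ j - γ τ₀ j|) := by
      refine continuous_const.mul (continuous_finsetSum _ fun j _ => ?_)
      exact ((hγ j).sub continuous_const).abs
    have hg0 : Filter.Tendsto (fun τ => 1 / 50 * ∑ j ∈ Finset.Icc 1 83, |γ τ j - γ τ₀ j|)
        (nhdsWithin τ₀ (Set.Icc 0 T)) (nhds 0) := by
      have := (hg.tendsto τ₀).mono_left (nhdsWithin_le_nhds (s := Set.Icc 0 T))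
      simpa using this
    refine squeeze_zero' (Filter.Eventually.of_forall fun _ => norm_nonneg _) ?_ hg0
    filter_upwards [self_mem_nhdsWithin] with τ hτ
    exact hb τ hτ
  have hsig : ∀ ρ, BoxR ρ → ∀ j ∈ Finset.Icc 1 83,
      (((-∑ a ∈ PAR e, (ζ ρ a - w a) * (w a) ^ (j - 1)).re : ℝ) : ℂ) =
        -∑ a ∈ PAR e, (ζ ρ a - w a) * (w a) ^ (j - 1) := by
    intro ρ hB j _
    rw [← Complex.conj_eq_iff_re, map_neg, map_sum]
    congr 1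
    refine Finset.sum_bij' (fun a _ => cj a) (fun a _ => cj a) ?_ ?_ ?_ ?_ ?_
    · exact fun a ha => cj_PAR e a ha
    · exact fun a ha => cj_PAR e a ha
    · exact fun a ha => cj_cj e a ha
    · exact fun a ha => cj_cj e a ha
    · intro a ha
      have h1 := w_cj a (lt_of_PAR e a ha)
      rw [map_mul, map_sub, map_pow, h1,
        F_z_conj e he ρ hB (ζ ρ) (hz ρ hB) a (cj a) ha (cj_PAR e a ha) h1]
  refine ⟨ζ, fun ρ j => (-∑ a ∈ PAR e, (ζ ρ a - w a) * (w a) ^ (j - 1)).re, ?_⟩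
  refine
    { root := hz
      zero := ?_
      sig := hsig
      close := ?_
      contz := hcz
      cont := ?_ }
  · intro a ha
    refine (B1.root_existsUnique e he _ BoxR_zero (w a) (B7a.w_pow e a ha)).unique
      (hz _ BoxR_zero a ha) ⟨?_, ?_⟩
    · rw [sub_self, norm_zero]; norm_num
    · rw [B7a.w_pow e a ha]
      simp [r]
  · intro ρ hB j hj
    have hj' := Finset.mem_Icc.1 hj
    have h1 := xi1_err e he ρ hB (ζ ρ) (hz ρ hB) (j - 1) (by omega)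
    rw [if_pos (by omega), show j - 1 + 1 = j by omega] at h1
    have h2 : ‖(((-∑ a ∈ PAR e, (ζ ρ a - w a) * (w a) ^ (j - 1)).re - ρ j : ℝ) : ℂ)‖ ≤
        8 / 10 ^ 8 := by
      rw [Complex.ofReal_sub, hsig ρ hB j hj]
      have : -∑ a ∈ PAR e, (ζ ρ a - w a) * (w a) ^ (j - 1) - (ρ j : ℂ) =
          -((∑ a ∈ PAR e, (ζ ρ a - w a) * (w a) ^ (j - 1)) - (-(ρ j : ℂ))) := by ring
      rw [this, norm_neg]
      exact h1
    rw [Complex.norm_real, Real.norm_eq_abs] at h2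
    exact h2.trans (by norm_num)
  · intro γ T hγ hB j _
    refine Complex.continuous_re.comp_continuousOn (ContinuousOn.neg ?_)
    refine continuousOn_finsetSum _ fun a ha => ?_
    exact ((hcz γ T hγ hB a ha).sub continuousOn_const).mul continuousOn_const

theorem family_exists (e : ℕ) (z : (ℕ → ℝ) → ℕ → ℂ) (σ : (ℕ → ℝ) → ℕ → ℝ) (hD : Disp e z σ)
    (U : Finset ℕ) (pm : Bool) (hV : Valid e U pm) :
    ∃ F1 F2 : (ℕ → ℝ) → ℝ[X], Family e U pm σ F1 F2 := by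
  classical
  have he : e < 2 := hV.he
  have hz := hD.root
  have hex : ∀ A : Finset ℕ, A ⊆ PAR e → (∀ a ∈ A, (a = 0 ∨ (168 - a) ∈ A)) → ∀ ρ, BoxR ρ →
      ∃ F : ℝ[X], F.map (algebraMap ℝ ℂ) = ∏ a ∈ A, (X - C (z ρ a)) ∧ F.Monic ∧
      F.natDegree = A.card := by
    intro A hA hA' ρ hB
    have hσ : ∀ a ∈ A, cj a ∈ A := by
      intro a ha
      unfold cj
      split_ifs with h0
      · rw [← h0]; exact ha
      · exact (hA' a ha).resolve_left h0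
    refine B7e.real_prod A cj hσ ?_ (z ρ) ?_
    · intro a ha b hb hab
      rw [← cj_cj e a (hA ha), hab, cj_cj e b (hA hb)]
    · intro a ha
      exact F_z_conj e he ρ hB (z ρ) (hz ρ hB) a _ (hA ha) (hA (hσ a ha))
        (w_cj a (lt_of_PAR e a (hA ha)))
  have hsum : ∀ A : Finset ℕ, A ⊆ PAR e → A.card ≤ 44 → ∀ ρ, BoxR ρ →
      ∑ a ∈ A, ‖z ρ a - w a‖ ≤ 19 / 100000 := by
    intro A hA hc ρ hB
    have h1 := (F_sum_est e he ρ hB (z ρ) (hz ρ hB)).1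
    have h2 : (∑ a ∈ A, ‖z ρ a - w a‖) ^ 2 ≤ (A.card : ℝ) * ∑ a ∈ A, ‖z ρ a - w a‖ ^ 2 :=
      sq_sum_le_card_mul_sum_sq
    have h3 : ∑ a ∈ A, ‖z ρ a - w a‖ ^ 2 ≤ ∑ a ∈ PAR e, ‖z ρ a - w a‖ ^ 2 :=
      Finset.sum_le_sum_of_subset_of_nonneg hA fun _ _ _ => sq_nonneg _
    have h4 : (A.card : ℝ) ≤ 44 := by exact_mod_cast hc
    have h5 : 0 ≤ ∑ a ∈ A, ‖z ρ a - w a‖ ^ 2 := Finset.sum_nonneg fun _ _ => sq_nonneg _
    have h6 : (∑ a ∈ A, ‖z ρ a - w a‖) ^ 2 ≤ (19 / 100000) ^ 2 := by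
      calc (∑ a ∈ A, ‖z ρ a - w a‖) ^ 2 ≤ (A.card : ℝ) * ∑ a ∈ A, ‖z ρ a - w a‖ ^ 2 := h2
        _ ≤ 44 * (812 / 10 ^ 12) := mul_le_mul h4 (h3.trans h1) h5 (by norm_num)
        _ ≤ (19 / 100000) ^ 2 := by norm_num
    exact (abs_le_of_sq_le_sq' h6 (by norm_num)).2
  have hcoe : ∀ (F : ℝ[X]) (i : ℕ), (F.map (algebraMap ℝ ℂ)).coeff i = ((F.coeff i : ℝ) : ℂ) := by
    intro F i
    rw [Polynomial.coeff_map]
    rfl
  have hnorm : ∀ x y : ℝ, ‖(x : ℂ) - (y : ℂ)‖ = |x - y| := by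
    intro x y
    rw [← Complex.ofReal_sub, Complex.norm_real, Real.norm_eq_abs]
  have hclose : ∀ A : Finset ℕ, A ⊆ PAR e → A.card ≤ 44 → ∀ ρ, BoxR ρ → ∀ F G : ℝ[X],
      F.map (algebraMap ℝ ℂ) = ∏ a ∈ A, (X - C (z ρ a)) →
      G.map (algebraMap ℝ ℂ) = ∏ a ∈ A, (X - C (w a)) → ∀ i,
      |F.coeff i - G.coeff i| ≤ 1 / 5000 * nrm G := by
    intro A hA hc ρ hB F G hF hG i
    have h1 := B5.coeff_pert A hc w (z ρ) (fun a _ => B7a.w_norm a) (hsum A hA hc ρ hB) i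
    rw [← hF, ← hG] at h1
    simp only [hcoe] at h1
    rw [hnorm] at h1
    simp only [Complex.norm_real, Real.norm_eq_abs] at h1
    exact h1
  have htop : ∀ (A : Finset ℕ) (n : ℕ), A ⊆ PAR e → A.card ≤ 44 → A.card = n + 1 → ∀ ρ, BoxR ρ →
      ∀ F G : ℝ[X],
      F.map (algebraMap ℝ ℂ) = ∏ a ∈ A, (X - C (z ρ a)) →
      G.map (algebraMap ℝ ℂ) = ∏ a ∈ A, (X - C (w a)) →
      |F.coeff n - G.coeff n| ≤ 1 / 5000 := by
    intro A n hA hc hn ρ hB F G hF hG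
    rw [← hnorm, ← hcoe, ← hcoe, hF, hG, B7d.coeff_top1 A n hn, B7d.coeff_top1 A n hn]
    have h1 : -∑ a ∈ A, z ρ a - -∑ a ∈ A, w a = -∑ a ∈ A, (z ρ a - w a) := by
      rw [Finset.sum_sub_distrib]; ring
    rw [h1, norm_neg]
    exact ((norm_sum_le _ _).trans (hsum A hA hc ρ hB)).trans (by norm_num)
  obtain ⟨s1, s2, c1, c2⟩ := B7b.full_union e U pm hV
  have hU2 : comp e U ⊆ UP e := Finset.sdiff_subset
  have hp2 : cpm e pm = true → e = 0 := by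
    unfold cpm
    intro h
    simp at h
    exact h.1
  obtain ⟨-, t1⟩ := B7b.full_sub e U pm hV.hU hV.hp he
  obtain ⟨s2', t2⟩ := B7b.full_sub e (comp e U) (cpm e pm) hU2 hp2 he
  have ex1 := hex _ s1 t1
  have ex2 := hex _ s2' t2
  have m1 := F_FU_map e U pm hV.hU hV.hp
  have m2 := F_FU_map e (comp e U) (cpm e pm) hU2 hp2
  have c1' : (full U pm).card ≤ 44 := c1.le
  have c2' : (full (comp e U) (cpm e pm)).card ≤ 44 := by rw [c2]; norm_num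
  let F1 : (ℕ → ℝ) → ℝ[X] := fun ρ => if h : BoxR ρ then (ex1 ρ h).choose else 1
  let F2 : (ℕ → ℝ) → ℝ[X] := fun ρ => if h : BoxR ρ then (ex2 ρ h).choose else 1
  have hF1 : ∀ ρ, BoxR ρ → (F1 ρ).map (algebraMap ℝ ℂ) = ∏ a ∈ full U pm, (X - C (z ρ a)) ∧
      (F1 ρ).Monic ∧ (F1 ρ).natDegree = (full U pm).card := by
    intro ρ hB
    have h1 : F1 ρ = (ex1 ρ hB).choose := dif_pos hB
    rw [h1]
    exact (ex1 ρ hB).choose_spec
  have hF2 : ∀ ρ, BoxR ρ → (F2 ρ).map (algebraMap ℝ ℂ) =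
      ∏ a ∈ full (comp e U) (cpm e pm), (X - C (z ρ a)) ∧
      (F2 ρ).Monic ∧ (F2 ρ).natDegree = (full (comp e U) (cpm e pm)).card := by
    intro ρ hB
    have h1 : F2 ρ = (ex2 ρ hB).choose := dif_pos hB
    rw [h1]
    exact (ex2 ρ hB).choose_spec
  have hinj : Function.Injective (Polynomial.map (algebraMap ℝ ℂ)) :=
    Polynomial.map_injective (algebraMap ℝ ℂ) (algebraMap ℝ ℂ).injective
  refine ⟨F1, F2, ?_⟩
  refine
    { monic1 := fun ρ hB => (hF1 ρ hB).2.1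
      deg1 := fun ρ hB => (hF1 ρ hB).2.2.trans c1
      monic2 := fun ρ hB => (hF2 ρ hB).2.1
      deg2 := fun ρ hB => (hF2 ρ hB).2.2.trans c2
      prod := ?_
      zero1 := ?_
      zero2 := ?_
      close1 := fun ρ hB i => hclose _ s1 c1' ρ hB _ _ (hF1 ρ hB).1 m1 i
      close2 := fun ρ hB i => hclose _ s2' c2' ρ hB _ _ (hF2 ρ hB).1 m2 i
      top1 := fun ρ hB => htop _ 43 s1 c1' c1 ρ hB _ _ (hF1 ρ hB).1 m1
      top2 := fun ρ hB => htop _ 39 s2' c2' c2 ρ hB _ _ (hF2 ρ hB).1 m2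
      h4 := ?_
      cont := ?_ }
  · intro ρ hB
    apply hinj
    rw [Polynomial.map_mul, (hF1 ρ hB).1, (hF2 ρ hB).1, s2,
      B7f.P_prod B7a.w_dist e he ρ (z ρ) (hz ρ hB), mul_comm]
    exact Finset.prod_sdiff s1
  · apply hinj
    rw [(hF1 _ BoxR_zero).1, m1]
    exact Finset.prod_congr rfl fun a ha => by rw [hD.zero a (s1 ha)]
  · apply hinj
    rw [(hF2 _ BoxR_zero).1, m2]
    exact Finset.prod_congr rfl fun a ha => by rw [hD.zero a (s2' ha)]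
  · intro hb1 hb2 hu het ρ hB hσ
    obtain ⟨x1, x2, hx1, hx2⟩ := B7d.psum12 (full U pm) 40 c1 (z ρ) (F1 ρ) (hF1 ρ hB).1
    exact B4b.h4_est F_power_sum B7a.w_pow B7b.full_union e U pm hV hb1 hb2 hu het (σ ρ) hσ (z ρ)
      (hD.sig ρ hB) (h83 e he ρ hB (z ρ) (hz ρ hB)) x1 x2 hx1 hx2 (hs (F1 ρ) 44 4)
      (B7d.horner4 (full U pm) 40 c1 (z ρ) (F1 ρ) (hF1 ρ hB).1)
  · intro γ T hγ hB i
    have hc : ∀ a ∈ full U pm, ContinuousOn (fun τ => z (γ τ) a) (Set.Icc 0 T) := fun a ha =>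
      hD.contz γ T hγ hB a (s1 ha)
    have h1 := B7d.coeff_cont (full U pm) (fun τ => z (γ τ)) (Set.Icc 0 T) hc i
    have h2 : ContinuousOn (fun τ => ((∏ a ∈ full U pm, (X - C (z (γ τ) a))).coeff i).re)
        (Set.Icc 0 T) := Complex.continuous_re.comp_continuousOn h1
    refine h2.congr fun τ hτ => ?_
    simp only []
    rw [← (hF1 _ (hB τ hτ)).1, hcoe, Complex.ofReal_re]

end Pool.Agent.N14.TwoN.B7
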