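import Mathlib
import Pool.Agent.N14.TwoN.Defs
import Pool.Agent.N14.TwoN.Table

set_option autoImplicit false

namespace Pool.Agent.N14.TwoN.C1

open Polynomial
open Pool.Agent.N14.TwoN

/-- scale -/
def ctK : ℤ := 1000000000000000000000000000000

/-- `10^30 cos (π / 84)` -/
def ctA : ℤ := 999300704788398552699781235199

/-- `10^30 sin (π / 84)` -/
def ctB : ℤ := 37391194276325621095796834057

/-- check of the table by repeated multiplication -/
def ctchk : List ℤ → ℤ → ℤ → Bool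
  | [], _, _ => true
  | c :: l, a, b => decide (|c * ctK - 2 ^ 64 * a| ≤ ctK) &&
      ctchk l ((a * ctA - b * ctB) / ctK) ((a * ctB + b * ctA) / ctK)

theorem ctchk_tab : ctchk ctab ctK 0 = true := by
  decide +kernel

/-- `exp (i π / 84)` -/
noncomputable def ctu : ℂ := Complex.exp (Complex.I * ((Real.pi / 84 : ℝ) : ℂ))

theorem ctu_pow_re (m : ℕ) : (ctu ^ m).re = cs m := by
  rw [ctu, ← Complex.exp_nat_mul, cs]
  have h : (m : ℂ) * (Complex.I * ((Real.pi / 84 : ℝ) : ℂ)) =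
      ((Real.pi * m / 84 : ℝ) : ℂ) * Complex.I := by
    push_cast
    ring
  rw [h, Complex.exp_ofReal_mul_I_re]

theorem ctu_norm (m : ℕ) : ‖ctu ^ m‖ = 1 := by
  rw [norm_pow, ctu, mul_comm, Complex.norm_exp_ofReal_mul_I, one_pow]

/-- the approximation of `π / 84` -/
theorem ct_exp_approx :
    ‖Complex.exp (Complex.I * ((3.14159265358979323846 / 84 : ℝ) : ℂ)) -
      ((999300704788398552699781235199 / 10 ^ 30 : ℝ) +
        (37391194276325621095796834057 / 10 ^ 30 : ℝ) * Complex.I)‖ ≤ 1 / 10 ^ 24 := by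
  have hn : ‖(Complex.I * ((3.14159265358979323846 / 84 : ℝ) : ℂ))‖ =
      3.14159265358979323846 / 84 := by
    rw [norm_mul, Complex.norm_I, one_mul, Complex.norm_real, Real.norm_eq_abs]
    norm_num
  have h1 := Complex.exp_bound (x := Complex.I * ((3.14159265358979323846 / 84 : ℝ) : ℂ))
    (by rw [hn]; norm_num) (n := 12) (by norm_num)
  rw [hn] at h1
  have h2 : (3.14159265358979323846 / 84 : ℝ) ^ 12 *
      ((Nat.succ 12 : ℝ) * ((Nat.factorial 12 : ℝ) * (12 : ℕ))⁻¹) ≤ 5 / 10 ^ 25 := by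
    norm_num [Nat.factorial]
  have h3 : ‖(∑ m ∈ Finset.range 12, (Complex.I * ((3.14159265358979323846 / 84 : ℝ) : ℂ)) ^ m /
      (Nat.factorial m : ℂ)) - ((999300704788398552699781235199 / 10 ^ 30 : ℝ) +
        (37391194276325621095796834057 / 10 ^ 30 : ℝ) * Complex.I)‖ ≤ 1 / 10 ^ 29 := by
    have hI2 : Complex.I ^ 2 = -1 := Complex.I_sq
    have e : ∀ x : ℝ, (∑ m ∈ Finset.range 12, (Complex.I * (x : ℂ)) ^ m /
      (Nat.factorial m : ℂ)) =
        ((1 - x ^ 2 / 2 + x ^ 4 / 24 - x ^ 6 / 720 + x ^ 8 / 40320 - x ^ 10 / 3628800 : ℝ) : ℂ) +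
        ((x - x ^ 3 / 6 + x ^ 5 / 120 - x ^ 7 / 5040 + x ^ 9 / 362880 - x ^ 11 / 39916800 : ℝ) : ℂ)
          * Complex.I := by
      intro x
      have h3 : Complex.I ^ 3 = - Complex.I := by rw [pow_succ, hI2]; ring
      have h4 : Complex.I ^ 4 = 1 := Complex.I_pow_four
      have h5 : Complex.I ^ 5 = Complex.I := by rw [pow_succ, h4]; ring
      have h6 : Complex.I ^ 6 = -1 := by rw [pow_succ, h5]; rw [← sq, hI2]
      have h7 : Complex.I ^ 7 = - Complex.I := by rw [pow_succ, h6]; ring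
      have h8 : Complex.I ^ 8 = 1 := by rw [show 8 = 4 + 4 from rfl, pow_add, h4]; ring
      have h9 : Complex.I ^ 9 = Complex.I := by rw [pow_succ, h8]; ring
      have h10 : Complex.I ^ 10 = -1 := by rw [pow_succ, h9]; rw [← sq, hI2]
      have h11 : Complex.I ^ 11 = - Complex.I := by rw [pow_succ, h10]; ring
      simp only [Finset.sum_range_succ, Finset.sum_range_zero, Nat.factorial, mul_pow, hI2, h3,
        h4, h5, h6, h7, h8, h9, h10, h11]
      push_cast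
      ring
    rw [e]
    refine (Complex.norm_le_abs_re_add_abs_im _).trans ?_
    simp only [Complex.sub_re, Complex.add_re, Complex.mul_re, Complex.ofReal_re, Complex.I_re,
      Complex.ofReal_im, Complex.I_im, Complex.sub_im, Complex.add_im, Complex.mul_im, mul_zero,
      mul_one, sub_zero, add_zero, zero_add]
    norm_num [abs_le]
  calc _ ≤ ‖Complex.exp (Complex.I * ((3.14159265358979323846 / 84 : ℝ) : ℂ)) -
      ∑ m ∈ Finset.range 12, (Complex.I * ((3.14159265358979323846 / 84 : ℝ) : ℂ)) ^ m /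
      (Nat.factorial m : ℂ)‖ + ‖(∑ m ∈ Finset.range 12, (Complex.I *
        ((3.14159265358979323846 / 84 : ℝ) : ℂ)) ^ m /
      (Nat.factorial m : ℂ)) - ((999300704788398552699781235199 / 10 ^ 30 : ℝ) +
        (37391194276325621095796834057 / 10 ^ 30 : ℝ) * Complex.I)‖ := by
        refine le_trans (le_of_eq ?_) (norm_add_le _ _)
        congr 1
        ring
    _ ≤ 5 / 10 ^ 25 + 1 / 10 ^ 29 := add_le_add (h1.trans h2) h3
    _ ≤ 1 / 10 ^ 24 := by norm_num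

theorem ctu_approx :
    ‖ctu - ((999300704788398552699781235199 / 10 ^ 30 : ℝ) +
        (37391194276325621095796834057 / 10 ^ 30 : ℝ) * Complex.I)‖ ≤ 2 / 10 ^ 22 := by
  have h1 := ct_exp_approx
  have hx1 := Real.pi_gt_d20
  have hx2 := Real.pi_lt_d20
  have h2 : ‖ctu - Complex.exp (Complex.I * ((3.14159265358979323846 / 84 : ℝ) : ℂ))‖ ≤
      15 / 10 ^ 23 := by
    have e : ctu = Complex.exp (Complex.I * ((3.14159265358979323846 / 84 : ℝ) : ℂ)) *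
        Complex.exp (Complex.I * ((Real.pi / 84 - 3.14159265358979323846 / 84 : ℝ) : ℂ)) := by
      rw [ctu, ← Complex.exp_add]
      congr 1
      push_cast
      ring
    have e2 : ctu - Complex.exp (Complex.I * ((3.14159265358979323846 / 84 : ℝ) : ℂ)) =
        Complex.exp (Complex.I * ((3.14159265358979323846 / 84 : ℝ) : ℂ)) *
        (Complex.exp (Complex.I * ((Real.pi / 84 - 3.14159265358979323846 / 84 : ℝ) : ℂ)) - 1) := by
      rw [e]; ring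
    rw [e2, norm_mul, mul_comm Complex.I, Complex.norm_exp_ofReal_mul_I, one_mul]
    refine Real.norm_exp_I_mul_ofReal_sub_one_le.trans ?_
    rw [Real.norm_eq_abs, abs_of_nonneg (by linarith)]
    linarith
  calc _ ≤ ‖ctu - Complex.exp (Complex.I * ((3.14159265358979323846 / 84 : ℝ) : ℂ))‖ +
      ‖Complex.exp (Complex.I * ((3.14159265358979323846 / 84 : ℝ) : ℂ)) -
      ((999300704788398552699781235199 / 10 ^ 30 : ℝ) +
        (37391194276325621095796834057 / 10 ^ 30 : ℝ) * Complex.I)‖ := by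
        refine le_trans (le_of_eq ?_) (norm_add_le _ _)
        congr 1
        ring
    _ ≤ 15 / 10 ^ 23 + 1 / 10 ^ 24 := add_le_add h2 h1
    _ ≤ 2 / 10 ^ 22 := by norm_num

theorem ct_floor (x : ℤ) : |(x : ℝ) / 10 ^ 30 - ((x / ctK : ℤ) : ℝ)| ≤ 1 := by
  have hK : (0 : ℤ) < ctK := by norm_num [ctK]
  have h1 := Int.mul_ediv_add_emod x ctK
  have h2 := Int.emod_nonneg x hK.ne'
  have h3 := Int.emod_lt_of_pos x hK
  have e1 : (x : ℝ) = (10 : ℝ) ^ 30 * ((x / ctK : ℤ) : ℝ) + ((x % ctK : ℤ) : ℝ) := by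
    have : (x : ℝ) = ((ctK * (x / ctK) + x % ctK : ℤ) : ℝ) := by rw [h1]
    rw [this]
    push_cast
    rw [show ((ctK : ℤ) : ℝ) = 10 ^ 30 by norm_num [ctK]]
  have h2' : (0 : ℝ) ≤ ((x % ctK : ℤ) : ℝ) := by exact_mod_cast h2
  have h3' : ((x % ctK : ℤ) : ℝ) ≤ 10 ^ 30 := by
    have : ((x % ctK : ℤ) : ℝ) ≤ ((ctK : ℤ) : ℝ) := by exact_mod_cast h3.le
    rwa [show ((ctK : ℤ) : ℝ) = 10 ^ 30 by norm_num [ctK]] at this
  have e2 : (x : ℝ) / 10 ^ 30 - ((x / ctK : ℤ) : ℝ) = ((x % ctK : ℤ) : ℝ) / 10 ^ 30 := by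
    rw [e1]
    field_simp
    ring
  rw [e2, abs_of_nonneg (by positivity), div_le_one (by positivity)]
  exact h3'

theorem ct_step (m : ℕ) (hm : m ≤ 168) (a b : ℤ)
    (h : ‖(10 : ℂ) ^ 30 * ctu ^ m - ((a : ℂ) + (b : ℂ) * Complex.I)‖ ≤ m * (2 * 10 ^ 8 + 3)) :
    ‖(10 : ℂ) ^ 30 * ctu ^ (m + 1) - ((((a * ctA - b * ctB) / ctK : ℤ) : ℂ) +
      (((a * ctB + b * ctA) / ctK : ℤ) : ℂ) * Complex.I)‖ ≤
        ((m + 1 : ℕ) : ℝ) * (2 * 10 ^ 8 + 3) := by
  obtain ⟨W, hW⟩ : ∃ W : ℂ, W = ((999300704788398552699781235199 / 10 ^ 30 : ℝ) +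
        (37391194276325621095796834057 / 10 ^ 30 : ℝ) * Complex.I) := ⟨_, rfl⟩
  have hu := ctu_approx
  rw [← hW] at hu
  have hnW : ‖W‖ ≤ 1 + 2 / 10 ^ 22 := by
    have h1 : ‖ctu‖ = 1 := by simpa using ctu_norm 1
    have h2 : W = ctu - (ctu - W) := by ring
    rw [h2]
    exact (norm_sub_le _ _).trans (by rw [h1]; linarith)
  obtain ⟨x, hx⟩ : ∃ x : ℤ, x = a * ctA - b * ctB := ⟨_, rfl⟩
  obtain ⟨y, hy⟩ : ∃ y : ℤ, y = a * ctB + b * ctA := ⟨_, rfl⟩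
  rw [← hx, ← hy]
  have hxx := ct_floor x
  have hyy := ct_floor y
  have e : (10 : ℂ) ^ 30 * ctu ^ (m + 1) - (((x / ctK : ℤ) : ℂ) +
      ((y / ctK : ℤ) : ℂ) * Complex.I) =
      ((10 : ℂ) ^ 30 * ctu ^ m - ((a : ℂ) + (b : ℂ) * Complex.I)) * W +
      (10 : ℂ) ^ 30 * ctu ^ m * (ctu - W) +
      ((((x : ℝ) / 10 ^ 30 - ((x / ctK : ℤ) : ℝ) : ℝ) : ℂ) +
        (((y : ℝ) / 10 ^ 30 - ((y / ctK : ℤ) : ℝ) : ℝ) : ℂ) * Complex.I) := by
    have hI2 : Complex.I ^ 2 = -1 := Complex.I_sq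
    rw [hx, hy, hW, ctA, ctB]
    push_cast
    linear_combination ((b : ℂ) * 37391194276325621095796834057 / 10 ^ 30) * hI2
  have hr : ‖((((x : ℝ) / 10 ^ 30 - ((x / ctK : ℤ) : ℝ) : ℝ) : ℂ) +
        (((y : ℝ) / 10 ^ 30 - ((y / ctK : ℤ) : ℝ) : ℝ) : ℂ) * Complex.I)‖ ≤ 2 := by
    refine (norm_add_le _ _).trans ?_
    rw [norm_mul, Complex.norm_I, mul_one, Complex.norm_real, Complex.norm_real,
      Real.norm_eq_abs, Real.norm_eq_abs]
    linarith
  have hmid : ‖(10 : ℂ) ^ 30 * ctu ^ m * (ctu - W)‖ ≤ 2 * 10 ^ 8 := by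
    rw [norm_mul, norm_mul, ctu_norm, mul_one, norm_pow, Complex.norm_ofNat]
    calc (10 : ℝ) ^ 30 * ‖ctu - W‖ ≤ 10 ^ 30 * (2 / 10 ^ 22) := by gcongr
      _ = 2 * 10 ^ 8 := by norm_num
  have hfst : ‖((10 : ℂ) ^ 30 * ctu ^ m - ((a : ℂ) + (b : ℂ) * Complex.I)) * W‖ ≤
      m * (2 * 10 ^ 8 + 3) * (1 + 2 / 10 ^ 22) := by
    rw [norm_mul]
    gcongr
  have hm' : (m : ℝ) ≤ 168 := by exact_mod_cast hm
  rw [e]
  refine (norm_add_le _ _).trans ((add_le_add ((norm_add_le _ _).trans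
    (add_le_add hfst hmid)) hr).trans ?_)
  push_cast
  have : (m : ℝ) * (2 * 10 ^ 8 + 3) * (2 / 10 ^ 22) ≤ 1 := by
    calc (m : ℝ) * (2 * 10 ^ 8 + 3) * (2 / 10 ^ 22) ≤ 168 * (2 * 10 ^ 8 + 3) * (2 / 10 ^ 22) := by
          gcongr
      _ ≤ 1 := by norm_num
  nlinarith

theorem ct_val (m : ℕ) (hm : m ≤ 168) (a b c : ℤ)
    (h : ‖(10 : ℂ) ^ 30 * ctu ^ m - ((a : ℂ) + (b : ℂ) * Complex.I)‖ ≤ m * (2 * 10 ^ 8 + 3))
    (hc : |c * ctK - 2 ^ 64 * a| ≤ ctK) : |(c : ℝ) - 2 ^ 64 * cs m| ≤ 2 := by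
  have h1 : |(10 : ℝ) ^ 30 * cs m - a| ≤ m * (2 * 10 ^ 8 + 3) := by
    refine le_trans ?_ h
    have h2 := Complex.abs_re_le_norm ((10 : ℂ) ^ 30 * ctu ^ m - ((a : ℂ) + (b : ℂ) * Complex.I))
    refine le_trans (le_of_eq ?_) h2
    congr 1
    have h3 : ((10 : ℂ) ^ 30 * ctu ^ m).re = 10 ^ 30 * cs m := by
      rw [← ctu_pow_re]
      have : (10 : ℂ) ^ 30 = ((10 ^ 30 : ℝ) : ℂ) := by push_cast; rfl
      rw [this, Complex.re_ofReal_mul]
    rw [Complex.sub_re, h3]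
    simp
  have hm' : (m : ℝ) ≤ 168 := by exact_mod_cast hm
  have h2 : |(10 : ℝ) ^ 30 * cs m - a| ≤ 168 * (2 * 10 ^ 8 + 3) := by
    refine h1.trans ?_
    gcongr
  have hc' : |(c : ℝ) * 10 ^ 30 - 2 ^ 64 * a| ≤ 10 ^ 30 := by
    have h5 : ((ctK : ℤ) : ℝ) = 10 ^ 30 := by norm_num [ctK]
    have : |((c * ctK - 2 ^ 64 * a : ℤ) : ℝ)| ≤ ((ctK : ℤ) : ℝ) := by
      rw [← Int.cast_abs]
      exact_mod_cast hc
    have e : ((c * ctK - 2 ^ 64 * a : ℤ) : ℝ) = (c : ℝ) * 10 ^ 30 - 2 ^ 64 * a := by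
      rw [Int.cast_sub, Int.cast_mul, Int.cast_mul, Int.cast_pow, h5, Int.cast_ofNat]
    rwa [e, h5] at this
  rw [abs_le] at h2 hc' ⊢
  constructor
  · nlinarith [h2.1, h2.2, hc'.1, hc'.2]
  · nlinarith [h2.1, h2.2, hc'.1, hc'.2]

theorem ctchk_spec (l : List ℤ) : ∀ (m : ℕ) (a b : ℤ), m + l.length ≤ 168 →
    ‖(10 : ℂ) ^ 30 * ctu ^ m - ((a : ℂ) + (b : ℂ) * Complex.I)‖ ≤ m * (2 * 10 ^ 8 + 3) →
    ctchk l a b = true → ∀ j < l.length, |((l.getD j 0 : ℤ) : ℝ) - 2 ^ 64 * cs (m + j)| ≤ 2 := by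
  induction l with
  | nil =>
    intro m a b _ _ _ j hj
    exact absurd hj (Nat.not_lt_zero _)
  | cons c l ih =>
    intro m a b hm h hc j hj
    rw [ctchk, Bool.and_eq_true, decide_eq_true_eq] at hc
    rw [List.length_cons] at hm hj
    rcases j with _ | j
    · exact ct_val m (by omega) a b c h hc.1
    · have := ih (m + 1) _ _ (by omega) (ct_step m (by omega) a b h) hc.2 j (by omega)
      rw [List.getD_cons_succ, show m + (j + 1) = m + 1 + j by omega]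
      exact this

theorem cs_mod (m : ℕ) : cs (m % 168) = cs m := by
  unfold cs
  have h : (m : ℝ) = 168 * ((m / 168 : ℕ) : ℝ) + ((m % 168 : ℕ) : ℝ) := by
    exact_mod_cast (Nat.div_add_mod m 168).symm
  have e : Real.pi * (m : ℝ) / 84 =
      Real.pi * ((m % 168 : ℕ) : ℝ) / 84 + ((m / 168 : ℕ) : ℝ) * (2 * Real.pi) := by
    rw [h]
    ring
  rw [e, Real.cos_add_nat_mul_two_pi]

theorem ctab_length : ctab.length = 168 := by
  decide +kernel

theorem ctf_spec (m : ℕ) : |((ctf m : ℤ) : ℝ) - 2 ^ 64 * cs m| ≤ 2 := by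
  have h := ctchk_spec ctab 0 ctK 0 (by rw [ctab_length]) (by norm_num [ctK]) ctchk_tab (m % 168)
    (by rw [ctab_length]; exact Nat.mod_lt _ (by norm_num))
  rw [zero_add, cs_mod] at h
  exact h

theorem ctab_bound : ∀ c ∈ ctab, |c| ≤ 2 ^ 64 := by
  decide +kernel

theorem ctf_bound (m : ℕ) : |ctf m| ≤ 2 ^ 64 := by
  apply ctab_bound
  have h : m % 168 < ctab.length := by
    rw [ctab_length]
    exact Nat.mod_lt _ (by norm_num)
  rw [ctf, List.getD_eq_getElem _ _ h]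
  exact List.getElem_mem h

end Pool.Agent.N14.TwoN.C1
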