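import Pool.Agent.N14.TwoN.Defs

set_option autoImplicit false

/-! Integer checkers for the numerical certificate. -/

namespace Pool.Agent.N14.TwoN

/-- scale of the cosine table -/
def SC : ℕ := 2 ^ 64

/-- base of the Kronecker substitution for products -/
def BB : ℕ := 2 ^ 1600

/-- half of it -/
def HB : ℕ := 2 ^ 1599

/-- `∑_{i<n} H B^i` -/
def offs (B H : ℕ) : ℕ → ℕ
  | 0 => 0
  | n + 1 => offs B H n * B + H

/-- value at `BB` of the scaled quadratic factor -/
def quadW (c : ℤ) : ℤ := ((SC : ℤ) * (BB : ℤ) - 2 * c) * (BB : ℤ) + (SC : ℤ)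

/-- value at `BB` of the scaled product -/
def prodW (ct : ℕ → ℤ) (U : List ℕ) (pm : Bool) : ℤ :=
  (U.foldr (fun a W => quadW (ct a) * W) 1) * (if pm then (BB : ℤ) * (BB : ℤ) - 1 else 1)

/-- rounded coefficients, highest first: `[q_{cnt-1}, …, q_0]` prepended to `acc`. -/
def digsRev (k : ℕ) : ℕ → ℕ → List ℤ → List ℤ
  | 0, _, acc => acc
  | cnt + 1, n, acc =>
    digsRev k cnt (n / BB) (((((n % BB) / 2 ^ k : ℕ) : ℤ) - ((HB / 2 ^ k : ℕ) : ℤ)) :: acc)

/-- rounded coefficients (scale `2^40`), highest first, of the product of `len` quadratics -/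
def coefR (deg len : ℕ) (W : ℤ) : List ℤ :=
  digsRev (64 * len - 40) (deg + 1) (W + (offs BB HB (deg + 1) : ℤ)).toNat []

/-- error bound of the rounded coefficients -/
def EE : ℕ := 23068674

/-- sum of absolute values -/
def sumAbs : List ℤ → ℕ
  | [] => 0
  | q :: qs => q.natAbs + sumAbs qs

/-- the last entry -/
def lastL : List ℤ → ℤ
  | [] => 0
  | [q] => q
  | _ :: q :: qs => lastL (q :: qs)

/-- bound for the perturbation of the coefficients, scale `2^40` -/
def DQ (l : List ℤ) : ℕ := 20 * (sumAbs l + 45 * EE) / 100000 + 1 + EE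

/-- bound for the perturbation of the top coefficient, scale `2^40` -/
def DB : ℕ := 2 ^ 40 / 5000 + 1 + EE

/-- the Horner recursion with error bounds and signs -/
def hloopS (flip : Bool) (b : ℤ) (dq : ℕ) : Bool → List ℤ → ℤ → ℕ → Bool
  | s, q :: q' :: qs, h, dh =>
    let h' := (b * h) / (2 ^ 40 : ℕ) + q
    let dh' := ((b.natAbs + DB) * dh + DB * h.natAbs) / 2 ^ 40 + dq + 3
    Nat.blt dh' (if s then h' else -h').toNat &&
      hloopS flip b dq (if flip then !s else s) (q' :: qs) h' dh'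
  | _, _, _, _ => true

/-- niceness check for the factor of degree 44; the list is `[q_44, …, q_0]` -/
def nice1L (l : List ℤ) : Bool :=
  match l with
  | _ :: q43 :: q42 :: q41 :: q40 :: qs =>
    Nat.blt DB (-q43).toNat && (hloopS false (-q43) (DQ l) true [q42, q41, q40] 0 0 &&
      (hloopS false (-q43) (DQ l) true qs 0 0 && Nat.blt (DQ l) (lastL qs).toNat))
  | _ => false

/-- niceness check for the factor of degree 40; the list is `[q_40, …, q_0]` -/
def nice2L (l : List ℤ) : Bool :=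
  match l with
  | _ :: q39 :: qs =>
    Nat.blt DB q39.toNat && (hloopS true (-q39) (DQ l) true qs 0 0 &&
      Nat.blt (DQ l) (lastL qs).toNat)
  | _ => false

/-- the list of the complement -/
def compL (e : ℕ) (U : List ℕ) : List ℕ :=
  (List.range 84).filter (fun a => Nat.blt 0 a && Nat.beq (a % 2) e && !(U.elem a))

/-- strictly increasing -/
def incr : List ℕ → Bool
  | a :: b :: l => Nat.blt a b && incr (b :: l)
  | _ => true

/-- validity check -/
def validL (e : ℕ) (U : List ℕ) (pm : Bool) : Bool :=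
  Nat.blt e 2 && U.all (fun a => Nat.blt 0 a && Nat.blt a 84 && Nat.beq (a % 2) e) && incr U &&
    Nat.beq (U.length + (if pm then 1 else 0)) 22 && (!pm || Nat.beq e 0)

/-- full niceness check of a set -/
def niceCheck (ct : ℕ → ℤ) (e : ℕ) (U : List ℕ) (pm : Bool) : Bool :=
  nice1L (coefR 44 U.length (prodW ct U pm)) &&
  nice2L (coefR 40 (compL e U).length (prodW ct (compL e U) (cpm e pm)))

/-! ### Rows -/

/-- base of the packing of the rows -/
def B2 : ℕ := 2 ^ 192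

/-- half of it -/
def H2 : ℕ := 2 ^ 191

/-- integer approximation of `2^64 sg m` -/
def gI (ct : ℕ → ℤ) (U : List ℕ) (m : ℕ) : ℤ :=
  2 * (U.foldr (fun a s => ct (m * a) + s) 0)

/-- integer approximation of `2^64 b^2` -/
def b2I (ct : ℕ → ℤ) (U : List ℕ) : ℤ := gI ct U 1 * gI ct U 1 / (SC : ℤ)

/-- integer approximation of `2^64 u` -/
def uI (ct : ℕ → ℤ) (U : List ℕ) : ℤ := b2I ct U - gI ct U 2

/-- integer approximation of `2^67 * eta` -/
def etaI (ct : ℕ → ℤ) (U : List ℕ) : ℤ :=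
  2 * (b2I ct U * b2I ct U / (SC : ℤ)) - 2 * gI ct U 4 + uI ct U * uI ct U / (SC : ℤ)

/-- integer approximation of `2^64 al` -/
def alI (ct : ℕ → ℤ) (U : List ℕ) : ℤ := gI ct U 1 * (b2I ct U + uI ct U / 2) / (SC : ℤ)

/-- integer approximation of `2^64 be` -/
def beI (ct : ℕ → ℤ) (U : List ℕ) : ℤ := uI ct U / 2

/-- integer approximation of `-84 * 2^128 * Lc j` -/
def RI (ct : ℕ → ℤ) (U : List ℕ) (j : ℕ) : ℤ :=
  alI ct U * gI ct U (j - 1) - beI ct U * gI ct U (ad j 2) - (SC : ℤ) * gI ct U (ad j 4)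

/-- upper bound for `2^67` times the admissible error -/
def epsI (ct : ℕ → ℤ) (U : List ℕ) (pos : Bool) : ℕ :=
  if pos then (344 * ((b2I ct U).toNat + 400) + 296 * SC) / 10 ^ 9 + 1
  else 16 * SC / 10 ^ 9 + 1

/-- `∑_{m<n} ct (m a) B2^m` -/
def packT (ct : ℕ → ℤ) (a : ℕ) : ℕ → ℤ
  | 0 => 0
  | n + 1 => packT ct a n + ct (n * a) * ((B2 ^ n : ℕ) : ℤ)

/-- packed row, without sign: `∑_{j<83} RI (j+1) B2^j`; `TL a = packT ct a 83`. -/
def rowW (ct TL : ℕ → ℤ) (U : List ℕ) : ℤ :=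
  let P := 2 * (U.foldr (fun a s => TL a + s) 0)
  let g1 := gI ct U 1
  let g2 := gI ct U 2
  let g3 := gI ct U 3
  let g80 := gI ct U 80
  let g81 := gI ct U 81
  let g82 := gI ct U 82
  alI ct U * P
    - beI ct U * (g1 + (B2 : ℤ) * (P - g82 * ((B2 ^ 82 : ℕ) : ℤ)))
    - (SC : ℤ) * (g3 + (B2 : ℤ) * g2 + ((B2 ^ 2 : ℕ) : ℤ) * g1 +
        ((B2 ^ 3 : ℕ) : ℤ) * (P - g80 * ((B2 ^ 80 : ℕ) : ℤ) - g81 * ((B2 ^ 81 : ℕ) : ℤ)
          - g82 * ((B2 ^ 82 : ℕ) : ℤ)))

/-- packed row with the sign of `eta`, and the bound for `2^67 * (|eta| + eps)` -/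
def rowS (ct TL : ℕ → ℤ) (U : List ℕ) : ℤ × ℕ :=
  if 0 < etaI ct U then (rowW ct TL U, (etaI ct U).natAbs + 2 ^ 14 + epsI ct U true)
  else (-rowW ct TL U, (etaI ct U).natAbs + 2 ^ 14 + epsI ct U false)

/-- linear combination of the packed rows -/
def combV : List (ℤ × ℕ) → ℕ → ℤ
  | [], _ => 0
  | r :: rs, n => ((n % 2 ^ 20 : ℕ) : ℤ) * r.1 + combV rs (n / 2 ^ 20)

/-- linear combination of the bounds -/
def combH : List (ℤ × ℕ) → ℕ → ℕ
  | [], _ => 0
  | r :: rs, n => (n % 2 ^ 20) * r.2 + combH rs (n / 2 ^ 20)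

/-- sum of the coefficients -/
def combS : List (ℤ × ℕ) → ℕ → ℕ
  | [], _ => 0
  | _ :: rs, n => (n % 2 ^ 20) + combS rs (n / 2 ^ 20)

/-- `∑_{i<cnt} bdN (j+i) * |digit_i - H2|` -/
def absSum : ℕ → ℕ → ℕ → ℕ
  | 0, _, _ => 0
  | cnt + 1, n, j => bdN j * ((n % B2 - H2) + (H2 - n % B2)) + absSum cnt (n / B2) (j + 1)

/-- the check of one vertex of the dual certificate -/
def lpCheck (rows : List (ℤ × ℕ)) (j0 : ℕ) (pos : Bool) (n : ℕ) : Bool :=
  let N := (combV rows n + (offs B2 H2 83 : ℤ)).toNat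
  let d := N / B2 ^ (j0 - 1) % B2
  let x := if pos then d - H2 else H2 - d
  Nat.blt (absSum 83 N 1 + 22960 * 2 ^ 81 * combS rows n + 840000000 * 2 ^ 61 * combH rows n)
    (2 * bdN j0 * x)

/-- the full check of a set of the certificate -/
def chkS (ct : ℕ → ℤ) (U : List ℕ) : Bool :=
  validL 1 U false && (niceCheck ct 1 U false &&
    (Nat.ble (SC + 100) (gI ct U 1).toNat && (Nat.ble (10 * (gI ct U 1).toNat + 1000) (21 * SC) &&
      (Nat.ble ((uI ct U).natAbs + 500) (4 * SC) && (Nat.blt (2 ^ 15) (etaI ct U).natAbs &&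
        Nat.ble (1000 * ((etaI ct U).natAbs + 2 ^ 14)) (2 ^ 67))))))

end Pool.Agent.N14.TwoN
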