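import Mathlib
import Pool.Agent.N14.TwoN.Defs
import Pool.Agent.N14.TwoN.CertDefs

set_option autoImplicit false

/-! Soundness of the integer approximations of the real quantities of a set. -/

namespace Pool.Agent.N14.TwoN.C2b

open Polynomial
open Pool.Agent.N14.TwoN

theorem gI_sound_foldr (ct : ℕ → ℤ) (hct : ∀ m, |((ct m : ℤ) : ℝ) - 2 ^ 64 * cs m| ≤ 2)
    (m : ℕ) : ∀ U : List ℕ,
    |((U.foldr (fun a s => ct (m * a) + s) 0 : ℤ) : ℝ) -
      2 ^ 64 * (U.map (fun a => cs (m * a))).sum| ≤ 2 * (U.length : ℝ) := by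
  intro U
  induction U with
  | nil => simp
  | cons a U ih =>
    rw [List.foldr_cons, List.map_cons, List.sum_cons, List.length_cons, Int.cast_add]
    have h := hct (m * a)
    push_cast at ih ⊢
    rw [abs_le] at *
    constructor <;> linarith [h.1, h.2, ih.1, ih.2]

theorem gI_sound (ct : ℕ → ℤ) (hct : ∀ m, |((ct m : ℤ) : ℝ) - 2 ^ 64 * cs m| ≤ 2) (U : List ℕ)
    (hn : U.Nodup) (hl : U.length = 22) (m : ℕ) :
    |((gI ct U m : ℤ) : ℝ) - 2 ^ 64 * sg U.toFinset false m| ≤ 88 := by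
  have h := gI_sound_foldr ct hct m U
  have hlR : (U.length : ℝ) = 22 := by exact_mod_cast hl
  rw [hlR] at h
  unfold gI sg
  rw [List.sum_toFinset _ hn]
  generalize (List.foldr (fun a s => ct (m * a) + s) 0 U) = A at h ⊢
  generalize (List.map (fun a => cs (m * a)) U).sum = B at h ⊢
  have e : ((2 * A : ℤ) : ℝ) - 2 ^ 64 * (2 * B + (if false = true then 1 + (-1) ^ m else 0)) =
      2 * ((A : ℝ) - 2 ^ 64 * B) := by
    simp only [Bool.false_eq_true, if_false]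
    push_cast
    ring
  rw [e, abs_mul, abs_two]
  linarith

theorem sg_le (U : List ℕ) (hl : U.length = 22) (m : ℕ) : |sg U.toFinset false m| ≤ 44 := by
  unfold sg
  have h1 : |∑ a ∈ U.toFinset, cs (m * a)| ≤ U.length := by
    refine (Finset.abs_sum_le_sum_abs _ _).trans ?_
    calc ∑ a ∈ U.toFinset, |cs (m * a)| ≤ ∑ a ∈ U.toFinset, (1 : ℝ) :=
          Finset.sum_le_sum fun a _ => Real.abs_cos_le_one _
      _ = U.toFinset.card := by simp
      _ ≤ U.length := by exact_mod_cast List.toFinset_card_le U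
  have hlR : (U.length : ℝ) = 22 := by exact_mod_cast hl
  simp only [Bool.false_eq_true, if_false, add_zero]
  rw [abs_mul, abs_two]
  linarith

theorem SC_real : (((SC : ℕ) : ℤ) : ℝ) = 2 ^ 64 := by
  unfold SC
  norm_num

theorem floor_div (x d : ℤ) (hd : 0 < d) : |((x / d : ℤ) : ℝ) - (x : ℝ) / (d : ℝ)| ≤ 1 := by
  have h1 := Int.emod_nonneg x hd.ne'
  have h2 := Int.emod_lt_of_pos x hd
  have h3 := Int.mul_ediv_add_emod x d
  have hdr : (0 : ℝ) < (d : ℝ) := by exact_mod_cast hd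
  have h3r : (d : ℝ) * ((x / d : ℤ) : ℝ) + ((x % d : ℤ) : ℝ) = (x : ℝ) := by exact_mod_cast h3
  have h1r : (0 : ℝ) ≤ ((x % d : ℤ) : ℝ) := by exact_mod_cast h1
  have h2r : ((x % d : ℤ) : ℝ) < (d : ℝ) := by exact_mod_cast h2
  have e : ((x / d : ℤ) : ℝ) - (x : ℝ) / (d : ℝ) = -(((x % d : ℤ) : ℝ) / (d : ℝ)) := by
    rw [← h3r]; field_simp; ring
  rw [e, abs_neg, abs_of_nonneg (by positivity), div_le_one hdr]
  exact h2r.le

theorem floor_SC (x : ℤ) : |((x / (SC : ℤ) : ℤ) : ℝ) - (x : ℝ) / 2 ^ 64| ≤ 1 := by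
  have h := floor_div x (SC : ℤ) (by unfold SC; norm_num)
  rwa [SC_real] at h

theorem floor_two (x : ℤ) : |((x / 2 : ℤ) : ℝ) - (x : ℝ) / 2| ≤ 1 := by
  have h := floor_div x 2 (by norm_num)
  simpa using h

/-- product of two approximations -/
theorem mul_err (T x y x₁ y₁ p q X Y r : ℝ) (hT : 0 < T) (hx : |x₁ - T * x| ≤ p)
    (hy : |y₁ - T * y| ≤ q) (hX : |x| ≤ X) (hY : |y| ≤ Y) (hr : q * X + p * Y + p * q / T ≤ r) :
    |x₁ * y₁ / T - T * (x * y)| ≤ r := by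
  have hp : 0 ≤ p := (abs_nonneg _).trans hx
  have hq : 0 ≤ q := (abs_nonneg _).trans hy
  have e : x₁ * y₁ / T - T * (x * y) = x * (y₁ - T * y) + (x₁ - T * x) * y +
      (x₁ - T * x) * (y₁ - T * y) / T := by
    field_simp
    ring
  rw [e]
  have a1 : |x * (y₁ - T * y)| ≤ q * X := by
    rw [abs_mul, mul_comm q X]
    exact mul_le_mul hX hy (abs_nonneg _) ((abs_nonneg _).trans hX)
  have a2 : |(x₁ - T * x) * y| ≤ p * Y := by
    rw [abs_mul]
    exact mul_le_mul hx hY (abs_nonneg _) hp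
  have a3 : |(x₁ - T * x) * (y₁ - T * y) / T| ≤ p * q / T := by
    rw [abs_div, abs_mul, abs_of_pos hT]
    exact div_le_div_of_nonneg_right (mul_le_mul hx hy (abs_nonneg _) hp) hT.le
  exact ((abs_add_three _ _ _).trans (add_le_add (add_le_add a1 a2) a3)).trans hr

/-- product of two approximations, with integer division -/
theorem mulSC_err (x y : ℝ) (x₁ y₁ : ℤ) (p q X Y r : ℝ) (hx : |(x₁ : ℝ) - 2 ^ 64 * x| ≤ p)
    (hy : |(y₁ : ℝ) - 2 ^ 64 * y| ≤ q) (hX : |x| ≤ X) (hY : |y| ≤ Y)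
    (hr : q * X + p * Y + p * q / 2 ^ 64 ≤ r) :
    |((x₁ * y₁ / (SC : ℤ) : ℤ) : ℝ) - 2 ^ 64 * (x * y)| ≤ r + 1 := by
  have h1 := mul_err (2 ^ 64) x y x₁ y₁ p q X Y r (by norm_num) hx hy hX hY hr
  have h2 := floor_SC (x₁ * y₁)
  rw [Int.cast_mul] at h2
  have e : ((x₁ * y₁ / (SC : ℤ) : ℤ) : ℝ) - 2 ^ 64 * (x * y) =
      (((x₁ * y₁ / (SC : ℤ) : ℤ) : ℝ) - (x₁ : ℝ) * y₁ / 2 ^ 64) +
      ((x₁ : ℝ) * y₁ / 2 ^ 64 - 2 ^ 64 * (x * y)) := by ring
  rw [e]
  exact (abs_add_le _ _).trans (by linarith)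

theorem b2I_sound (ct : ℕ → ℤ) (hct : ∀ m, |((ct m : ℤ) : ℝ) - 2 ^ 64 * cs m| ≤ 2) (U : List ℕ)
    (hn : U.Nodup) (hl : U.length = 22) (hb : |sg U.toFinset false 1| ≤ 21 / 10) :
    |((b2I ct U : ℤ) : ℝ) - 2 ^ 64 * (sg U.toFinset false 1 ^ 2)| ≤ 371 := by
  have k1 := gI_sound ct hct U hn hl 1
  have h := mulSC_err _ _ _ _ 88 88 (21 / 10) (21 / 10) 370 k1 k1 hb hb (by norm_num)
  unfold b2I
  rw [pow_two (sg U.toFinset false 1)]
  exact h.trans (by norm_num)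

theorem uI_sound (ct : ℕ → ℤ) (hct : ∀ m, |((ct m : ℤ) : ℝ) - 2 ^ 64 * cs m| ≤ 2) (U : List ℕ)
    (hn : U.Nodup) (hl : U.length = 22) (hb : |sg U.toFinset false 1| ≤ 21 / 10) :
    |((uI ct U : ℤ) : ℝ) - 2 ^ 64 * uu U.toFinset false| ≤ 459 := by
  have k1 := b2I_sound ct hct U hn hl hb
  have k2 := gI_sound ct hct U hn hl 2
  unfold uI uu
  rw [Int.cast_sub]
  rw [abs_le] at *
  constructor <;> linarith [k1.1, k1.2, k2.1, k2.2]

theorem sq_le (b : ℝ) (hb : |b| ≤ 21 / 10) : |b ^ 2| ≤ 441 / 100 := by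
  rw [abs_pow]
  calc |b| ^ 2 ≤ (21 / 10) ^ 2 := pow_le_pow_left₀ (abs_nonneg _) hb 2
    _ = 441 / 100 := by norm_num

theorem etaI_sound (ct : ℕ → ℤ) (hct : ∀ m, |((ct m : ℤ) : ℝ) - 2 ^ 64 * cs m| ≤ 2) (U : List ℕ)
    (hn : U.Nodup) (hl : U.length = 22) (hb : |sg U.toFinset false 1| ≤ 21 / 10)
    (hu : |uu U.toFinset false| ≤ 4) :
    |((etaI ct U : ℤ) : ℝ) - 2 ^ 67 * eta U.toFinset false| ≤ 2 ^ 14 := by
  have k1 := b2I_sound ct hct U hn hl hb
  have k2 := uI_sound ct hct U hn hl hb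
  have k4 := gI_sound ct hct U hn hl 4
  have hb2 := sq_le _ hb
  have h1 := mulSC_err _ _ _ _ 371 371 (441 / 100) (441 / 100) 3273 k1 k1 hb2 hb2 (by norm_num)
  have h2 := mulSC_err _ _ _ _ 459 459 4 4 3673 k2 k2 hu hu (by norm_num)
  have e : ((etaI ct U : ℤ) : ℝ) - 2 ^ 67 * eta U.toFinset false =
      2 * (((b2I ct U * b2I ct U / (SC : ℤ) : ℤ) : ℝ) -
        2 ^ 64 * (sg U.toFinset false 1 ^ 2 * sg U.toFinset false 1 ^ 2)) -
      2 * (((gI ct U 4 : ℤ) : ℝ) - 2 ^ 64 * sg U.toFinset false 4) +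
      (((uI ct U * uI ct U / (SC : ℤ) : ℤ) : ℝ) -
        2 ^ 64 * (uu U.toFinset false * uu U.toFinset false)) := by
    unfold etaI eta
    push_cast
    ring
  rw [e]
  rw [abs_le] at h1 h2 k4
  rw [abs_le]
  norm_num at h1 h2 k4 ⊢
  constructor <;> linarith [h1.1, h1.2, h2.1, h2.2, k4.1, k4.2]

theorem mid_sound (ct : ℕ → ℤ) (hct : ∀ m, |((ct m : ℤ) : ℝ) - 2 ^ 64 * cs m| ≤ 2) (U : List ℕ)
    (hn : U.Nodup) (hl : U.length = 22) (hb : |sg U.toFinset false 1| ≤ 21 / 10) :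
    |((b2I ct U + uI ct U / 2 : ℤ) : ℝ) - 2 ^ 64 * (sg U.toFinset false 1 ^ 2 +
      uu U.toFinset false / 2)| ≤ 602 := by
  have k1 := b2I_sound ct hct U hn hl hb
  have k2 := uI_sound ct hct U hn hl hb
  have k3 := floor_two (uI ct U)
  rw [Int.cast_add]
  rw [abs_le] at *
  constructor <;> linarith [k1.1, k1.2, k2.1, k2.2, k3.1, k3.2]

theorem mid_le (U : List ℕ) (hb : |sg U.toFinset false 1| ≤ 21 / 10)
    (hu : |uu U.toFinset false| ≤ 4) :
    |sg U.toFinset false 1 ^ 2 + uu U.toFinset false / 2| ≤ 641 / 100 := by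
  have h1 := sq_le _ hb
  refine (abs_add_le _ _).trans ?_
  rw [abs_div, abs_two]
  linarith

theorem alI_sound (ct : ℕ → ℤ) (hct : ∀ m, |((ct m : ℤ) : ℝ) - 2 ^ 64 * cs m| ≤ 2) (U : List ℕ)
    (hn : U.Nodup) (hl : U.length = 22) (hb : |sg U.toFinset false 1| ≤ 21 / 10)
    (hu : |uu U.toFinset false| ≤ 4) :
    |((alI ct U : ℤ) : ℝ) - 2 ^ 64 * al U.toFinset false| ≤ 1900 := by
  have k1 := gI_sound ct hct U hn hl 1
  have k2 := mid_sound ct hct U hn hl hb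
  have h := mulSC_err _ _ _ _ 88 602 (21 / 10) (641 / 100) 1829 k1 k2 hb (mid_le U hb hu)
    (by norm_num)
  have e : al U.toFinset false = sg U.toFinset false 1 * (sg U.toFinset false 1 ^ 2 +
      uu U.toFinset false / 2) := by
    unfold al
    ring
  rw [e]
  unfold alI
  exact h.trans (by norm_num)

theorem beI_sound (ct : ℕ → ℤ) (hct : ∀ m, |((ct m : ℤ) : ℝ) - 2 ^ 64 * cs m| ≤ 2) (U : List ℕ)
    (hn : U.Nodup) (hl : U.length = 22) (hb : |sg U.toFinset false 1| ≤ 21 / 10) :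
    |((beI ct U : ℤ) : ℝ) - 2 ^ 64 * be U.toFinset false| ≤ 231 := by
  have k2 := uI_sound ct hct U hn hl hb
  have k3 := floor_two (uI ct U)
  unfold beI be
  rw [abs_le] at *
  constructor <;> linarith [k2.1, k2.2, k3.1, k3.2]

theorem al_le (U : List ℕ) (hb : |sg U.toFinset false 1| ≤ 21 / 10)
    (hu : |uu U.toFinset false| ≤ 4) : |al U.toFinset false| ≤ 14 := by
  have e : al U.toFinset false = sg U.toFinset false 1 * (sg U.toFinset false 1 ^ 2 +
      uu U.toFinset false / 2) := by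
    unfold al
    ring
  rw [e, abs_mul]
  refine (mul_le_mul hb (mid_le U hb hu) (abs_nonneg _) (by norm_num)).trans ?_
  norm_num

theorem be_le (U : List ℕ) (hu : |uu U.toFinset false| ≤ 4) : |be U.toFinset false| ≤ 2 := by
  unfold be
  rw [abs_div, abs_two]
  linarith

theorem prod_core (T x y x₁ y₁ p X : ℝ) (hT : 0 < T) (hx : |x₁ - T * x| ≤ p)
    (hy : |y₁ - T * y| ≤ 88) (hX : |x| ≤ X) (hY : |y| ≤ 44) :
    |x₁ * y₁ - T ^ 2 * (x * y)| ≤ p * (88 + 44 * T) + 88 * X * T := by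
  have hp : 0 ≤ p := (abs_nonneg _).trans hx
  have e : x₁ * y₁ - T ^ 2 * (x * y) = (x₁ - T * x) * y₁ + T * x * (y₁ - T * y) := by ring
  have hy1 : |y₁| ≤ 88 + 44 * T := by
    have : y₁ = (y₁ - T * y) + T * y := by ring
    rw [this]
    refine (abs_add_le _ _).trans ?_
    rw [abs_mul, abs_of_pos hT]
    have := mul_le_mul_of_nonneg_left hY hT.le
    linarith
  have a1 : |(x₁ - T * x) * y₁| ≤ p * (88 + 44 * T) := by
    rw [abs_mul]
    exact mul_le_mul hx hy1 (abs_nonneg _) hp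
  have a2 : |T * x * (y₁ - T * y)| ≤ 88 * X * T := by
    rw [abs_mul, abs_mul, abs_of_pos hT]
    calc T * |x| * |y₁ - T * y| ≤ (T * X) * 88 :=
          mul_le_mul (mul_le_mul_of_nonneg_left hX hT.le) hy (abs_nonneg _)
            (mul_nonneg hT.le ((abs_nonneg _).trans hX))
      _ = 88 * X * T := by ring
  rw [e]
  exact (abs_add_le _ _).trans (add_le_add a1 a2)

theorem RI_sound (ct : ℕ → ℤ) (hct : ∀ m, |((ct m : ℤ) : ℝ) - 2 ^ 64 * cs m| ≤ 2) (U : List ℕ)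
    (hn : U.Nodup) (hl : U.length = 22) (hb : |sg U.toFinset false 1| ≤ 21 / 10)
    (hu : |uu U.toFinset false| ≤ 4) (j : ℕ) :
    |((RI ct U j : ℤ) : ℝ) + 84 * 2 ^ 128 * Lc U.toFinset false j| ≤ 2 ^ 81 ∧
      |RI ct U j| ≤ 2 ^ 140 := by
  have k1 := gI_sound ct hct U hn hl (j - 1)
  have k2 := gI_sound ct hct U hn hl (ad j 2)
  have k4 := gI_sound ct hct U hn hl (ad j 4)
  have b1 := sg_le U hl (j - 1)
  have b2 := sg_le U hl (ad j 2)
  have b4 := sg_le U hl (ad j 4)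
  have ha := alI_sound ct hct U hn hl hb hu
  have hbe := beI_sound ct hct U hn hl hb
  have ca := prod_core (2 ^ 64) _ _ _ _ 1900 14 (by norm_num) ha k1 (al_le U hb hu) b1
  have cb := prod_core (2 ^ 64) _ _ _ _ 231 2 (by norm_num) hbe k2 (be_le U hu) b2
  have key : |((RI ct U j : ℤ) : ℝ) + 84 * 2 ^ 128 * Lc U.toFinset false j| ≤ 2 ^ 81 := by
    have e : ((RI ct U j : ℤ) : ℝ) + 84 * 2 ^ 128 * Lc U.toFinset false j =
        (((alI ct U : ℤ) : ℝ) * ((gI ct U (j - 1) : ℤ) : ℝ) -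
          (2 ^ 64) ^ 2 * (al U.toFinset false * sg U.toFinset false (j - 1))) -
        (((beI ct U : ℤ) : ℝ) * ((gI ct U (ad j 2) : ℤ) : ℝ) -
          (2 ^ 64) ^ 2 * (be U.toFinset false * sg U.toFinset false (ad j 2))) -
        2 ^ 64 * (((gI ct U (ad j 4) : ℤ) : ℝ) - 2 ^ 64 * sg U.toFinset false (ad j 4)) := by
      unfold RI Lc
      rw [Int.cast_sub, Int.cast_sub, Int.cast_mul, Int.cast_mul, Int.cast_mul, SC_real]
      ring
    rw [e]
    rw [abs_le] at ca cb k4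
    rw [abs_le]
    norm_num at ca cb k4 ⊢
    constructor <;> linarith [ca.1, ca.2, cb.1, cb.2, k4.1, k4.2]
  refine ⟨key, ?_⟩
  have hL : |84 * 2 ^ 128 * Lc U.toFinset false j| ≤ 2 ^ 138 := by
    have e : 84 * 2 ^ 128 * Lc U.toFinset false j =
        -(2 ^ 128 * (al U.toFinset false * sg U.toFinset false (j - 1) -
            be U.toFinset false * sg U.toFinset false (ad j 2) - sg U.toFinset false (ad j 4))) := by
      unfold Lc
      ring
    rw [e, abs_neg, abs_mul]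
    have h1 : |al U.toFinset false * sg U.toFinset false (j - 1) -
            be U.toFinset false * sg U.toFinset false (ad j 2) - sg U.toFinset false (ad j 4)|
          ≤ 14 * 44 + 2 * 44 + 44 := by
      refine (abs_sub _ _).trans (add_le_add ((abs_sub _ _).trans (add_le_add ?_ ?_)) b4)
      · rw [abs_mul]
        exact mul_le_mul (al_le U hb hu) b1 (abs_nonneg _) (by norm_num)
      · rw [abs_mul]
        exact mul_le_mul (be_le U hu) b2 (abs_nonneg _) (by norm_num)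
    have h2 : |(2 : ℝ) ^ 128| = 2 ^ 128 := abs_of_pos (by positivity)
    rw [h2]
    calc (2 : ℝ) ^ 128 * _ ≤ 2 ^ 128 * (14 * 44 + 2 * 44 + 44) :=
          mul_le_mul_of_nonneg_left h1 (by positivity)
      _ ≤ 2 ^ 138 := by norm_num
  have hR : |((RI ct U j : ℤ) : ℝ)| ≤ 2 ^ 140 := by
    have e : ((RI ct U j : ℤ) : ℝ) =
        (((RI ct U j : ℤ) : ℝ) + 84 * 2 ^ 128 * Lc U.toFinset false j) -
          84 * 2 ^ 128 * Lc U.toFinset false j := by ring
    rw [e]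
    refine (abs_sub _ _).trans ((add_le_add key hL).trans ?_)
    norm_num
  exact_mod_cast hR

theorem nat_floor (n d : ℕ) (hd : 0 < d) : (n : ℝ) / (d : ℝ) ≤ ((n / d + 1 : ℕ) : ℝ) := by
  have hdr : (0 : ℝ) < (d : ℝ) := by exact_mod_cast hd
  rw [div_le_iff₀ hdr]
  have h : n < (n / d + 1) * d := by
    have := Nat.lt_div_mul_add (a := n) (b := d) hd
    rw [add_mul, one_mul]; exact this
  exact_mod_cast h.le

theorem epsI_pos (ct : ℕ → ℤ) (hct : ∀ m, |((ct m : ℤ) : ℝ) - 2 ^ 64 * cs m| ≤ 2) (U : List ℕ)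
    (hn : U.Nodup) (hl : U.length = 22) (hb : |sg U.toFinset false 1| ≤ 21 / 10) :
    2 ^ 67 * epsP (sg U.toFinset false 1) ≤ ((epsI ct U true : ℕ) : ℝ) := by
  have k1 := b2I_sound ct hct U hn hl hb
  have k2 : ((b2I ct U : ℤ) : ℝ) ≤ (((b2I ct U).toNat : ℕ) : ℝ) := by
    have := Int.self_le_toNat (b2I ct U)
    exact_mod_cast this
  have h := nat_floor (344 * ((b2I ct U).toNat + 400) + 296 * SC) (10 ^ 9) (by norm_num)
  have e : epsI ct U true = (344 * ((b2I ct U).toNat + 400) + 296 * SC) / 10 ^ 9 + 1 := by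
    unfold epsI
    rw [if_pos rfl]
  rw [e]
  refine le_trans ?_ h
  have hS : ((SC : ℕ) : ℝ) = 2 ^ 64 := by unfold SC; norm_num
  push_cast
  rw [hS]
  unfold epsP
  have k3 := (abs_le.1 k1).1
  have e2 : (2 : ℝ) ^ 67 * ((43 * sg U.toFinset false 1 ^ 2 + 37) / 10 ^ 9) =
      (344 * (2 ^ 64 * sg U.toFinset false 1 ^ 2) + 296 * 2 ^ 64) / 10 ^ 9 := by
    ring
  have e3 : (10 : ℝ) ^ 9 = 1000000000 := by norm_num
  rw [e2, e3]
  refine div_le_div_of_nonneg_right ?_ (by norm_num)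
  linarith

theorem epsI_neg (ct : ℕ → ℤ) (U : List ℕ) :
    2 ^ 67 * (2 / 10 ^ 9) ≤ ((epsI ct U false : ℕ) : ℝ) := by
  have h := nat_floor (16 * SC) (10 ^ 9) (by norm_num)
  have e : epsI ct U false = 16 * SC / 10 ^ 9 + 1 := by
    unfold epsI
    rw [if_neg (by simp)]
  rw [e]
  refine le_trans (le_of_eq ?_) h
  have hS : ((SC : ℕ) : ℝ) = 2 ^ 64 := by unfold SC; norm_num
  push_cast
  rw [hS]
  ring

end Pool.Agent.N14.TwoN.C2b
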