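import Mathlib
import Pool.Agent.N14.TwoN.Defs
import Pool.Agent.N14.TwoN.CertDefs

set_option autoImplicit false

namespace Pool.Agent.N14.TwoN.C2c

open Polynomial
open Pool.Agent.N14.TwoN

theorem c2c_packT (ct : ℕ → ℤ) (a n : ℕ) :
    packT ct a n = ∑ m ∈ Finset.range n, ct (m * a) * (B2 : ℤ) ^ m := by
  induction n with
  | zero => simp [packT]
  | succ n ih => rw [packT, ih, Finset.sum_range_succ, Nat.cast_pow]

theorem c2c_foldr (ct TL : ℕ → ℤ) (U : List ℕ)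
    (hTL : ∀ a ∈ U, TL a = packT ct a 83) :
    U.foldr (fun a s => TL a + s) 0 =
      ∑ m ∈ Finset.range 83, (U.foldr (fun a s => ct (m * a) + s) 0) * (B2 : ℤ) ^ m := by
  induction U with
  | nil => simp
  | cons a U ih =>
    simp only [List.foldr_cons]
    rw [ih (fun b hb => hTL b (List.mem_cons_of_mem _ hb)), hTL a List.mem_cons_self,
      c2c_packT, ← Finset.sum_add_distrib]
    exact Finset.sum_congr rfl fun m _ => by ring

theorem c2c_P (ct TL : ℕ → ℤ) (U : List ℕ) (hTL : ∀ a ∈ U, TL a = packT ct a 83) :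
    2 * (U.foldr (fun a s => TL a + s) 0) =
      ∑ m ∈ Finset.range 83, gI ct U m * (B2 : ℤ) ^ m := by
  rw [c2c_foldr ct TL U hTL]
  simp only [gI, Finset.mul_sum]
  exact Finset.sum_congr rfl fun m _ => by ring

theorem shift1 (g : ℕ → ℤ) (B : ℤ) :
    ∑ j ∈ Finset.range 83, g (ad (j + 1) 2) * B ^ j =
      g 1 + B * (∑ j ∈ Finset.range 83, g j * B ^ j - g 82 * B ^ 82) := by
  rw [Finset.sum_range_succ' (fun j => g (ad (j + 1) 2) * B ^ j) 82,
    Finset.sum_range_succ (fun j => g j * B ^ j) 82, add_sub_cancel_right, Finset.mul_sum]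
  have h0 : ad (0 + 1) 2 = 1 := rfl
  have h1 : ∀ j, ad (j + 1 + 1) 2 = j := by intro j; unfold ad; omega
  simp only [h0, h1]
  rw [pow_zero, mul_one, add_comm]
  congr 1
  exact Finset.sum_congr rfl fun m _ => by ring

theorem shift3 (g : ℕ → ℤ) (B : ℤ) :
    ∑ j ∈ Finset.range 83, g (ad (j + 1) 4) * B ^ j =
      g 3 + B * g 2 + B ^ 2 * g 1 + B ^ 3 * (∑ j ∈ Finset.range 83, g j * B ^ j -
        g 80 * B ^ 80 - g 81 * B ^ 81 - g 82 * B ^ 82) := by
  rw [Finset.sum_range_succ' (fun j => g (ad (j + 1) 4) * B ^ j) 82,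
    Finset.sum_range_succ' (fun j => g (ad (j + 1 + 1) 4) * B ^ (j + 1)) 81,
    Finset.sum_range_succ' (fun j => g (ad (j + 1 + 1 + 1) 4) * B ^ (j + 1 + 1)) 80,
    Finset.sum_range_succ (fun j => g j * B ^ j) 82,
    Finset.sum_range_succ (fun j => g j * B ^ j) 81,
    Finset.sum_range_succ (fun j => g j * B ^ j) 80]
  have h0 : ad (0 + 1) 4 = 3 := rfl
  have h1 : ad (0 + 1 + 1) 4 = 2 := rfl
  have h2 : ad (0 + 1 + 1 + 1) 4 = 1 := rfl
  have h3 : ∀ j, ad (j + 1 + 1 + 1 + 1) 4 = j := by intro j; unfold ad; omega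
  simp only [h0, h1, h2, h3]
  have h4 : ∑ j ∈ Finset.range 80, g j * B ^ (j + 1 + 1 + 1) =
      B ^ 3 * ∑ j ∈ Finset.range 80, g j * B ^ j := by
    rw [Finset.mul_sum]
    exact Finset.sum_congr rfl fun m _ => by ring
  rw [h4]
  ring

theorem rowW_sound (ct TL : ℕ → ℤ) (U : List ℕ) (hTL : ∀ a ∈ U, TL a = packT ct a 83) :
    rowW ct TL U = ∑ j ∈ Finset.range 83, RI ct U (j + 1) * (B2 : ℤ) ^ j := by
  have hP := c2c_P ct TL U hTL
  simp only [rowW]
  rw [hP]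
  have h1 : ∀ j, RI ct U (j + 1) * (B2 : ℤ) ^ j = alI ct U * (gI ct U j * (B2 : ℤ) ^ j) -
      beI ct U * (gI ct U (ad (j + 1) 2) * (B2 : ℤ) ^ j) -
      (SC : ℤ) * (gI ct U (ad (j + 1) 4) * (B2 : ℤ) ^ j) := by
    intro j
    simp only [RI, Nat.add_sub_cancel]
    ring
  rw [Finset.sum_congr rfl fun j _ => h1 j, Finset.sum_sub_distrib, Finset.sum_sub_distrib,
    ← Finset.mul_sum, ← Finset.mul_sum, ← Finset.mul_sum, shift1 (fun m => gI ct U m),
    shift3 (fun m => gI ct U m)]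
  simp only [Nat.cast_pow]

end Pool.Agent.N14.TwoN.C2c
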