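import Mathlib
import Pool.Agent.N14.TwoN.Defs
import Pool.Agent.N14.TwoN.CertDefs

set_option autoImplicit false

/-! From integer checks to real bounds. -/

namespace Pool.Agent.N14.TwoN.C2d

open Pool.Agent.N14.TwoN

theorem SC_cast : ((SC : ℕ) : ℝ) = 2 ^ 64 := by unfold SC; norm_num

theorem low (g : ℤ) (b : ℝ) (k : |(g : ℝ) - 2 ^ 64 * b| ≤ 88) (h : SC + 100 ≤ g.toNat) :
    1 ≤ b := by
  have h1 : ((SC : ℕ) : ℤ) + 100 ≤ g := by omega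
  have h2 : ((SC : ℕ) : ℝ) + 100 ≤ (g : ℝ) := by exact_mod_cast h1
  rw [SC_cast] at h2
  have h3 := (abs_le.1 k).2
  norm_num at h2 h3
  linarith

theorem high (g : ℤ) (b : ℝ) (k : |(g : ℝ) - 2 ^ 64 * b| ≤ 88)
    (h : 10 * g.toNat + 1000 ≤ 21 * SC) : b ≤ 21 / 10 := by
  have h1 : 10 * g + 1000 ≤ 21 * ((SC : ℕ) : ℤ) := by omega
  have h2 : 10 * (g : ℝ) + 1000 ≤ 21 * ((SC : ℕ) : ℝ) := by exact_mod_cast h1
  rw [SC_cast] at h2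
  have h3 := (abs_le.1 k).1
  norm_num at h2 h3
  linarith

theorem absu (g : ℤ) (b : ℝ) (k : |(g : ℝ) - 2 ^ 64 * b| ≤ 459)
    (h : g.natAbs + 500 ≤ 4 * SC) : |b| ≤ 4 := by
  have h1 : g + 500 ≤ 4 * ((SC : ℕ) : ℤ) ∧ -g + 500 ≤ 4 * ((SC : ℕ) : ℤ) := by omega
  have h2 : (g : ℝ) + 500 ≤ 4 * ((SC : ℕ) : ℝ) := by exact_mod_cast h1.1
  have h2' : -(g : ℝ) + 500 ≤ 4 * ((SC : ℕ) : ℝ) := by exact_mod_cast h1.2
  rw [SC_cast] at h2 h2'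
  have h3 := abs_le.1 k
  rw [abs_le]
  norm_num at h2 h2' h3
  constructor <;> linarith [h3.1, h3.2]

theorem abse (g : ℤ) (b : ℝ) (k : |(g : ℝ) - 2 ^ 67 * b| ≤ 2 ^ 14)
    (h : 1000 * (g.natAbs + 2 ^ 14) ≤ 2 ^ 67) : |b| ≤ 1 / 1000 := by
  have h1 : 1000 * (g + 2 ^ 14) ≤ 2 ^ 67 ∧ 1000 * (-g + 2 ^ 14) ≤ 2 ^ 67 := by omega
  have h2 : 1000 * ((g : ℝ) + 2 ^ 14) ≤ 2 ^ 67 := by exact_mod_cast h1.1
  have h2' : 1000 * (-(g : ℝ) + 2 ^ 14) ≤ 2 ^ 67 := by exact_mod_cast h1.2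
  have h3 := abs_le.1 k
  rw [abs_le]
  norm_num at h2 h2' h3 ⊢
  constructor <;> linarith [h3.1, h3.2]

end Pool.Agent.N14.TwoN.C2d
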