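import Mathlib
import Pool.Agent.N14.TwoN.Defs
import Pool.Agent.N14.TwoN.CertDefs
import Pool.Agent.N14.TwoN.C3b

set_option autoImplicit false

namespace Pool.Agent.N14.TwoN.C3c

open Polynomial
open Pool.Agent.N14.TwoN

theorem nice_sound_incr (U : List ℕ) (h : incr U = true) : U.Pairwise (· < ·) := by
  induction U with
  | nil => exact List.Pairwise.nil
  | cons a l ih =>
    cases l with
    | nil => exact List.pairwise_singleton _ _
    | cons b l =>
      simp only [incr, Bool.and_eq_true] at h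
      have h1 : a < b := Nat.blt_eq.mp h.1
      have h2 := ih h.2
      refine List.pairwise_cons.2 ⟨?_, h2⟩
      intro c hc
      rcases List.mem_cons.1 hc with rfl | hc
      · exact h1
      · exact h1.trans ((List.pairwise_cons.1 h2).1 c hc)

theorem nice_sound_cardUP (e : ℕ) (he : e < 2) : (UP e).card = if e = 0 then 41 else 42 := by
  have h0 : (UP 0).card = 41 := by decide +kernel
  have h1 : (UP 1).card = 42 := by decide +kernel
  interval_cases e
  · simpa using h0
  · simpa using h1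

theorem nice_sound_compL (e : ℕ) (U : List ℕ) :
    (compL e U).toFinset = comp e U.toFinset ∧ (compL e U).Nodup := by
  constructor
  · ext a
    simp only [compL, comp, UP, List.mem_toFinset, List.mem_filter, List.mem_range,
      Finset.mem_sdiff, Finset.mem_filter, Finset.mem_Ioo, Bool.and_eq_true, Nat.blt_eq,
      Nat.beq_eq, Bool.not_eq_true', List.elem_eq_mem, decide_eq_false_iff_not]
    tauto
  · exact (List.nodup_range).filter _

theorem nice_sound_close (F G : ℝ[X]) (q : ℕ → ℤ) (deg : ℕ) (hdeg : deg ≤ 44)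
    (sumAbs_eq : ∀ (n : ℕ) (q : ℕ → ℤ),
      sumAbs ((List.range n).reverse.map q) = ∑ i ∈ Finset.range n, (q i).natAbs)
    (h1 : ∀ i, i ≤ deg → |((q i : ℤ) : ℝ) - 2 ^ 40 * G.coeff i| ≤ 23068673)
    (h2 : ∀ i, deg < i → G.coeff i = 0)
    (hc : ∀ i, |F.coeff i - G.coeff i| ≤ 1 / 5000 * nrm G) :
    ∀ i, i ≤ deg → |2 ^ 40 * F.coeff i - ((q i : ℤ) : ℝ)| ≤
      (DQ ((List.range (deg + 1)).reverse.map q) : ℝ) := by
  intro i hi
  have hn : (2 : ℝ) ^ 40 * nrm G ≤
      ((sumAbs ((List.range (deg + 1)).reverse.map q) + 45 * EE : ℕ) : ℝ) := by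
    rw [sumAbs_eq, nrm]
    have hsub : Finset.range (deg + 1) ⊆ Finset.range 85 := by
      apply Finset.range_subset_range.2; omega
    rw [← Finset.sum_subset hsub (f := fun i => |G.coeff i|)]
    · rw [Finset.mul_sum]
      have hb : ∀ j ∈ Finset.range (deg + 1), (2 : ℝ) ^ 40 * |G.coeff j| ≤
          ((q j).natAbs : ℝ) + 23068673 := by
        intro j hj
        have hj' : j ≤ deg := by have := Finset.mem_range.1 hj; omega
        have h3 := h1 j hj'
        have h4 : ((q j).natAbs : ℝ) = |((q j : ℤ) : ℝ)| := by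
          rw [Nat.cast_natAbs]; simp
        rw [h4]
        have h5 : (2 : ℝ) ^ 40 * |G.coeff j| = |2 ^ 40 * G.coeff j| := by
          rw [abs_mul]; norm_num
        rw [h5]
        have h6 := abs_sub_abs_le_abs_sub (2 ^ 40 * G.coeff j) ((q j : ℤ) : ℝ)
        rw [abs_sub_comm] at h6
        linarith
      refine (Finset.sum_le_sum hb).trans ?_
      rw [Finset.sum_add_distrib, Finset.sum_const, Finset.card_range]
      push_cast [EE]
      have h7 : ((deg : ℝ)) ≤ 44 := by exact_mod_cast hdeg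
      simp only [nsmul_eq_mul]
      push_cast
      nlinarith
    · intro j _ hj
      have : deg < j := by
        by_contra hcon
        exact hj (Finset.mem_range.2 (by omega))
      rw [h2 j this]; simp
  have h3 := h1 i hi
  have h4 := hc i
  set N : ℕ := sumAbs ((List.range (deg + 1)).reverse.map q) + 45 * EE with hN
  have hDQ : (20 : ℝ) * (N : ℝ) / 100000 + EE ≤
      (DQ ((List.range (deg + 1)).reverse.map q) : ℝ) := by
    have h5 : (20 * N : ℕ) < (20 * N / 100000 + 1) * 100000 := by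
      have := Nat.lt_div_mul_add (a := 20 * N) (b := 100000) (by norm_num)
      omega
    have h6 : ((20 * N : ℕ) : ℝ) < ((20 * N / 100000 + 1 : ℕ) : ℝ) * 100000 := by exact_mod_cast h5
    have h7 : DQ ((List.range (deg + 1)).reverse.map q) = 20 * N / 100000 + 1 + EE := by
      rw [DQ, hN]
    rw [h7]
    push_cast at h6 ⊢
    linarith
  have h8 : |2 ^ 40 * F.coeff i - ((q i : ℤ) : ℝ)| ≤
      2 ^ 40 * |F.coeff i - G.coeff i| + |((q i : ℤ) : ℝ) - 2 ^ 40 * G.coeff i| := by
    have h9 : 2 ^ 40 * F.coeff i - ((q i : ℤ) : ℝ) =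
        2 ^ 40 * (F.coeff i - G.coeff i) - (((q i : ℤ) : ℝ) - 2 ^ 40 * G.coeff i) := by ring
    rw [h9]
    refine (abs_sub _ _).trans ?_
    rw [abs_mul]; norm_num
  have hEE : (EE : ℝ) = 23068674 := by simp [EE]
  have h10 : (2 : ℝ) ^ 40 * |F.coeff i - G.coeff i| ≤ 1 / 5000 * (2 ^ 40 * nrm G) := by
    have h12 := mul_le_mul_of_nonneg_left h4 (by positivity : (0 : ℝ) ≤ 2 ^ 40)
    have h13 : (2 : ℝ) ^ 40 * (1 / 5000 * nrm G) = 1 / 5000 * (2 ^ 40 * nrm G) := by ring
    rw [h13] at h12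
    exact h12
  have h11 : 1 / 5000 * ((2 : ℝ) ^ 40 * nrm G) ≤ 1 / 5000 * (N : ℝ) :=
    mul_le_mul_of_nonneg_left hn (by positivity : (0 : ℝ) ≤ 1 / 5000)
  rw [hEE] at hDQ
  linarith

theorem nice_sound_top (F G : ℝ[X]) (q : ℕ → ℤ) (i : ℕ)
    (h1 : |((q i : ℤ) : ℝ) - 2 ^ 40 * G.coeff i| ≤ 23068673)
    (hc : |F.coeff i - G.coeff i| ≤ 1 / 5000) :
    |2 ^ 40 * F.coeff i - ((q i : ℤ) : ℝ)| ≤ (DB : ℝ) := by
  have h8 : |2 ^ 40 * F.coeff i - ((q i : ℤ) : ℝ)| ≤
      2 ^ 40 * |F.coeff i - G.coeff i| + |((q i : ℤ) : ℝ) - 2 ^ 40 * G.coeff i| := by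
    have h9 : 2 ^ 40 * F.coeff i - ((q i : ℤ) : ℝ) =
        2 ^ 40 * (F.coeff i - G.coeff i) - (((q i : ℤ) : ℝ) - 2 ^ 40 * G.coeff i) := by ring
    rw [h9]
    refine (abs_sub _ _).trans ?_
    rw [abs_mul]; norm_num
  have hDB : (2 : ℝ) ^ 40 / 5000 + 23068673 ≤ (DB : ℝ) := by
    norm_num [DB, EE]
  have : (2 : ℝ) ^ 40 * |F.coeff i - G.coeff i| ≤ 2 ^ 40 / 5000 := by
    have : (0:ℝ) < 2 ^ 40 := by positivity
    calc (2 : ℝ) ^ 40 * |F.coeff i - G.coeff i| ≤ 2 ^ 40 * (1 / 5000) := by gcongr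
      _ = 2 ^ 40 / 5000 := by ring
  linarith

theorem nice_sound_pos (x : ℝ) (z : ℤ) (d : ℕ) (h : |2 ^ 40 * x - (z : ℝ)| ≤ (d : ℝ))
    (hz : Nat.blt d z.toNat = true) : 0 < x := by
  have h1 : d < z.toNat := Nat.blt_eq.mp hz
  have h2 : (d : ℤ) < z := by omega
  have h3 : (d : ℝ) < (z : ℝ) := by exact_mod_cast h2
  have h4 := (abs_le.1 h).1
  have h5 : 0 < 2 ^ 40 * x := by linarith
  exact (mul_pos_iff_of_pos_left (by positivity)).1 h5

theorem nice_sound_neg (x : ℝ) (z : ℤ) (d : ℕ) (h : |2 ^ 40 * x - (z : ℝ)| ≤ (d : ℝ))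
    (hz : Nat.blt d (-z).toNat = true) : x < 0 := by
  have h1 : |2 ^ 40 * (-x) - ((-z : ℤ) : ℝ)| ≤ (d : ℝ) := by
    have e : 2 ^ 40 * (-x) - ((-z : ℤ) : ℝ) = -(2 ^ 40 * x - (z : ℝ)) := by push_cast; ring
    rw [e, abs_neg]
    exact h
  have := nice_sound_pos (-x) (-z) d h1 hz
  linarith

theorem nice_sound_range (q : ℕ → ℤ) (n : ℕ) :
    (List.range (n + 1)).reverse.map q = q n :: (List.range n).reverse.map q := by
  rw [List.range_succ, List.reverse_append]; rfl

theorem nice_sound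
    (coefR_sound : ∀ (ct : ℕ → ℤ), (∀ m, |((ct m : ℤ) : ℝ) - 2 ^ 64 * cs m| ≤ 2) →
      (∀ m, |ct m| ≤ 2 ^ 64) → ∀ (U : List ℕ), U.Nodup → ∀ (pm : Bool) (deg : ℕ),
      deg = 2 * U.length + (if pm then 2 else 0) → 1 ≤ U.length → deg ≤ 44 →
      ∃ q : ℕ → ℤ, coefR deg U.length (prodW ct U pm) = (List.range (deg + 1)).reverse.map q ∧
        (∀ i, i ≤ deg → |((q i : ℤ) : ℝ) - 2 ^ 40 * (FU U.toFinset pm).coeff i| ≤ 23068673) ∧
        (∀ i, deg < i → (FU U.toFinset pm).coeff i = 0))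
    (ct : ℕ → ℤ) (hct : ∀ m, |((ct m : ℤ) : ℝ) - 2 ^ 64 * cs m| ≤ 2) (hcb : ∀ m, |ct m| ≤ 2 ^ 64)
    (e : ℕ) (U : List ℕ) (pm : Bool) (hv : validL e U pm = true)
    (hc : niceCheck ct e U pm = true) :
    Valid e U.toFinset pm ∧ U.Nodup ∧ (∀ a ∈ U, a < 84 ∧ a % 2 = e) ∧
      U.length + (if pm then 1 else 0) = 22 ∧ NiceSet e U.toFinset pm := by
  classical
  simp only [validL, Bool.and_eq_true, List.all_eq_true, Nat.blt_eq, Nat.beq_eq] at hv
  obtain ⟨⟨⟨⟨he, hall⟩, hin⟩, hlen⟩, hpe⟩ := hv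
  have hnd : U.Nodup := (nice_sound_incr U hin).imp (fun h => ne_of_lt h)
  have hp : pm = true → e = 0 := by
    intro h
    simpa [h] using hpe
  have hcard : U.toFinset.card = U.length := List.toFinset_card_of_nodup hnd
  have hsub : U.toFinset ⊆ UP e := by
    intro a ha
    obtain ⟨⟨h1, h2⟩, h3⟩ := hall a (List.mem_toFinset.1 ha)
    exact Finset.mem_filter.2 ⟨Finset.mem_Ioo.2 ⟨h1, h2⟩, h3⟩
  obtain ⟨hcomp, hcnd⟩ := nice_sound_compL e U
  have hclen : (compL e U).length + U.length = if e = 0 then 41 else 42 := by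
    rw [← List.toFinset_card_of_nodup hcnd, hcomp, comp, ← hcard,
      Finset.card_sdiff_add_card_eq_card hsub, nice_sound_cardUP e he]
  have hlen' : U.length + (if pm then 1 else 0) = 22 := hlen
  have hdeg1 : 44 = 2 * U.length + (if pm then 2 else 0) := by
    cases pm <;> simp at hlen' ⊢ <;> omega
  have hdeg2 : 40 = 2 * (compL e U).length + (if cpm e pm then 2 else 0) := by
    cases pm
    · simp only [Bool.false_eq_true, if_false] at hlen'
      by_cases h0 : e = 0
      · rw [if_pos h0] at hclen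
        simp only [cpm, h0, decide_true, Bool.not_false, Bool.and_self, if_true]
        subst h0
        omega
      · rw [if_neg h0] at hclen
        simp only [cpm, h0, decide_false, Bool.false_and, Bool.false_eq_true, if_false]
        omega
    · have h0 := hp rfl
      rw [if_pos h0] at hclen
      simp only [if_true] at hlen'
      simp only [cpm, Bool.not_true, Bool.and_false, Bool.false_eq_true, if_false]
      omega
  have hU1 : 1 ≤ U.length := by
    cases pm <;> simp at hlen' <;> omega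
  have hC1 : 1 ≤ (compL e U).length := by
    cases pm
    · simp only [Bool.false_eq_true, if_false] at hlen'
      split_ifs at hclen <;> omega
    · simp only [if_true] at hlen'
      split_ifs at hclen <;> omega
  refine ⟨⟨he, hsub, ?_, hp⟩, hnd, fun a ha => ⟨(hall a ha).1.2, (hall a ha).2⟩, hlen', ?_⟩
  · rw [hcard]; exact hlen'
  · intro F1 F2 c1 c2 t1 t2 z4
    simp only [niceCheck, Bool.and_eq_true] at hc
    obtain ⟨n1, n2⟩ := hc
    obtain ⟨q, hq, hq1, hq2⟩ := coefR_sound ct hct hcb U hnd pm 44 hdeg1 hU1 le_rfl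
    obtain ⟨p, hp', hp1, hp2⟩ := coefR_sound ct hct hcb (compL e U) hcnd (cpm e pm) 40 hdeg2 hC1
      (by norm_num)
    rw [hcomp] at hp1 hp2
    rw [hq] at n1
    rw [hp'] at n2
    have b1 := nice_sound_close F1 _ q 44 le_rfl C3b.sumAbs_eq hq1 hq2 c1
    have b2 := nice_sound_close F2 _ p 40 (by norm_num) C3b.sumAbs_eq hp1 hp2 c2
    have d1 := nice_sound_top F1 _ q 43 (hq1 43 (by norm_num)) t1
    have d2 := nice_sound_top F2 _ p 39 (hp1 39 (by norm_num)) t2
    set L1 := DQ ((List.range (44 + 1)).reverse.map q) with hL1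
    set L2 := DQ ((List.range (40 + 1)).reverse.map p) with hL2
    have g1 : (List.range (44 + 1)).reverse.map q = q 44 :: q 43 :: q 42 :: q 41 :: q 40 ::
        (List.range (39 + 1)).reverse.map q := by
      rw [nice_sound_range q 44, nice_sound_range q 43, nice_sound_range q 42,
        nice_sound_range q 41, nice_sound_range q 40]
    have g2 : (List.range (40 + 1)).reverse.map p = p 40 :: p 39 ::
        (List.range (38 + 1)).reverse.map p := by
      rw [nice_sound_range p 40, nice_sound_range p 39]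
    have n1' : Nat.blt DB (-q 43).toNat = true ∧
        hloopS false (-q 43) L1 true [q 42, q 41, q 40] 0 0 = true ∧
        hloopS false (-q 43) L1 true ((List.range (39 + 1)).reverse.map q) 0 0 = true ∧
        Nat.blt L1 (lastL ((List.range (39 + 1)).reverse.map q)).toNat = true := by
      rw [hL1]
      rw [g1] at n1 ⊢
      simp only [nice1L, Bool.and_eq_true] at n1
      exact n1
    have n2' : Nat.blt DB (p 39).toNat = true ∧
        hloopS true (-p 39) L2 true ((List.range (38 + 1)).reverse.map p) 0 0 = true ∧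
        Nat.blt L2 (lastL ((List.range (38 + 1)).reverse.map p)).toNat = true := by
      rw [hL2]
      rw [g2] at n2 ⊢
      simp only [nice2L, Bool.and_eq_true] at n2
      exact n2
    obtain ⟨m1, m2, m3, m4⟩ := n1'
    obtain ⟨k1, k2, k3⟩ := n2'
    rw [C3b.lastL_eq] at m4 k3
    rw [C3b.reverse_map] at m3 k2
    have e1 : hs F1 44 1 = 0 := by simp [hs]
    have e2 : hs F2 40 1 = 0 := by simp [hs]
    have hb1 : |2 ^ 40 * (-F1.coeff (44 - 1)) - ((-q 43 : ℤ) : ℝ)| ≤ (DB : ℝ) := by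
      have h := d1
      rw [abs_sub_comm] at h
      have h' : 2 ^ 40 * -F1.coeff (44 - 1) - ((-q 43 : ℤ) : ℝ) =
        ((q 43 : ℤ) : ℝ) - 2 ^ 40 * F1.coeff 43 := by push_cast; norm_num; ring
      rw [h']; exact h
    have hb2 : |2 ^ 40 * (-F2.coeff (40 - 1)) - ((-p 39 : ℤ) : ℝ)| ≤ (DB : ℝ) := by
      have h := d2
      rw [abs_sub_comm] at h
      have h' : 2 ^ 40 * -F2.coeff (40 - 1) - ((-p 39 : ℤ) : ℝ) =
        ((p 39 : ℤ) : ℝ) - 2 ^ 40 * F2.coeff 39 := by push_cast; norm_num; ring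
      rw [h']; exact h
    have s1 := C3b.hloopS_sound F1 44 false (-q 43) L1 q hb1 (fun i hi => b1 i hi) 3 1 true 0 0
      (by norm_num) (by rw [e1]; simp) m2
    have s2 := C3b.hloopS_sound F1 44 false (-q 43) L1 q hb1 (fun i hi => b1 i hi) 40 4 true 0 0
      (by norm_num) (by rw [z4]; simp) m3
    have s3 := C3b.hloopS_sound F2 40 true (-p 39) L2 p hb2 (fun i hi => b2 i hi) 39 1 true 0 0
      (by norm_num) (by rw [e2]; simp) k2
    refine ⟨⟨z4, nice_sound_neg _ _ _ d1 m1, nice_sound_pos _ _ _ (b1 0 (by norm_num)) m4, ?_⟩,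
      nice_sound_pos _ _ _ d2 k1, nice_sound_pos _ _ _ (b2 0 (by norm_num)) k3, ?_⟩
    · intro l h1 h2 h3
      rcases Nat.lt_or_ge l 4 with h4 | h4
      · have := s1 l (by omega) (by omega)
        simpa [C3b.sgS] using this
      · have := s2 l (by omega) (by omega)
        simpa [C3b.sgS] using this
    · intro l h1 h2
      have := s3 l (by omega) (by omega)
      have h5 : C3b.sgS true true (l - 1 - 1) = (-1) ^ l := by
        simp only [C3b.sgS, if_true, one_mul]
        obtain ⟨m, rfl⟩ : ∃ m, l = m + 2 := ⟨l - 2, by omega⟩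
        have h6 : m + 2 - 1 - 1 = m := by omega
        rw [h6, pow_add]
        norm_num
      rwa [h5] at this

end Pool.Agent.N14.TwoN.C3c
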