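import Mathlib
import Pool.Agent.N14.TwoN.Defs
import Pool.Agent.N14.TwoN.CertDefs
import Pool.Agent.N14.TwoN.C2a

set_option autoImplicit false

/-! Soundness of the dual certificate. -/

namespace Pool.Agent.N14.TwoN.C4

open Polynomial
open Pool.Agent.N14.TwoN

/-- sign of the row -/
def sgR (ct : ℕ → ℤ) (t : List ℕ) : ℤ := if 0 < etaI ct t then 1 else -1

/-- the bound of the row -/
def HR (ct : ℕ → ℤ) (t : List ℕ) : ℕ :=
  (etaI ct t).natAbs + 2 ^ 14 + epsI ct t (decide (0 < etaI ct t))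

theorem rowS_snd (ct TL : ℕ → ℤ) (t : List ℕ) : (rowS ct TL t).2 = HR ct t := by
  unfold rowS HR
  by_cases h : 0 < etaI ct t
  · rw [if_pos h, decide_eq_true h]
  · rw [if_neg h, decide_eq_false h]

theorem rowS_fst (ct TL : ℕ → ℤ) (t : List ℕ) : (rowS ct TL t).1 = sgR ct t * rowW ct TL t := by
  unfold rowS sgR
  split_ifs <;> simp

/-- the digits of the combination -/
def VV (ct : ℕ → ℤ) : List (List ℕ) → ℕ → ℕ → ℤ
  | [], _, _ => 0
  | t :: ts, n, j => ((n % 2 ^ 20 : ℕ) : ℤ) * (sgR ct t * RI ct t (j + 1)) +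
      VV ct ts (n / 2 ^ 20) j

theorem bd_eq (j : ℕ) : bd j = (bdN j : ℝ) / 10 ^ 7 := rfl

theorem sumbd : ∑ i ∈ Finset.range 83, bd (1 + i) = 22960 / 10 ^ 7 := by
  simp_rw [bd_eq]
  rw [← Finset.sum_div, ← Nat.cast_sum]
  have : ∑ i ∈ Finset.range 83, bdN (1 + i) = 22960 := by decide
  rw [this]
  norm_num

theorem reidx (f : ℕ → ℝ) :
    ∑ j ∈ Finset.Icc 1 83, f j = ∑ i ∈ Finset.range 83, f (1 + i) := by
  have h : Finset.Icc 1 83 = Finset.Ico 1 84 := by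
    ext x; simp only [Finset.mem_Icc, Finset.mem_Ico]; omega
  rw [h, Finset.sum_Ico_eq_sum_range]

theorem combV_eq (ct TL : ℕ → ℤ) (l : List (List ℕ)) :
    (∀ t ∈ l, rowW ct TL t = ∑ j ∈ Finset.range 83, RI ct t (j + 1) * (B2 : ℤ) ^ j) → ∀ n,
    combV (l.map (fun t => rowS ct TL t)) n =
      ∑ j ∈ Finset.range 83, VV ct l n j * (B2 : ℤ) ^ j := by
  induction l with
  | nil =>
    intro _ n
    simp [combV, VV]
  | cons t ts ih =>
    intro h n
    rw [List.map_cons]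
    simp only [combV, VV]
    rw [ih (fun t ht => h t (List.mem_cons_of_mem _ ht)), rowS_fst,
      h t (List.mem_cons_self), Finset.mul_sum, Finset.mul_sum, ← Finset.sum_add_distrib]
    apply Finset.sum_congr rfl
    intro j _
    ring

theorem sgabs (ct : ℕ → ℤ) (t : List ℕ) : |sgR ct t| = 1 := by
  unfold sgR
  split_ifs <;> simp

theorem VV_bd (ct TL : ℕ → ℤ) (l : List (List ℕ)) :
    (∀ t ∈ l, ∀ j, |RI ct t j| ≤ 2 ^ 140) → ∀ n j,
    |VV ct l n j| ≤ ((combS (l.map (fun t => rowS ct TL t)) n : ℕ) : ℤ) * 2 ^ 140 := by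
  induction l with
  | nil =>
    intro _ n j
    simp [combS, VV]
  | cons t ts ih =>
    intro h n j
    rw [List.map_cons]
    simp only [combS, VV]
    have h1 := ih (fun t ht => h t (List.mem_cons_of_mem _ ht)) (n / 2 ^ 20) j
    have h2 := h t (List.mem_cons_self) (j + 1)
    have h3 : |((n % 2 ^ 20 : ℕ) : ℤ) * (sgR ct t * RI ct t (j + 1))| ≤
        ((n % 2 ^ 20 : ℕ) : ℤ) * 2 ^ 140 := by
      rw [abs_mul, abs_mul, sgabs, one_mul, abs_of_nonneg (Int.natCast_nonneg _)]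
      exact mul_le_mul_of_nonneg_left h2 (Int.natCast_nonneg _)
    refine (abs_add_le _ _).trans ?_
    rw [Nat.cast_add, add_mul]
    exact add_le_add h3 h1

theorem combS_le (l : List (ℤ × ℕ)) : ∀ n, combS l n ≤ l.length * 2 ^ 20 := by
  induction l with
  | nil => intro n; simp [combS]
  | cons r rs ih =>
    intro n
    simp only [combS, List.length_cons]
    have h1 := ih (n / 2 ^ 20)
    have h2 : n % 2 ^ 20 < 2 ^ 20 := Nat.mod_lt _ (by norm_num)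
    rw [add_mul, one_mul]
    omega

theorem detect_one (ct : ℕ → ℤ) (t : List ℕ) (σ : ℕ → ℝ) (hσ : Box σ)
    (hRI : ∀ j, |((RI ct t j : ℤ) : ℝ) + 84 * 2 ^ 128 * Lc t.toFinset false j| ≤ 2 ^ 81)
    (heta : |((etaI ct t : ℤ) : ℝ) - 2 ^ 67 * eta t.toFinset false| ≤ 2 ^ 14)
    (hbig : 2 ^ 15 < (etaI ct t).natAbs)
    (hep : 2 ^ 67 * epsP (sg t.toFinset false 1) ≤ ((epsI ct t true : ℕ) : ℝ))
    (hen : 2 ^ 67 * (2 / 10 ^ 9) ≤ ((epsI ct t false : ℕ) : ℝ))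
    (hnot : ¬ ((0 < eta t.toFinset false ∧
      eta t.toFinset false + L t.toFinset false σ < -epsP (sg t.toFinset false 1)) ∨
      (eta t.toFinset false < 0 ∧
        2 / 10 ^ 9 < eta t.toFinset false + L t.toFinset false σ))) :
    ∑ i ∈ Finset.range 83, σ (1 + i) * (((sgR ct t * RI ct t (i + 1) : ℤ)) : ℝ)
      ≤ 84 * 2 ^ 61 * ((HR ct t : ℕ) : ℝ) + 2 ^ 81 * (22960 / 10 ^ 7) := by
  have hL : L t.toFinset false σ =
      ∑ i ∈ Finset.range 83, σ (1 + i) * Lc t.toFinset false (1 + i) := by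
    unfold L
    rw [reidx]
  have h1 : |∑ i ∈ Finset.range 83, σ (1 + i) * ((RI ct t (i + 1) : ℤ) : ℝ) +
      84 * 2 ^ 128 * L t.toFinset false σ| ≤ 2 ^ 81 * (22960 / 10 ^ 7) := by
    have h2 : ∑ i ∈ Finset.range 83, σ (1 + i) * ((RI ct t (i + 1) : ℤ) : ℝ) +
      84 * 2 ^ 128 * L t.toFinset false σ =
      ∑ i ∈ Finset.range 83, σ (1 + i) * (((RI ct t (1 + i) : ℤ) : ℝ) +
        84 * 2 ^ 128 * Lc t.toFinset false (1 + i)) := by
      rw [hL, Finset.mul_sum, ← Finset.sum_add_distrib]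
      apply Finset.sum_congr rfl
      intro i _
      rw [add_comm i 1]
      ring
    rw [h2]
    refine (Finset.abs_sum_le_sum_abs _ _).trans ?_
    rw [← sumbd, Finset.mul_sum]
    apply Finset.sum_le_sum
    intro i hi
    rw [Finset.mem_range] at hi
    rw [abs_mul, mul_comm]
    exact mul_le_mul (hRI (1 + i)) (hσ (1 + i) (Finset.mem_Icc.2 ⟨by omega, by omega⟩))
      (abs_nonneg _) (by positivity)
  obtain ⟨e1, e2⟩ := abs_le.1 heta
  obtain ⟨f1, f2⟩ := abs_le.1 h1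
  push Not at hnot
  obtain ⟨g1, g2⟩ := hnot
  unfold HR
  rw [Nat.cast_add, Nat.cast_add]
  have hp14 : (((2 ^ 14 : ℕ)) : ℝ) = 2 ^ 14 := by norm_num
  rw [hp14]
  by_cases hE : 0 < etaI ct t
  · have hE1 : (2 : ℝ) ^ 15 < ((etaI ct t : ℤ) : ℝ) := by
      have : (2 : ℤ) ^ 15 < etaI ct t := by omega
      exact_mod_cast this
    have hE2 : (((etaI ct t).natAbs : ℕ) : ℝ) = ((etaI ct t : ℤ) : ℝ) := by
      rw [Nat.cast_natAbs, abs_of_pos hE]
    have het : 0 < eta t.toFinset false := by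
      by_contra hcon
      push Not at hcon
      nlinarith [hcon, e2, hE1]
    have g3 := g1 het
    have hsg : sgR ct t = 1 := by
      unfold sgR; rw [if_pos hE]
    rw [hE2, decide_eq_true hE]
    simp only [hsg, one_mul]
    linarith
  · have hE1 : ((etaI ct t : ℤ) : ℝ) < - (2 : ℝ) ^ 15 := by
      have : etaI ct t < -(2 : ℤ) ^ 15 := by omega
      exact_mod_cast this
    have hE2 : (((etaI ct t).natAbs : ℕ) : ℝ) = -((etaI ct t : ℤ) : ℝ) := by
      rw [Nat.cast_natAbs, abs_of_nonpos (not_lt.1 hE), Int.cast_neg]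
    have het : eta t.toFinset false < 0 := by
      by_contra hcon
      push Not at hcon
      nlinarith [hcon, e1, hE1]
    have g3 := g2 het
    have hsg : sgR ct t = -1 := by
      unfold sgR; rw [if_neg hE]
    have hneg : ∑ i ∈ Finset.range 83, σ (1 + i) *
        (((sgR ct t * RI ct t (i + 1) : ℤ)) : ℝ) =
        -∑ i ∈ Finset.range 83, σ (1 + i) * ((RI ct t (i + 1) : ℤ) : ℝ) := by
      rw [← Finset.sum_neg_distrib]
      apply Finset.sum_congr rfl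
      intro i _
      rw [hsg]
      push_cast
      ring
    rw [hE2, hneg, decide_eq_false hE]
    linarith

theorem detect_sum (ct TL : ℕ → ℤ) (σ : ℕ → ℝ) (l : List (List ℕ)) :
    (∀ t ∈ l, ∑ i ∈ Finset.range 83, σ (1 + i) * (((sgR ct t * RI ct t (i + 1) : ℤ)) : ℝ)
      ≤ 84 * 2 ^ 61 * ((HR ct t : ℕ) : ℝ) + 2 ^ 81 * (22960 / 10 ^ 7)) → ∀ n,
    ∑ i ∈ Finset.range 83, σ (1 + i) * ((VV ct l n i : ℤ) : ℝ) ≤
      84 * 2 ^ 61 * ((combH (l.map (fun t => rowS ct TL t)) n : ℕ) : ℝ) +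
      2 ^ 81 * (22960 / 10 ^ 7) * ((combS (l.map (fun t => rowS ct TL t)) n : ℕ) : ℝ) := by
  induction l with
  | nil =>
    intro _ n
    simp [combH, combS, VV]
  | cons t ts ih =>
    intro h n
    rw [List.map_cons]
    simp only [combH, combS, VV]
    have h1 := ih (fun t ht => h t (List.mem_cons_of_mem _ ht)) (n / 2 ^ 20)
    have h2 := h t (List.mem_cons_self)
    have h4 : ∑ i ∈ Finset.range 83, σ (1 + i) * ((((n % 2 ^ 20 : ℕ) : ℤ) *
        (sgR ct t * RI ct t (i + 1)) + VV ct ts (n / 2 ^ 20) i : ℤ) : ℝ) =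
        ((n % 2 ^ 20 : ℕ) : ℝ) * (∑ i ∈ Finset.range 83, σ (1 + i) *
        (((sgR ct t * RI ct t (i + 1) : ℤ)) : ℝ)) +
        ∑ i ∈ Finset.range 83, σ (1 + i) * ((VV ct ts (n / 2 ^ 20) i : ℤ) : ℝ) := by
      rw [Finset.mul_sum, ← Finset.sum_add_distrib]
      apply Finset.sum_congr rfl
      intro i _
      rw [Int.cast_add, Int.cast_mul, Int.cast_natCast]
      ring
    rw [h4, rowS_snd]
    have h5 := mul_le_mul_of_nonneg_left h2 (Nat.cast_nonneg (α := ℝ) (n % 2 ^ 20))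
    rw [Nat.cast_add, Nat.cast_mul, Nat.cast_add (n % 2 ^ 20)]
    linarith

theorem detect_final (σ : ℕ → ℝ) (hσ : Box σ) (j0 : ℕ) (hj0 : j0 ∈ Finset.Icc 1 83)
    (hb : |σ j0| = bd j0) (v : ℕ → ℤ) (d : ℕ → ℕ) (H : ℕ)
    (hd : ∀ i < 83, (d i : ℤ) = v i + H) (SS HH : ℕ)
    (hsum : ∑ i ∈ Finset.range 83, σ (1 + i) * (v i : ℝ) ≤
      84 * 2 ^ 61 * (HH : ℝ) + 2 ^ 81 * (22960 / 10 ^ 7) * (SS : ℝ))
    (hlt : (∑ i ∈ Finset.range 83, bdN (1 + i) * ((d i - H) + (H - d i))) +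
      22960 * 2 ^ 81 * SS + 840000000 * 2 ^ 61 * HH < 2 * bdN j0 *
        (if decide (0 < σ j0) = true then d (j0 - 1) - H else H - d (j0 - 1))) : False := by
  rw [Finset.mem_Icc] at hj0
  have hi0 : j0 - 1 < 83 := by omega
  have hj : 1 + (j0 - 1) = j0 := by omega
  -- absSum
  have hA : ((∑ i ∈ Finset.range 83, bdN (1 + i) * ((d i - H) + (H - d i)) : ℕ) : ℝ) =
      10 ^ 7 * ∑ i ∈ Finset.range 83, bd (1 + i) * |(v i : ℝ)| := by
    rw [Nat.cast_sum, Finset.mul_sum]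
    apply Finset.sum_congr rfl
    intro i hi
    have h1 := hd i (Finset.mem_range.1 hi)
    have h2 : (d i - H) + (H - d i) = (v i).natAbs := by omega
    rw [h2, Nat.cast_mul, Nat.cast_natAbs, bd_eq, Int.cast_abs]
    ring
  -- lower bound of the sum
  have hnn : ∀ i ∈ Finset.range 83, 0 ≤ σ (1 + i) * (v i : ℝ) + bd (1 + i) * |(v i : ℝ)| := by
    intro i hi
    rw [Finset.mem_range] at hi
    have h1 := hσ (1 + i) (Finset.mem_Icc.2 ⟨by omega, by omega⟩)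
    have h2 : -(|σ (1 + i)| * |(v i : ℝ)|) ≤ σ (1 + i) * (v i : ℝ) := by
      rw [← abs_mul]; exact neg_abs_le _
    have h3 := mul_le_mul_of_nonneg_right h1 (abs_nonneg (v i : ℝ))
    linarith
  have hlow := Finset.single_le_sum hnn (Finset.mem_range.2 hi0)
  rw [Finset.sum_add_distrib, hj] at hlow
  -- value of x
  have hx : (2 : ℝ) * ((bdN j0 : ℕ) : ℝ) *
      (((if decide (0 < σ j0) = true then d (j0 - 1) - H else H - d (j0 - 1)) : ℕ) : ℝ) =
      10 ^ 7 * (σ j0 * (v (j0 - 1) : ℝ) + bd j0 * |(v (j0 - 1) : ℝ)|) := by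
    have h1 := hd (j0 - 1) hi0
    by_cases hpos : 0 < σ j0
    · rw [if_pos (by simpa using hpos)]
      have h2 : 2 * ((d (j0 - 1) - H : ℕ) : ℤ) = v (j0 - 1) + |v (j0 - 1)| := by
        rw [Int.abs_eq_natAbs]; omega
      have h3 : (2 : ℝ) * ((d (j0 - 1) - H : ℕ) : ℝ) = (v (j0 - 1) : ℝ) + |(v (j0 - 1) : ℝ)| := by
        exact_mod_cast h2
      have h4 : σ j0 = bd j0 := by rw [← hb, abs_of_pos hpos]
      rw [h4, bd_eq]
      linear_combination ((bdN j0 : ℕ) : ℝ) * h3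
    · rw [if_neg (by simpa using hpos)]
      have h2 : 2 * ((H - d (j0 - 1) : ℕ) : ℤ) = |v (j0 - 1)| - v (j0 - 1) := by
        rw [Int.abs_eq_natAbs]; omega
      have h3 : (2 : ℝ) * ((H - d (j0 - 1) : ℕ) : ℝ) = |(v (j0 - 1) : ℝ)| - (v (j0 - 1) : ℝ) := by
        exact_mod_cast h2
      have h4 : σ j0 = -bd j0 := by rw [← hb, abs_of_nonpos (not_lt.1 hpos)]; ring
      rw [h4, bd_eq]
      linear_combination ((bdN j0 : ℕ) : ℝ) * h3
  have hlt' : ((∑ i ∈ Finset.range 83, bdN (1 + i) * ((d i - H) + (H - d i)) : ℕ) : ℝ) +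
      22960 * 2 ^ 81 * (SS : ℝ) + 840000000 * 2 ^ 61 * (HH : ℝ) < 2 * ((bdN j0 : ℕ) : ℝ) *
      (((if decide (0 < σ j0) = true then d (j0 - 1) - H else H - d (j0 - 1)) : ℕ) : ℝ) := by
    have := (Nat.cast_lt (α := ℝ)).2 hlt
    rw [Nat.cast_add, Nat.cast_add, Nat.cast_mul, Nat.cast_mul, Nat.cast_mul, Nat.cast_mul,
      Nat.cast_mul, Nat.cast_mul, Nat.cast_pow, Nat.cast_pow] at this
    exact_mod_cast this
  rw [hA, hx] at hlt'
  norm_num at hlt' hsum hlow ⊢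
  linarith

theorem detect_sound
    (ct TL : ℕ → ℤ) (Data : List (List ℕ)) (hlen : Data.length ≤ 1000)
    (hrow : ∀ t ∈ Data, rowW ct TL t = ∑ j ∈ Finset.range 83, RI ct t (j + 1) * (B2 : ℤ) ^ j)
    (hRI : ∀ t ∈ Data, ∀ j, |((RI ct t j : ℤ) : ℝ) + 84 * 2 ^ 128 * Lc t.toFinset false j| ≤ 2 ^ 81 ∧
      |RI ct t j| ≤ 2 ^ 140)
    (heta : ∀ t ∈ Data, |((etaI ct t : ℤ) : ℝ) - 2 ^ 67 * eta t.toFinset false| ≤ 2 ^ 14)
    (hbig : ∀ t ∈ Data, 2 ^ 15 < (etaI ct t).natAbs)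
    (hep : ∀ t ∈ Data, 2 ^ 67 * epsP (sg t.toFinset false 1) ≤ ((epsI ct t true : ℕ) : ℝ))
    (hen : ∀ t ∈ Data, 2 ^ 67 * (2 / 10 ^ 9) ≤ ((epsI ct t false : ℕ) : ℝ))
    (hLP : ∀ j0 ∈ Finset.Icc 1 83, ∀ pos : Bool, ∃ n,
      lpCheck (Data.map (fun t => rowS ct TL t)) j0 pos n = true) :
    Detect Data := by
  intro σ hσ j0 hj0 hb
  by_contra hcon
  push Not at hcon
  obtain ⟨n, hn⟩ := hLP j0 hj0 (decide (0 < σ j0))
  have h1 : ∀ t ∈ Data, ∑ i ∈ Finset.range 83, σ (1 + i) *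
        (((sgR ct t * RI ct t (i + 1) : ℤ)) : ℝ)
      ≤ 84 * 2 ^ 61 * ((HR ct t : ℕ) : ℝ) + 2 ^ 81 * (22960 / 10 ^ 7) := by
    intro t ht
    apply detect_one ct t σ hσ (fun j => (hRI t ht j).1) (heta t ht) (hbig t ht) (hep t ht)
      (hen t ht)
    push Not
    exact hcon t ht
  have h2 := detect_sum ct TL σ Data h1 n
  have h3 := combV_eq ct TL Data hrow n
  have h4 := VV_bd ct TL Data (fun t ht j => (hRI t ht j).2) n
  have h5 := combS_le (Data.map (fun t => rowS ct TL t)) n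
  rw [List.length_map] at h5
  have h6 : ∀ j, j < 83 → |VV ct Data n j| < ((H2 : ℕ) : ℤ) := by
    intro j _
    refine lt_of_le_of_lt (h4 j) ?_
    have h7 : combS (Data.map (fun t => rowS ct TL t)) n ≤ 1000 * 2 ^ 20 :=
      h5.trans (Nat.mul_le_mul_right _ hlen)
    have h8 : ((combS (Data.map (fun t => rowS ct TL t)) n : ℕ) : ℤ) ≤ 1000 * 2 ^ 20 := by
      exact_mod_cast h7
    calc ((combS (Data.map (fun t => rowS ct TL t)) n : ℕ) : ℤ) * 2 ^ 140
        ≤ (1000 * 2 ^ 20) * 2 ^ 140 := mul_le_mul_of_nonneg_right h8 (by positivity)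
      _ < ((H2 : ℕ) : ℤ) := by unfold H2; norm_num
  have hBH : B2 = 2 * H2 := by unfold B2 H2; norm_num
  have hH : 0 < H2 := by unfold H2; norm_num
  have h9 : ∀ j < 83, (((((combV (Data.map (fun t => rowS ct TL t)) n) +
      (offs B2 H2 83 : ℤ)).toNat / B2 ^ j % B2 : ℕ)) : ℤ) = VV ct Data n j + H2 := by
    intro j hj
    rw [h3]
    exact C2a.digit_sound B2 H2 83 hBH hH (VV ct Data n) h6 j hj
  unfold lpCheck at hn
  rw [Nat.blt_eq, C2a.absSum_eq] at hn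
  exact detect_final σ hσ j0 hj0 hb (VV ct Data n) (fun j =>
    ((combV (Data.map (fun t => rowS ct TL t)) n) +
      (offs B2 H2 83 : ℤ)).toNat / B2 ^ j % B2) H2 h9 _ _ h2 hn

end Pool.Agent.N14.TwoN.C4
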