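import Mathlib
import Pool.Agent.N14.TwoN.Defs

set_option autoImplicit false
set_option linter.unusedSimpArgs false

namespace Pool.Agent.N14.TwoN.C5

open Polynomial
open Pool.Agent.N14.TwoN

lemma csA (n : ℕ) (h : n ≤ 168) : cs n = cs (168 - n) := by
  unfold cs
  rw [Nat.cast_sub h, ← Real.cos_two_pi_sub]
  congr 1
  push_cast
  ring

lemma csB (n : ℕ) (h : n ≤ 84) : cs n = -cs (84 - n) := by
  unfold cs
  rw [Nat.cast_sub h, ← Real.cos_pi_sub]
  congr 1
  push_cast
  ring

theorem eta_zero_R (n d : ℕ) (hn : 1 < n) (hd : n * d = 168) (k : ℕ) :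
    ∑ t ∈ Finset.range n, cs (k + d * t) = 0 := by
  have hprim : IsPrimitiveRoot (Complex.exp (2 * Real.pi * Complex.I / n)) n :=
    Complex.isPrimitiveRoot_exp n (by omega)
  have hs := hprim.geom_sum_eq_zero hn
  have hn0 : (n : ℂ) ≠ 0 := by
    have : n ≠ 0 := by omega
    exact_mod_cast this
  have hdc : (n : ℂ) * d = 168 := by exact_mod_cast hd
  have h2 : ∑ t ∈ Finset.range n, Complex.exp (((Real.pi * ((k + d * t : ℕ) : ℝ) / 84 : ℝ) : ℂ)
      * Complex.I) = 0 := by
    have h1 : ∀ t : ℕ, Complex.exp (((Real.pi * ((k + d * t : ℕ) : ℝ) / 84 : ℝ) : ℂ) * Complex.I)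
        = Complex.exp (((Real.pi * (k : ℝ) / 84 : ℝ) : ℂ) * Complex.I) *
          (Complex.exp (2 * Real.pi * Complex.I / n)) ^ t := by
      intro t
      rw [← Complex.exp_nat_mul, ← Complex.exp_add]
      congr 1
      have hd' : (d : ℂ) = 168 / n := by
        field_simp
        rw [mul_comm]
        exact hdc
      push_cast
      rw [hd']
      field_simp
      ring
    simp_rw [h1, ← Finset.mul_sum, hs, mul_zero]
  have h3 := congrArg Complex.re h2
  rw [Complex.re_sum] at h3
  simp only [Complex.exp_ofReal_mul_I_re, Complex.zero_re] at h3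
  exact h3

lemma csP (n : ℕ) : cs (168 + n) = cs n := by
  unfold cs
  have e : Real.pi * ((168 + n : ℕ) : ℝ) / 84 = Real.pi * (n : ℝ) / 84 + 2 * Real.pi := by
    push_cast
    ring
  rw [e, Real.cos_add_two_pi]

lemma cs42 : cs 42 = 0 := by
  have := csB 42 (by norm_num)
  linarith

/-- the exact zero of `h_4` -/
def U0 : List ℕ := [7, 9, 11, 13, 15, 19, 27, 29, 33, 35, 37, 39, 43, 45, 49, 57, 67, 69, 75, 77, 81,
  83]

theorem sum1 : ∑ a ∈ U0.toFinset, cs (1 * a) = cs 21 := by
  rw [List.sum_toFinset _ (by decide : U0.Nodup)]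
  have e43 : cs 43 = -cs 41 := csB 43 (by norm_num)
  have e45 : cs 45 = -cs 39 := csB 45 (by norm_num)
  have e49 : cs 49 = -cs 35 := csB 49 (by norm_num)
  have e51 : cs 51 = -cs 33 := csB 51 (by norm_num)
  have e57 : cs 57 = -cs 27 := csB 57 (by norm_num)
  have e65 : cs 65 = -cs 19 := csB 65 (by norm_num)
  have e67 : cs 67 = -cs 17 := csB 67 (by norm_num)
  have e69 : cs 69 = -cs 15 := csB 69 (by norm_num)
  have e75 : cs 75 = -cs 9 := csB 75 (by norm_num)
  have e77 : cs 77 = -cs 7 := csB 77 (by norm_num)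
  have e81 : cs 81 = -cs 3 := csB 81 (by norm_num)
  have e83 : cs 83 = -cs 1 := csB 83 (by norm_num)
  have e99 : cs 99 = -cs 15 := (csA 99 (by norm_num)).trans (csB 69 (by norm_num))
  have e113 : cs 113 = -cs 29 := (csA 113 (by norm_num)).trans (csB 55 (by norm_num))
  have e121 : cs 121 = -cs 37 := (csA 121 (by norm_num)).trans (csB 47 (by norm_num))
  have e123 : cs 123 = -cs 39 := (csA 123 (by norm_num)).trans (csB 45 (by norm_num))
  have e125 : cs 125 = -cs 41 := (csA 125 (by norm_num)).trans (csB 43 (by norm_num))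
  have e147 : cs 147 = cs 21 := csA 147 (by norm_num)
  have r3_1 := eta_zero_R 3 56 (by norm_num) (by norm_num) 1
  have r3_9 := eta_zero_R 3 56 (by norm_num) (by norm_num) 9
  have r3_11 := eta_zero_R 3 56 (by norm_num) (by norm_num) 11
  have r3_13 := eta_zero_R 3 56 (by norm_num) (by norm_num) 13
  have r7_3 := eta_zero_R 7 24 (by norm_num) (by norm_num) 3
  simp only [Finset.sum_range_succ, Finset.sum_range_zero, Nat.reduceMul, Nat.reduceAdd,
    mul_zero, add_zero, zero_add, mul_one, e43, e45, e49, e51, e57, e65, e67, e69, e75, e77, e81, e83, e99, e113, e121, e123, e125, e147] at r3_1 r3_9 r3_11 r3_13 r7_3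
  simp only [U0, List.map_cons, List.map_nil, List.sum_cons, List.sum_nil, Nat.reduceMul,
    e43, e45, e49, e51, e57, e65, e67, e69, e75, e77, e81, e83, e99, e113, e121, e123, e125, e147]
  linear_combination (-1) * r3_1 + (-1) * r3_9 + (1) * r3_11 + (1) * r3_13 + (-1) * r7_3

theorem sum2 : ∑ a ∈ U0.toFinset, cs (2 * a) = 0 := by
  rw [List.sum_toFinset _ (by decide : U0.Nodup)]
  have e54 : cs 54 = -cs 30 := csB 54 (by norm_num)
  have e58 : cs 58 = -cs 26 := csB 58 (by norm_num)
  have e62 : cs 62 = -cs 22 := csB 62 (by norm_num)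
  have e66 : cs 66 = -cs 18 := csB 66 (by norm_num)
  have e70 : cs 70 = -cs 14 := csB 70 (by norm_num)
  have e74 : cs 74 = -cs 10 := csB 74 (by norm_num)
  have e78 : cs 78 = -cs 6 := csB 78 (by norm_num)
  have e86 : cs 86 = -cs 2 := (csA 86 (by norm_num)).trans (csB 82 (by norm_num))
  have e90 : cs 90 = -cs 6 := (csA 90 (by norm_num)).trans (csB 78 (by norm_num))
  have e98 : cs 98 = -cs 14 := (csA 98 (by norm_num)).trans (csB 70 (by norm_num))
  have e114 : cs 114 = -cs 30 := (csA 114 (by norm_num)).trans (csB 54 (by norm_num))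
  have e118 : cs 118 = -cs 34 := (csA 118 (by norm_num)).trans (csB 50 (by norm_num))
  have e122 : cs 122 = -cs 38 := (csA 122 (by norm_num)).trans (csB 46 (by norm_num))
  have e134 : cs 134 = cs 34 := csA 134 (by norm_num)
  have e138 : cs 138 = cs 30 := csA 138 (by norm_num)
  have e150 : cs 150 = cs 18 := csA 150 (by norm_num)
  have e154 : cs 154 = cs 14 := csA 154 (by norm_num)
  have e162 : cs 162 = cs 6 := csA 162 (by norm_num)
  have e166 : cs 166 = cs 2 := csA 166 (by norm_num)
  have r3_6 := eta_zero_R 3 56 (by norm_num) (by norm_num) 6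
  have r3_10 := eta_zero_R 3 56 (by norm_num) (by norm_num) 10
  simp only [Finset.sum_range_succ, Finset.sum_range_zero, Nat.reduceMul, Nat.reduceAdd,
    mul_zero, add_zero, zero_add, mul_one, e54, e58, e62, e66, e70, e74, e78, e86, e90, e98, e114, e118, e122, e134, e138, e150, e154, e162, e166] at r3_6 r3_10
  simp only [U0, List.map_cons, List.map_nil, List.sum_cons, List.sum_nil, Nat.reduceMul,
    e54, e58, e62, e66, e70, e74, e78, e86, e90, e98, e114, e118, e122, e134, e138, e150, e154, e162, e166]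
  linear_combination (-1) * r3_6 + (-1) * r3_10

theorem sum4 : ∑ a ∈ U0.toFinset, cs (4 * a) = 3 * cs 0 := by
  rw [List.sum_toFinset _ (by decide : U0.Nodup)]
  have e44 : cs 44 = -cs 40 := csB 44 (by norm_num)
  have e48 : cs 48 = -cs 36 := csB 48 (by norm_num)
  have e52 : cs 52 = -cs 32 := csB 52 (by norm_num)
  have e56 : cs 56 = -cs 28 := csB 56 (by norm_num)
  have e60 : cs 60 = -cs 24 := csB 60 (by norm_num)
  have e64 : cs 64 = -cs 20 := csB 64 (by norm_num)
  have e68 : cs 68 = -cs 16 := csB 68 (by norm_num)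
  have e72 : cs 72 = -cs 12 := csB 72 (by norm_num)
  have e76 : cs 76 = -cs 8 := csB 76 (by norm_num)
  have e96 : cs 96 = -cs 12 := (csA 96 (by norm_num)).trans (csB 72 (by norm_num))
  have e108 : cs 108 = -cs 24 := (csA 108 (by norm_num)).trans (csB 60 (by norm_num))
  have e112 : cs 112 = -cs 28 := (csA 112 (by norm_num)).trans (csB 56 (by norm_num))
  have e116 : cs 116 = -cs 32 := (csA 116 (by norm_num)).trans (csB 52 (by norm_num))
  have e120 : cs 120 = -cs 36 := (csA 120 (by norm_num)).trans (csB 48 (by norm_num))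
  have e124 : cs 124 = -cs 40 := (csA 124 (by norm_num)).trans (csB 44 (by norm_num))
  have e132 : cs 132 = cs 36 := csA 132 (by norm_num)
  have e140 : cs 140 = cs 28 := csA 140 (by norm_num)
  have e144 : cs 144 = cs 24 := csA 144 (by norm_num)
  have e148 : cs 148 = cs 20 := csA 148 (by norm_num)
  have e156 : cs 156 = cs 12 := csA 156 (by norm_num)
  have e172 : cs 172 = cs 4 := csP 4
  have e180 : cs 180 = cs 12 := csP 12
  have e196 : cs 196 = cs 28 := csP 28
  have e228 : cs 228 = -cs 24 := (csP 60).trans (csB 60 (by norm_num))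
  have e268 : cs 268 = -cs 16 := (csP 100).trans ((csA 100 (by norm_num)).trans (csB 68 (by norm_num)))
  have e276 : cs 276 = -cs 24 := (csP 108).trans ((csA 108 (by norm_num)).trans (csB 60 (by norm_num)))
  have e300 : cs 300 = cs 36 := (csP 132).trans (csA 132 (by norm_num))
  have e308 : cs 308 = cs 28 := (csP 140).trans (csA 140 (by norm_num))
  have e324 : cs 324 = cs 12 := (csP 156).trans (csA 156 (by norm_num))
  have e332 : cs 332 = cs 4 := (csP 164).trans (csA 164 (by norm_num))
  have r3_0 := eta_zero_R 3 56 (by norm_num) (by norm_num) 0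
  have r3_4 := eta_zero_R 3 56 (by norm_num) (by norm_num) 4
  have r3_8 := eta_zero_R 3 56 (by norm_num) (by norm_num) 8
  have r3_12 := eta_zero_R 3 56 (by norm_num) (by norm_num) 12
  have r7_0 := eta_zero_R 7 24 (by norm_num) (by norm_num) 0
  simp only [Finset.sum_range_succ, Finset.sum_range_zero, Nat.reduceMul, Nat.reduceAdd,
    mul_zero, add_zero, zero_add, mul_one, e44, e48, e52, e56, e60, e64, e68, e72, e76, e96, e108, e112, e116, e120, e124, e132, e140, e144, e148, e156, e172, e180, e196, e228, e268, e276, e300, e308, e324, e332] at r3_0 r3_4 r3_8 r3_12 r7_0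
  simp only [U0, List.map_cons, List.map_nil, List.sum_cons, List.sum_nil, Nat.reduceMul,
    e44, e48, e52, e56, e60, e64, e68, e72, e76, e96, e108, e112, e116, e120, e124, e132, e140, e144, e148, e156, e172, e180, e196, e228, e268, e276, e300, e308, e324, e332]
  linear_combination (-2) * r3_0 + (2) * r3_4 + (-1) * r3_8 + (1) * r3_12 + (-1) * r7_0

theorem eta_zero : eta U0.toFinset false = 0 := by
  have h0 : cs 0 = 1 := by simp [cs]
  have h21 : cs 21 = Real.sqrt 2 / 2 := by
    have : cs 21 = Real.cos (Real.pi / 4) := by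
      unfold cs
      congr 1
      push_cast
      ring
    rw [this, Real.cos_pi_div_four]
  have h5 : Real.sqrt 2 ^ 2 = 2 := Real.sq_sqrt (by norm_num)
  have s1 : sg U0.toFinset false 1 = Real.sqrt 2 := by
    unfold sg
    rw [sum1, h21]
    simp only [Bool.false_eq_true, if_false, add_zero]
    ring
  have s2 : sg U0.toFinset false 2 = 0 := by
    unfold sg
    rw [sum2]
    simp
  have s4 : sg U0.toFinset false 4 = 6 := by
    unfold sg
    rw [sum4, h0]
    norm_num
  unfold eta uu
  rw [s1, s2, s4]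
  linear_combination ((Real.sqrt 2 ^ 2 + 2) / 4 + (Real.sqrt 2 ^ 2 + 2) / 8) * h5

theorem prod_all (e : ℕ) (U : Finset ℕ) (pm : Bool)
    (w_pow : ∀ (e a : ℕ), a ∈ PAR e → (w a) ^ 84 = (-1) ^ e)
    (w_inj : ∀ (a b : ℕ), a < 168 → b < 168 → w a = w b → a = b)
    (FU_map : ∀ (e : ℕ) (U : Finset ℕ) (pm : Bool), U ⊆ UP e → (pm = true → e = 0) →
      (FU U pm).map (algebraMap ℝ ℂ) = ∏ a ∈ full U pm, (X - C (w a)))
    (full_union : ∀ (e : ℕ) (U : Finset ℕ) (pm : Bool), Valid e U pm →
      full U pm ⊆ PAR e ∧ full (comp e U) (cpm e pm) = PAR e \ full U pm ∧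
      (full U pm).card = 44 ∧ (full (comp e U) (cpm e pm)).card = 40)
    (hV : Valid e U pm) :
    FU U pm * FU (comp e U) (cpm e pm) = X ^ 84 - C ((-1) ^ e) ∧
    (FU U pm).Monic ∧ (FU U pm).natDegree = 44 ∧
    (FU (comp e U) (cpm e pm)).Monic ∧ (FU (comp e U) (cpm e pm)).natDegree = 40 := by
  classical
  obtain ⟨hsub, hcompl, hc1, hc2⟩ := full_union e U pm hV
  have hm1 := FU_map e U pm hV.hU hV.hp
  have hm2 := FU_map e (comp e U) (cpm e pm) Finset.sdiff_subset (by
    intro h
    simp only [cpm, Bool.and_eq_true, decide_eq_true_eq] at h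
    exact h.1)
  have hinj : Function.Injective (algebraMap ℝ ℂ) := (algebraMap ℝ ℂ).injective
  have hmon1 : (FU U pm).Monic := by
    apply Polynomial.monic_of_injective hinj
    rw [hm1]
    exact Polynomial.monic_prod_of_monic _ _ (fun a _ => Polynomial.monic_X_sub_C _)
  have hmon2 : (FU (comp e U) (cpm e pm)).Monic := by
    apply Polynomial.monic_of_injective hinj
    rw [hm2]
    exact Polynomial.monic_prod_of_monic _ _ (fun a _ => Polynomial.monic_X_sub_C _)
  have hd1 : (FU U pm).natDegree = 44 := by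
    rw [← Polynomial.natDegree_map (algebraMap ℝ ℂ), hm1,
      Polynomial.natDegree_finsetProd_X_sub_C_eq_card, hc1]
  have hd2 : (FU (comp e U) (cpm e pm)).natDegree = 40 := by
    rw [← Polynomial.natDegree_map (algebraMap ℝ ℂ), hm2,
      Polynomial.natDegree_finsetProd_X_sub_C_eq_card, hc2]
  refine ⟨?_, hmon1, hd1, hmon2, hd2⟩
  apply Polynomial.map_injective _ hinj
  have hcard : (PAR e).card = 84 := by
    have := Finset.card_sdiff_add_card_eq_card hsub
    rw [← hcompl, hc2, hc1] at this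
    omega
  have hprod : (FU U pm * FU (comp e U) (cpm e pm)).map (algebraMap ℝ ℂ) =
      ∏ a ∈ PAR e, (X - C (w a)) := by
    rw [Polynomial.map_mul, hm1, hm2, hcompl, mul_comm]
    exact Finset.prod_sdiff hsub
  rw [hprod]
  have hq : (X ^ 84 - C ((-1) ^ e) : ℝ[X]).map (algebraMap ℝ ℂ) = X ^ 84 - C ((-1 : ℂ) ^ e) := by
    simp
  rw [hq]
  have hwinj : Set.InjOn w (PAR e : Set ℕ) := by
    intro a ha b hb hab
    simp only [PAR, Finset.coe_filter, Set.mem_ofPred_eq, Finset.mem_range] at ha hb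
    exact w_inj a b ha.1 hb.1 hab
  have hcardi : ((PAR e).image w).card = 84 := by
    rw [Finset.card_image_of_injOn hwinj, hcard]
  have hpm : (∏ a ∈ PAR e, (X - C (w a)) : ℂ[X]).Monic :=
    Polynomial.monic_prod_of_monic _ _ (fun a _ => Polynomial.monic_X_sub_C _)
  have hpd : (∏ a ∈ PAR e, (X - C (w a)) : ℂ[X]).natDegree = 84 := by
    rw [Polynomial.natDegree_finsetProd_X_sub_C_eq_card, hcard]
  have hxm : (X ^ 84 - C ((-1 : ℂ) ^ e) : ℂ[X]).Monic :=
    Polynomial.monic_X_pow_sub_C _ (by norm_num)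
  have hxd : (X ^ 84 - C ((-1 : ℂ) ^ e) : ℂ[X]).natDegree = 84 :=
    Polynomial.natDegree_X_pow_sub_C
  have hz : (∏ a ∈ PAR e, (X - C (w a)) : ℂ[X]) - (X ^ 84 - C ((-1 : ℂ) ^ e)) = 0 := by
    apply Polynomial.eq_zero_of_natDegree_lt_card_of_eval_eq_zero' _ ((PAR e).image w)
    · intro z hz
      obtain ⟨a, ha, rfl⟩ := Finset.mem_image.1 hz
      rw [Polynomial.eval_sub, Polynomial.eval_prod, Finset.prod_eq_zero ha (by simp)]
      simp [w_pow e a ha]
    · rw [hcardi]
      have hne : (∏ a ∈ PAR e, (X - C (w a)) : ℂ[X]) ≠ 0 := hpm.ne_zero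
      have hdeg : (∏ a ∈ PAR e, (X - C (w a)) : ℂ[X]).degree
          = (X ^ 84 - C ((-1 : ℂ) ^ e) : ℂ[X]).degree := by
        rw [Polynomial.degree_eq_natDegree hne, Polynomial.degree_eq_natDegree hxm.ne_zero, hpd, hxd]
      have hlt := Polynomial.degree_sub_lt_left hdeg hne (by rw [hpm.leadingCoeff, hxm.leadingCoeff])
      by_cases h0 : (∏ a ∈ PAR e, (X - C (w a)) : ℂ[X]) - (X ^ 84 - C ((-1 : ℂ) ^ e)) = 0
      · rw [h0]; simp
      · rw [Polynomial.natDegree_lt_iff_degree_lt h0]
        rw [Polynomial.degree_eq_natDegree hne, hpd] at hlt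
        exact hlt
  exact sub_eq_zero.1 hz

end Pool.Agent.N14.TwoN.C5
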