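import Mathlib
import Pool.Agent.N14.TwoN.Defs

set_option autoImplicit false

namespace Pool.Agent.N14.TwoN.D1b

open Polynomial
open Pool.Agent.N14.TwoN

theorem exit_time (c : ℕ → ℝ) (hc : ∃ j ∈ Finset.Icc 1 83, c j ≠ 0) :
    ∃ T : ℝ, 0 < T ∧ (∀ τ ∈ Set.Icc 0 T, BoxR (fun j => c j * τ ^ j)) ∧
      ∃ j0 ∈ Finset.Icc 1 83, |c j0 * T ^ j0| = bdR j0 := by
  classical
  have hbd : ∀ j, 0 < bdR j := by
    intro j
    unfold bdR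
    positivity
  have hTj : ∀ j, ∃ t : ℝ, 1 ≤ j → c j ≠ 0 → 0 < t ∧ t ^ j = bdR j / |c j| := by
    intro j
    by_cases hj : 1 ≤ j ∧ c j ≠ 0
    · have hpos : 0 < bdR j / |c j| := div_pos (hbd j) (abs_pos.2 hj.2)
      refine ⟨(bdR j / |c j|) ^ ((j : ℝ)⁻¹), fun _ _ => ⟨Real.rpow_pos_of_pos hpos _, ?_⟩⟩
      exact Real.rpow_inv_natCast_pow hpos.le (by omega)
    · exact ⟨0, fun h1 h2 => absurd ⟨h1, h2⟩ hj⟩
  choose Tj hTj using hTj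
  have hne : ((Finset.Icc 1 83).filter (fun j => c j ≠ 0)).Nonempty := by
    obtain ⟨j, h1, h2⟩ := hc
    exact ⟨j, Finset.mem_filter.2 ⟨h1, h2⟩⟩
  obtain ⟨j0, hj0, hmin⟩ := Finset.exists_min_image _ Tj hne
  rw [Finset.mem_filter, Finset.mem_Icc] at hj0
  obtain ⟨hT0, hT1⟩ := hTj j0 hj0.1.1 hj0.2
  refine ⟨Tj j0, hT0, ?_, j0, Finset.mem_Icc.2 hj0.1, ?_⟩
  · intro τ hτ j hj
    show |c j * τ ^ j| ≤ bdR j
    by_cases hcj : c j = 0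
    · rw [hcj, zero_mul, abs_zero]
      exact (hbd j).le
    · obtain ⟨h1, h2⟩ := hTj j (Finset.mem_Icc.1 hj).1 hcj
      have h3 : τ ≤ Tj j := hτ.2.trans (hmin j (Finset.mem_filter.2 ⟨hj, hcj⟩))
      have hcp : 0 < |c j| := abs_pos.2 hcj
      rw [abs_mul, abs_of_nonneg (pow_nonneg hτ.1 j)]
      calc |c j| * τ ^ j ≤ |c j| * Tj j ^ j :=
            mul_le_mul_of_nonneg_left (pow_le_pow_left₀ hτ.1 h3 j) hcp.le
        _ = bdR j := by rw [h2, mul_div_cancel₀ _ hcp.ne']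
  · have hcp : 0 < |c j0| := abs_pos.2 hj0.2
    rw [abs_mul, abs_of_nonneg (pow_nonneg hT0.le _), hT1, mul_div_cancel₀ _ hcp.ne']

end Pool.Agent.N14.TwoN.D1b
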