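import Mathlib
import Pool.Agent.N14.TwoN.Defs
import Pool.Agent.N14.TwoN.D1a
import Pool.Agent.N14.TwoN.D1b

set_option autoImplicit false

/-! The continuation argument. -/

namespace Pool.Agent.N14.TwoN.D1

open Polynomial
open Pool.Agent.N14.TwoN

theorem P_congr (ρ ρ' : ℕ → ℝ) (e : ℕ) (h : ∀ j ∈ Finset.Icc 1 83, ρ j = ρ' j) :
    P ρ e = P ρ' e := by
  unfold P
  rw [Finset.sum_congr rfl (fun j hj => by rw [h j hj])]

theorem hs_cont (F : ℝ → ℝ[X]) (D : ℕ) (s : Set ℝ)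
    (h : ∀ i, ContinuousOn (fun τ => (F τ).coeff i) s) (l : ℕ) :
    ContinuousOn (fun τ => hs (F τ) D l) s := by
  induction l with
  | zero => exact continuousOn_const
  | succ l ih => exact (((h (D - 1)).neg).mul ih).add (h _)

/-- A continuous path of displacements leaving the box is on its boundary at some time. -/
theorem boundary_time (f : ℝ → ℕ → ℝ) (T : ℝ) (hT : 0 ≤ T)
    (hc : ∀ j ∈ Finset.Icc 1 83, ContinuousOn (fun τ => f τ j) (Set.Icc 0 T))
    (h0 : ∀ j ∈ Finset.Icc 1 83, |f 0 j| < bd j)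
    (h1 : ∃ j ∈ Finset.Icc 1 83, bd j < |f T j|) :
    ∃ τ ∈ Set.Icc 0 T, Box (f τ) ∧ ∃ j ∈ Finset.Icc 1 83, |f τ j| = bd j := by
  have hne : (Finset.Icc 1 83).Nonempty := ⟨1, Finset.mem_Icc.2 (by omega)⟩
  let g : ℝ → ℝ := fun τ => (Finset.Icc 1 83).sup' hne (fun j => |f τ j| - bd j)
  have hg : ContinuousOn g (Set.Icc 0 T) :=
    ContinuousOn.finset_sup'_apply hne fun j hj => ((hc j hj).abs).sub continuousOn_const
  have g0 : g 0 ≤ 0 := Finset.sup'_le _ _ fun j hj => by linarith [h0 j hj]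
  have g1 : 0 ≤ g T := by
    obtain ⟨j, hj, hj1⟩ := h1
    have := Finset.le_sup' (fun j => |f T j| - bd j) hj
    show 0 ≤ g T
    have h2 : |f T j| - bd j ≤ g T := this
    linarith
  obtain ⟨τ, hτ, hτ0⟩ := intermediate_value_Icc hT hg ⟨g0, g1⟩
  refine ⟨τ, hτ, ?_, ?_⟩
  · intro j hj
    have h2 : |f τ j| - bd j ≤ g τ := Finset.le_sup' (fun j => |f τ j| - bd j) hj
    rw [hτ0] at h2
    linarith
  · obtain ⟨j, hj, hj1⟩ := Finset.exists_mem_eq_sup' hne (fun j => |f τ j| - bd j)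
    refine ⟨j, hj, ?_⟩
    have h2 : g τ = |f τ j| - bd j := hj1
    rw [hτ0] at h2
    linarith

theorem main_factor
    (FU_h4 : ∀ (e : ℕ) (U : Finset ℕ) (pm : Bool), Valid e U pm → hs (FU U pm) 44 4 = eta U pm)
    (Data : List (List ℕ)) (hD : Detect Data)
    (hV : ∀ t ∈ Data, Valid 1 t.toFinset false ∧ 1 ≤ sg t.toFinset false 1 ∧
      sg t.toFinset false 1 ≤ 21 / 10 ∧ |uu t.toFinset false| ≤ 4 ∧
      |eta t.toFinset false| ≤ 1 / 1000 ∧ NiceSet 1 t.toFinset false)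
    (z : (ℕ → ℝ) → ℕ → ℂ) (σ : (ℕ → ℝ) → ℕ → ℝ) (hDisp : Disp 1 z σ)
    (hF : ∀ (U : Finset ℕ) (pm : Bool), Valid 1 U pm →
      ∃ F1 F2 : (ℕ → ℝ) → ℝ[X], Family 1 U pm σ F1 F2)
    (hN : ∃ F1 F2 : ℝ[X], F1.Monic ∧ F1.natDegree = 44 ∧ F2.Monic ∧ F2.natDegree = 40 ∧
      F1 * F2 = X ^ 84 + 1 ∧ nice1 F1 ∧ nice2 F2)
    (p : ℝ[X]) (hp : p.Monic) (hpd : p.natDegree = 83) :
    ∃ (F1 F2 : ℝ[X]) (K : ℝ), F1.Monic ∧ F1.natDegree = 44 ∧ F2.Monic ∧ F2.natDegree = 40 ∧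
      X * p + C K = F1 * F2 ∧ nice1 F1 ∧ nice2 F2 := by
  by_cases hc : ∃ j ∈ Finset.Icc 1 83, p.coeff (83 - j) ≠ 0
  · obtain ⟨TR, hTR, hboxR, j0, hj0, hTj0⟩ := D1b.exit_time (fun j => p.coeff (83 - j)) hc
    set c : ℕ → ℝ := fun j => p.coeff (83 - j) with hcdef
    let γ : ℝ → ℕ → ℝ := fun τ j => if j = 0 then 0 else c j * τ ^ j
    have hγ : ∀ τ, ∀ j ∈ Finset.Icc 1 83, γ τ j = c j * τ ^ j := by
      intro τ j hj
      rw [Finset.mem_Icc] at hj
      show (if j = 0 then 0 else c j * τ ^ j) = _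
      rw [if_neg (by omega)]
    have hγboxR : ∀ τ ∈ Set.Icc 0 TR, BoxR (γ τ) := by
      intro τ hτ j hj
      rw [hγ τ j hj]
      exact hboxR τ hτ j hj
    have hγc : ∀ j, Continuous (fun τ => γ τ j) := by
      intro j
      by_cases h : j = 0
      · have : (fun τ => γ τ j) = fun _ => 0 := by
          funext τ
          show (if j = 0 then 0 else c j * τ ^ j) = 0
          rw [if_pos h]
        rw [this]
        exact continuous_const
      · have : (fun τ => γ τ j) = fun τ => c j * τ ^ j := by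
          funext τ
          show (if j = 0 then 0 else c j * τ ^ j) = _
          rw [if_neg h]
        rw [this]
        fun_prop
    have hγ0 : γ 0 = fun _ => 0 := by
      funext j
      show (if j = 0 then 0 else c j * 0 ^ j) = 0
      split_ifs with h
      · rfl
      · rw [zero_pow h, mul_zero]
    have hTR0 : (0 : ℝ) ∈ Set.Icc 0 TR := ⟨le_rfl, hTR.le⟩
    have hTRR : TR ∈ Set.Icc 0 TR := ⟨hTR.le, le_rfl⟩
    -- the boundary time
    obtain ⟨T, hT, hboxT, j1, hj1, hTj1⟩ := boundary_time (fun τ => σ (γ τ)) TR hTR.le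
      (fun j hj => hDisp.cont γ TR hγc hγboxR j hj)
      (fun j hj => by
        have h1 := hDisp.close (γ 0) (hγboxR 0 hTR0) j hj
        have h2 : γ 0 j = 0 := by rw [hγ0]
        rw [h2, sub_zero] at h1
        refine lt_of_le_of_lt h1 ?_
        unfold bd bdN
        split_ifs <;> norm_num)
      ⟨j0, hj0, by
        have h1 := hDisp.close (γ TR) (hγboxR TR hTRR) j0 hj0
        have h2 : |γ TR j0| = bdR j0 := by rw [hγ TR j0 hj0]; exact hTj0
        have h3 : |γ TR j0| ≤ |σ (γ TR) j0| + |σ (γ TR) j0 - γ TR j0| := by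
          have := abs_sub_abs_le_abs_sub (γ TR j0) (σ (γ TR) j0)
          rw [abs_sub_comm] at this
          linarith
        have h4 : bdR j0 = bd j0 + 2 / 10 ^ 7 := by
          unfold bdR bd
          push_cast
          ring
        show bd j0 < |σ (γ TR) j0|
        rw [h2, h4] at h3
        norm_num at h1 h3 ⊢
        linarith⟩
    have hT0 : (0 : ℝ) ∈ Set.Icc 0 T := ⟨le_rfl, hT.1⟩
    have hTT : T ∈ Set.Icc 0 T := ⟨hT.1, le_rfl⟩
    have hγbox : ∀ τ ∈ Set.Icc 0 T, BoxR (γ τ) := fun τ hτ =>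
      hγboxR τ ⟨hτ.1, hτ.2.trans hT.2⟩
    obtain ⟨t, ht, hsign⟩ := hD (σ (γ T)) hboxT j1 hj1 hTj1
    obtain ⟨hval, hb1, hb2, hu, het, hnice⟩ := hV t ht
    obtain ⟨F1, F2, fam⟩ := hF _ _ hval
    have hcont : ContinuousOn (fun τ => hs (F1 (γ τ)) 44 4) (Set.Icc 0 T) :=
      hs_cont (fun τ => F1 (γ τ)) 44 (Set.Icc 0 T) (fam.cont γ T hγc hγbox) 4
    have hf0 : hs (F1 (γ 0)) 44 4 = eta t.toFinset false := by
      rw [hγ0, fam.zero1]
      exact FU_h4 _ _ _ hval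
    have hfT := fam.h4 hb1 hb2 hu het (γ T) (hγbox T hTT) hboxT
    have hne : eta t.toFinset false ≠ 0 := by
      rcases hsign with ⟨h, -⟩ | ⟨h, -⟩
      · exact ne_of_gt h
      · exact ne_of_lt h
    have hroot : ∃ τ ∈ Set.Icc 0 T, hs (F1 (γ τ)) 44 4 = 0 := by
      rcases hsign with ⟨h1, h2⟩ | ⟨h1, h2⟩
      · have h3 : (0 : ℝ) ∈ Set.Icc (hs (F1 (γ T)) 44 4) (hs (F1 (γ 0)) 44 4) := by
          rw [hf0]
          constructor
          · linarith [hfT.2]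
          · exact h1.le
        obtain ⟨τ, hτ, hτ0⟩ := intermediate_value_Icc' hT.1 hcont h3
        exact ⟨τ, hτ, hτ0⟩
      · have h3 : (0 : ℝ) ∈ Set.Icc (hs (F1 (γ 0)) 44 4) (hs (F1 (γ T)) 44 4) := by
          rw [hf0]
          constructor
          · exact h1.le
          · linarith [hfT.1]
        obtain ⟨τ, hτ, hτ0⟩ := intermediate_value_Icc hT.1 hcont h3
        exact ⟨τ, hτ, hτ0⟩
    obtain ⟨τ, hτ, hτ0⟩ := hroot
    have hτne : τ ≠ 0 := by
      rintro rfl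
      exact hne (hf0.symm.trans hτ0)
    have hτpos : 0 < τ := lt_of_le_of_ne hτ.1 (Ne.symm hτne)
    have hb := hγbox τ hτ
    have hprod := fam.prod (γ τ) hb
    obtain ⟨hn1, hn2⟩ := hnice (F1 (γ τ)) (F2 (γ τ)) (fam.close1 _ hb) (fam.close2 _ hb)
      (fam.top1 _ hb) (fam.top2 _ hb) hτ0
    exact D1a.scale_step (F1 (γ τ)) (F2 (γ τ)) 1 c τ hτpos (fam.monic1 _ hb) (fam.deg1 _ hb)
      (fam.monic2 _ hb) (fam.deg2 _ hb)
      (hprod.trans (P_congr _ _ _ (hγ τ))) hn1 hn2 p hp hpd (fun j => rfl)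
  · push Not at hc
    obtain ⟨F1, F2, h1, h2, h3, h4, h5, h6, h7⟩ := hN
    refine ⟨F1, F2, 1, h1, h2, h3, h4, ?_, h6, h7⟩
    have hpX : p = X ^ 83 := by
      ext i
      rw [coeff_X_pow]
      split_ifs with h
      · rw [h]
        have := hp.coeff_natDegree
        rwa [hpd] at this
      · by_cases hi : i < 83
        · have := hc (83 - i) (by rw [Finset.mem_Icc]; omega)
          rwa [show 83 - (83 - i) = i by omega] at this
        · exact coeff_eq_zero_of_natDegree_lt (by omega)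
    rw [h5, hpX, C_1]
    ring

end Pool.Agent.N14.TwoN.D1
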