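import Pool.Agent.N14.TwoN.A1a
import Pool.Agent.N14.TwoN.A1b
import Pool.Agent.N14.TwoN.A2
import Pool.Agent.N14.TwoN.B7
import Pool.Agent.N14.TwoN.C1
import Pool.Agent.N14.TwoN.C2a
import Pool.Agent.N14.TwoN.C2b
import Pool.Agent.N14.TwoN.C2c
import Pool.Agent.N14.TwoN.C2d
import Pool.Agent.N14.TwoN.C3a
import Pool.Agent.N14.TwoN.C3b
import Pool.Agent.N14.TwoN.C3c
import Pool.Agent.N14.TwoN.C4
import Pool.Agent.N14.TwoN.C5
import Pool.Agent.N14.TwoN.D1
import Pool.Agent.N14.TwoN.Num.T0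
import Pool.Agent.N14.TwoN.Num.N0
import Pool.Agent.N14.TwoN.Num.N1
import Pool.Agent.N14.TwoN.Num.N2
import Pool.Agent.N14.TwoN.Num.N3
import Pool.Agent.N14.TwoN.Num.N4
import Pool.Agent.N14.TwoN.Num.R0
import Pool.Agent.N14.TwoN.Num.R1
import Pool.Agent.N14.TwoN.Num.L0
import Pool.Agent.N14.TwoN.Num.L1
import Pool.Agent.N14.TwoN.Num.L2
import Pool.Agent.N14.TwoN.Num.L3

set_option autoImplicit false

/-! The sign pattern of order 83 with 165 nonzero entries is spectrally arbitrary. -/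

namespace Pool.Agent.N14.TwoN

open Polynomial

/-! ### Collecting the numerical checks -/

theorem mem_chunk {α : Type} (c : ℕ) (hc : 0 < c) (l : List α) (n : ℕ) (hl : l.length ≤ c * n)
    (t : α) (ht : t ∈ l) : ∃ k < n, t ∈ (l.drop (c * k)).take c := by
  obtain ⟨i, hi, rfl⟩ := List.mem_iff_getElem.1 ht
  have hk : i / c < n := Nat.div_lt_of_lt_mul (lt_of_lt_of_le hi hl)
  refine ⟨i / c, hk, ?_⟩
  rw [List.mem_iff_getElem]
  have h1 : c * (i / c) + i % c = i := Nat.div_add_mod i c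
  have h2 : i % c < c := Nat.mod_lt _ hc
  refine ⟨i % c, ?_, ?_⟩
  · rw [List.length_take, List.length_drop]
    exact lt_min h2 (by omega)
  · rw [List.getElem_take, List.getElem_drop]
    congr 1

theorem eq_of_chunks {α : Type} (c : ℕ) (n : ℕ) : ∀ (l1 l2 : List α), l1.length ≤ c * n →
    l2.length ≤ c * n → (∀ k < n, (l1.drop (c * k)).take c = (l2.drop (c * k)).take c) →
    l1 = l2 := by
  induction n with
  | zero =>
    intro l1 l2 h1 h2 _
    rw [Nat.mul_zero, Nat.le_zero, List.length_eq_zero_iff] at h1 h2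
    rw [h1, h2]
  | succ n ih =>
    intro l1 l2 h1 h2 h
    have e0 := h 0 (Nat.succ_pos n)
    simp only [Nat.mul_zero, List.drop_zero] at e0
    have e1 : l1.drop c = l2.drop c := by
      apply ih
      · rw [List.length_drop]; rw [Nat.mul_succ] at h1; omega
      · rw [List.length_drop]; rw [Nat.mul_succ] at h2; omega
      · intro k hk
        rw [List.drop_drop, List.drop_drop]
        have := h (k + 1) (by omega)
        rw [Nat.mul_succ] at this
        rw [show c + c * k = c * k + c by omega]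
        exact this
    rw [← List.take_append_drop c l1, ← List.take_append_drop c l2, e0, e1]

theorem chk_all : ∀ t ∈ Data, chkS ctf t = true := by
  intro t ht
  obtain ⟨k, hk, hm⟩ := mem_chunk 23 (by norm_num) Data 10 (by decide +kernel) t ht
  have key : ((Data.drop (23 * k)).take 23).all (chkS ctf) = true := by
    interval_cases k
    · exact chk_0
    · exact chk_1
    · exact chk_2
    · exact chk_3
    · exact chk_4
    · exact chk_5
    · exact chk_6
    · exact chk_7
    · exact chk_8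
    · exact chk_9
  exact List.all_eq_true.1 key t hm

theorem rows_all : Data.map rowD = RW := by
  apply eq_of_chunks 23 10
  · rw [List.length_map]; decide +kernel
  · decide +kernel
  · intro k hk
    interval_cases k
    · exact row_0
    · exact row_1
    · exact row_2
    · exact row_3
    · exact row_4
    · exact row_5
    · exact row_6
    · exact row_7
    · exact row_8
    · exact row_9

theorem lpAll_get (a len : ℕ) (pos : Bool) (h : lpAll a len pos = true) (i : ℕ) (h1 : a ≤ i)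
    (h2 : i < a + len) : ∃ n, lpCheck RW (i + 1) pos n = true := by
  unfold lpAll at h
  rw [List.all_eq_true] at h
  exact ⟨_, h i (List.mem_range'_1.2 ⟨h1, h2⟩)⟩

theorem lp_all (i : ℕ) (hi : i < 83) (pos : Bool) : ∃ n, lpCheck RW (i + 1) pos n = true := by
  cases pos
  · rcases Nat.lt_or_ge i 12 with h | h
    · exact lpAll_get _ _ _ lpM_0 i (by omega) (by omega)
    rcases Nat.lt_or_ge i 24 with h | h
    · exact lpAll_get _ _ _ lpM_1 i (by omega) (by omega)
    rcases Nat.lt_or_ge i 36 with h | h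
    · exact lpAll_get _ _ _ lpM_2 i (by omega) (by omega)
    rcases Nat.lt_or_ge i 48 with h | h
    · exact lpAll_get _ _ _ lpM_3 i (by omega) (by omega)
    rcases Nat.lt_or_ge i 60 with h | h
    · exact lpAll_get _ _ _ lpM_4 i (by omega) (by omega)
    rcases Nat.lt_or_ge i 72 with h | h
    · exact lpAll_get _ _ _ lpM_5 i (by omega) (by omega)
    exact lpAll_get _ _ _ lpM_6 i (by omega) (by omega)
  · rcases Nat.lt_or_ge i 12 with h | h
    · exact lpAll_get _ _ _ lpP_0 i (by omega) (by omega)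
    rcases Nat.lt_or_ge i 24 with h | h
    · exact lpAll_get _ _ _ lpP_1 i (by omega) (by omega)
    rcases Nat.lt_or_ge i 36 with h | h
    · exact lpAll_get _ _ _ lpP_2 i (by omega) (by omega)
    rcases Nat.lt_or_ge i 48 with h | h
    · exact lpAll_get _ _ _ lpP_3 i (by omega) (by omega)
    rcases Nat.lt_or_ge i 60 with h | h
    · exact lpAll_get _ _ _ lpP_4 i (by omega) (by omega)
    rcases Nat.lt_or_ge i 72 with h | h
    · exact lpAll_get _ _ _ lpP_5 i (by omega) (by omega)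
    exact lpAll_get _ _ _ lpP_6 i (by omega) (by omega)

theorem tAll_get (a len : ℕ) (h : tAll a len = true) (i : ℕ) (h1 : a ≤ i) (h2 : i < a + len) :
    TLf (2 * i + 1) = packT ctf (2 * i + 1) 83 := by
  unfold tAll at h
  rw [List.all_eq_true] at h
  exact of_decide_eq_true (h i (List.mem_range'_1.2 ⟨h1, h2⟩))

theorem tab_all (a : ℕ) (ha : a < 84) (hodd : a % 2 = 1) : TLf a = packT ctf a 83 := by
  obtain ⟨i, rfl⟩ : ∃ i, a = 2 * i + 1 := ⟨a / 2, by omega⟩
  have hi : i < 42 := by omega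
  rcases Nat.lt_or_ge i 6 with h | h
  · exact tAll_get _ _ tab_0 i (by omega) (by omega)
  rcases Nat.lt_or_ge i 12 with h | h
  · exact tAll_get _ _ tab_1 i (by omega) (by omega)
  rcases Nat.lt_or_ge i 18 with h | h
  · exact tAll_get _ _ tab_2 i (by omega) (by omega)
  rcases Nat.lt_or_ge i 24 with h | h
  · exact tAll_get _ _ tab_3 i (by omega) (by omega)
  rcases Nat.lt_or_ge i 30 with h | h
  · exact tAll_get _ _ tab_4 i (by omega) (by omega)
  rcases Nat.lt_or_ge i 36 with h | h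
  · exact tAll_get _ _ tab_5 i (by omega) (by omega)
  exact tAll_get _ _ tab_6 i (by omega) (by omega)

/-! ### Assembling the lemmas -/

theorem F_h4 (e : ℕ) (U : Finset ℕ) (pm : Bool) (hV : Valid e U pm) :
    hs (FU U pm) 44 4 = eta U pm :=
  B7f.FU_h4 B7.F_FU_map B7.F_power_sum B7b.full_union B7d.horner4 e U pm hV

theorem F_nice (e : ℕ) (U : List ℕ) (pm : Bool) (hv : validL e U pm = true)
    (hc : niceCheck ctf e U pm = true) :
    Valid e U.toFinset pm ∧ U.Nodup ∧ (∀ a ∈ U, a < 84 ∧ a % 2 = e) ∧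
      U.length + (if pm then 1 else 0) = 22 ∧ NiceSet e U.toFinset pm :=
  C3c.nice_sound (C3a.coefR_sound C2a.digsRev_eq C2a.digit_sound)
    ctf C1.ctf_spec C1.ctf_bound e U pm hv hc

theorem F_all (t : List ℕ) (ht : t ∈ Data) :
    Valid 1 t.toFinset false ∧ t.Nodup ∧ (∀ a ∈ t, a < 84 ∧ a % 2 = 1) ∧ t.length = 22 ∧
      NiceSet 1 t.toFinset false ∧ 1 ≤ sg t.toFinset false 1 ∧ sg t.toFinset false 1 ≤ 21 / 10 ∧
      |uu t.toFinset false| ≤ 4 ∧ |eta t.toFinset false| ≤ 1 / 1000 ∧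
      2 ^ 15 < (etaI ctf t).natAbs := by
  have h := chk_all t ht
  unfold chkS at h
  simp only [Bool.and_eq_true] at h
  obtain ⟨h1, h2, h3, h4, h5, h6, h7⟩ := h
  obtain ⟨a1, a2, a3, a4, a5⟩ := F_nice _ _ _ h1 h2
  have a4 : t.length = 22 := by simpa using a4
  have k1 := C2b.gI_sound ctf C1.ctf_spec t a2 a4 1
  have hb1 := C2d.low _ _ k1 (Nat.le_of_ble_eq_true h3)
  have hb2 := C2d.high _ _ k1 (Nat.le_of_ble_eq_true h4)
  have hb : |sg t.toFinset false 1| ≤ 21 / 10 := by
    rw [abs_of_nonneg (zero_le_one.trans hb1)]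
    exact hb2
  have hu := C2d.absu _ _ (C2b.uI_sound ctf C1.ctf_spec t a2 a4 hb) (Nat.le_of_ble_eq_true h5)
  have het := C2d.abse _ _ (C2b.etaI_sound ctf C1.ctf_spec t a2 a4 hb hu)
    (Nat.le_of_ble_eq_true h7)
  exact ⟨a1, a2, a3, a4, a5, hb1, hb2, hu, het, Nat.le_of_ble_eq_true h6⟩

theorem F_absb (t : List ℕ) (ht : t ∈ Data) : |sg t.toFinset false 1| ≤ 21 / 10 := by
  obtain ⟨a1, a2, a3, a4, a5, hb1, hb2, hu, het, h6⟩ := F_all t ht
  rw [abs_of_nonneg (zero_le_one.trans hb1)]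
  exact hb2

theorem F_detect : Detect Data := by
  apply C4.detect_sound ctf TLf Data
  · decide +kernel
  · intro t ht
    refine C2c.rowW_sound ctf TLf t ?_
    intro a ha
    have := (F_all t ht).2.2.1 a ha
    exact tab_all a this.1 this.2
  · intro t ht j
    obtain ⟨a1, a2, a3, a4, a5, hb1, hb2, hu, het, h6⟩ := F_all t ht
    exact C2b.RI_sound ctf C1.ctf_spec t a2 a4 (F_absb t ht) hu j
  · intro t ht
    obtain ⟨a1, a2, a3, a4, a5, hb1, hb2, hu, het, h6⟩ := F_all t ht
    exact C2b.etaI_sound ctf C1.ctf_spec t a2 a4 (F_absb t ht) hu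
  · intro t ht
    obtain ⟨a1, a2, a3, a4, a5, hb1, hb2, hu, het, h6⟩ := F_all t ht
    exact h6
  · intro t ht
    obtain ⟨a1, a2, a3, a4, a5, hb1, hb2, hu, het, h6⟩ := F_all t ht
    exact C2b.epsI_pos ctf C1.ctf_spec t a2 a4 (F_absb t ht)
  · intro t _
    exact C2b.epsI_neg ctf t
  · intro j0 hj0 pos
    have h1 := Finset.mem_Icc.1 hj0
    obtain ⟨n, hn⟩ := lp_all (j0 - 1) (by omega) pos
    refine ⟨n, ?_⟩
    have h2 : Data.map (fun t => rowS ctf TLf t) = RW := rows_all
    rw [h2]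
    rw [show j0 - 1 + 1 = j0 by omega] at hn
    exact hn

theorem U0_valid : validL 1 C5.U0 false = true := by decide +kernel

theorem U0_nice : niceCheck ctf 1 C5.U0 false = true := by decide +kernel

theorem F_nil : ∃ F1 F2 : ℝ[X], F1.Monic ∧ F1.natDegree = 44 ∧ F2.Monic ∧ F2.natDegree = 40 ∧
    F1 * F2 = X ^ 84 + 1 ∧ nice1 F1 ∧ nice2 F2 := by
  obtain ⟨a1, a2, a3, a4, a5⟩ := F_nice 1 C5.U0 false U0_valid U0_nice
  obtain ⟨b1, b2, b3, b4, b5⟩ := C5.prod_all 1 C5.U0.toFinset false B7a.w_pow B7a.w_inj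
    B7.F_FU_map B7b.full_union a1
  have h4 : hs (FU C5.U0.toFinset false) 44 4 = 0 := by
    rw [F_h4 1 C5.U0.toFinset false a1]
    exact C5.eta_zero
  have hc := a5 (FU C5.U0.toFinset false) (FU (comp 1 C5.U0.toFinset) (cpm 1 false))
    (fun i => by
      rw [sub_self, abs_zero]
      exact mul_nonneg (by norm_num) (Finset.sum_nonneg fun _ _ => abs_nonneg _))
    (fun i => by
      rw [sub_self, abs_zero]
      exact mul_nonneg (by norm_num) (Finset.sum_nonneg fun _ _ => abs_nonneg _))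
    (by rw [sub_self, abs_zero]; norm_num) (by rw [sub_self, abs_zero]; norm_num) h4
  refine ⟨_, _, b2, b3, b4, b5, ?_, hc.1, hc.2⟩
  rw [b1]
  simp

/-- Every monic real polynomial of degree 83 is the characteristic polynomial of a matrix with
sign pattern `S`. -/
theorem realise_all (p : ℝ[X]) (hp : p.Monic) (hpd : p.natDegree = 83) :
    ∃ A : Matrix (Fin 83) (Fin 83) ℝ, (∀ i j, SignType.sign (A i j) = S i j) ∧ A.charpoly = p := by
  obtain ⟨z, σ, hD⟩ := B7.disp_exists 1 (by norm_num)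
  obtain ⟨F1, F2, K, h1, h2, h3, h4, h5, h6, h7⟩ := D1.main_factor F_h4 Data F_detect
    (fun t ht => by
      obtain ⟨a1, a2, a3, a4, a5, hb1, hb2, hu, het, h6⟩ := F_all t ht
      exact ⟨a1, hb1, hb2, hu, het, a5⟩)
    z σ hD (fun U pm hV => B7.family_exists 1 z σ hD U pm hV) F_nil p hp hpd
  exact A1b.realise A1a.hess_charpoly p F1 F2 hp hpd h1 h2 h3 h4 K h5 h6 h7

end Pool.Agent.N14.TwoN
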